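import Pool.Agent.MP_c1dca2_ag.SEC.Defs

set_option autoImplicit false

open Polynomial

namespace SEC

/-! ## [SEC-C1] every number field has an element whose norm has odd valuation at an odd prime
(file C1.lean) -/

/-- The norm of `t - gen` is the value of the minimal polynomial at `t`. -/
lemma c1_norm (k : Type) [Field k] [NumberField k] (pb : PowerBasis ℚ k) (t : ℚ) :
    Algebra.norm ℚ (algebraMap ℚ k t - pb.gen) = (minpoly ℚ pb.gen).eval t := by
  rw [Algebra.norm_eq_matrix_det pb.basis, map_sub, ← charpoly_leftMulMatrix pb,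
    Matrix.eval_charpoly]
  congr 2
  rw [AlgHom.commutes]
  rfl

/-- Clearing denominators. -/
lemma c1_clear (f : ℚ[X]) : ∃ (D : ℤ) (F : ℤ[X]), D ≠ 0 ∧
    F.map (Int.castRingHom ℚ) = C (D : ℚ) * f := by
  obtain ⟨b, hb, h⟩ := IsLocalization.integerNormalization_spec (nonZeroDivisors ℤ) f
  refine ⟨b, IsLocalization.integerNormalization (nonZeroDivisors ℤ) f, nonZeroDivisors.ne_zero hb,
    ?_⟩
  have h1 : Int.castRingHom ℚ = algebraMap ℤ ℚ := rfl
  rw [h1, h]
  ext n
  rw [coeff_smul, coeff_C_mul, zsmul_eq_mul]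

/-- an integer polynomial which takes a non zero value, and the other values with good prime
factors -/
lemma c1_prime (G : ℤ[X]) (hG : 0 < G.natDegree) (M : ℤ) (hM : M ≠ 0) :
    ∃ (l : ℕ) (t : ℤ), l.Prime ∧ ¬ (l : ℤ) ∣ M ∧ (l : ℤ) ∣ G.eval t := by
  have hG0 : G ≠ 0 := by
    rintro rfl
    simp at hG
  -- a point where `G` does not vanish
  obtain ⟨t₁, ht₁⟩ : ∃ t₁ : ℤ, G.eval t₁ ≠ 0 := by
    by_contra hcon
    push Not at hcon
    exact hG0 (Polynomial.funext fun x => by rw [hcon x, eval_zero])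
  set a := G.eval t₁ with ha
  -- a point where `G` takes neither the value `a` nor `-a`
  have hfin : ∀ c : ℤ, {s : ℤ | G.eval (t₁ + a * M * s) = c}.Finite := by
    intro c
    have h1 : (G - C c) ≠ 0 := by
      intro h
      have h2 : G = C c := by rwa [sub_eq_zero] at h
      rw [h2, natDegree_C] at hG
      exact lt_irrefl _ hG
    have h2 : {x : ℤ | (G - C c).IsRoot x}.Finite := Polynomial.finite_setOf_isRoot h1
    refine (h2.preimage (f := fun s : ℤ => t₁ + a * M * s) ?_).subset ?_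
    · intro s _ s' _ h
      have h3 : a * M * s = a * M * s' := by simpa using h
      exact mul_left_cancel₀ (mul_ne_zero ht₁ hM) h3
    · intro s hs
      have hs' : G.eval (t₁ + a * M * s) = c := hs
      show (G - C c).IsRoot (t₁ + a * M * s)
      rw [IsRoot, eval_sub, eval_C, hs', sub_self]
  obtain ⟨s, hs⟩ : ∃ s : ℤ, s ∉ ({s : ℤ | G.eval (t₁ + a * M * s) = a} ∪
      {s : ℤ | G.eval (t₁ + a * M * s) = -a}) :=
    ((hfin a).union (hfin (-a))).exists_notMem
  rw [Set.mem_union, not_or] at hs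
  obtain ⟨hs1, hs2⟩ := hs
  have hs1' : G.eval (t₁ + a * M * s) ≠ a := hs1
  have hs2' : G.eval (t₁ + a * M * s) ≠ -a := hs2
  obtain ⟨w, hw⟩ := G.sub_dvd_eval_sub (t₁ + a * M * s) t₁
  rw [add_sub_cancel_left] at hw
  set q : ℤ := 1 + M * s * w with hq
  have hqv : G.eval (t₁ + a * M * s) = a * q := by
    rw [hq]
    linear_combination hw
  have hq1 : q.natAbs ≠ 1 := by
    intro h
    rcases Int.natAbs_eq q with h1 | h1
    · rw [h] at h1
      apply hs1'
      rw [hqv, h1]
      simp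
    · rw [h] at h1
      apply hs2'
      rw [hqv, h1]
      simp
  obtain ⟨l, hl, hlq⟩ := Nat.exists_prime_and_dvd hq1
  have hlq' : (l : ℤ) ∣ q := Int.natCast_dvd.2 hlq
  refine ⟨l, t₁ + a * M * s, hl, fun h => ?_, ?_⟩
  · have h1 : (l : ℤ) ∣ 1 := by
      have h2 : (l : ℤ) ∣ q - M * s * w :=
        dvd_sub hlq' ((h.mul_right s).mul_right w)
      rwa [hq, add_sub_cancel_right] at h2
    have h3 : l ∣ 1 := by exact_mod_cast h1
    exact hl.one_lt.ne' (Nat.dvd_one.1 h3)
  · rw [hqv]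
    exact hlq'.mul_left a

/-- Sketch. Let `α` be an integral primitive element of `k`, `g ∈ ℤ[X]` its minimal polynomial (monic,
irreducible, separable). `N_{k/ℚ}(t - α) = g(t)` for `t ∈ ℤ`. There are infinitely many primes dividing
values of `g`; take `l ∤ 2 disc(g)` (or: not dividing `2 R` where `u g + v g' = R`, `u, v ∈ ℤ[X]`, `R ≠ 0`
an integer) with `l ∣ g(t₀)`. Then `l ∤ g'(t₀)` and one of `g(t₀)`, `g(t₀ + l)` has valuation exactly `1`. -/
theorem exists_oddNorm (k : Type) [Field k] [NumberField k] : ∃ c : k, OddNorm k c := by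
  set pb : PowerBasis ℚ k := Field.powerBasisOfFiniteOfSeparable ℚ k
  set g : ℚ[X] := minpoly ℚ pb.gen with hg
  have hirr : Irreducible g := minpoly.irreducible (Algebra.IsIntegral.isIntegral pb.gen)
  obtain ⟨u, v, huv⟩ : IsCoprime g (derivative g) := hirr.separable
  obtain ⟨D, G, hD, hGD⟩ := c1_clear g
  obtain ⟨Du, U, hDu, hU⟩ := c1_clear u
  obtain ⟨Dv, V, hDv, hV⟩ := c1_clear v
  have hDQ : (D : ℚ) ≠ 0 := by exact_mod_cast hD
  -- the relation over the integers
  have hrel : ∀ t : ℤ, (Dv * U.eval t) * G.eval t + (Du * V.eval t) * (derivative G).eval t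
      = D * Du * Dv := by
    intro t
    have h1 : ∀ F : ℤ[X], ((F.eval t : ℤ) : ℚ) = (F.map (Int.castRingHom ℚ)).eval (t : ℚ) := by
      intro F
      rw [eval_intCast_map]
      rfl
    have h2 : (derivative G).map (Int.castRingHom ℚ) = C (D : ℚ) * derivative g := by
      rw [← derivative_map, hGD, derivative_mul, derivative_C, zero_mul, zero_add]
    have h3 := congrArg (eval (t : ℚ)) huv
    rw [eval_add, eval_mul, eval_mul, eval_one] at h3
    have h4 : (((Dv * U.eval t) * G.eval t + (Du * V.eval t) * (derivative G).eval t : ℤ) : ℚ)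
        = ((D * Du * Dv : ℤ) : ℚ) := by
      push_cast
      rw [h1 U, h1 G, h1 V, h1 (derivative G), hGD, hU, hV, h2]
      simp only [eval_mul, eval_C]
      linear_combination (D * Du * Dv : ℚ) * h3
    exact_mod_cast h4
  have hGdeg : 0 < G.natDegree := by
    have h1 : (G.map (Int.castRingHom ℚ)).natDegree = g.natDegree := by
      rw [hGD, natDegree_C_mul hDQ]
    have h2 : (G.map (Int.castRingHom ℚ)).natDegree ≤ G.natDegree := natDegree_map_le
    have h3 : 0 < g.natDegree := hirr.natDegree_pos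
    omega
  obtain ⟨l, t₀, hl, hlM, hlG⟩ := c1_prime G hGdeg (2 * (D * Du * Dv))
    (mul_ne_zero two_ne_zero (mul_ne_zero (mul_ne_zero hD hDu) hDv))
  have hlp : Prime (l : ℤ) := Nat.prime_iff_prime_int.1 hl
  have hl2 : l ≠ 2 := by
    rintro rfl
    exact hlM (Dvd.intro _ rfl)
  have hlR : ¬ (l : ℤ) ∣ D * Du * Dv := fun h => hlM (h.mul_left 2)
  have hlD : ¬ (l : ℤ) ∣ D := fun h => hlR ((h.mul_right Du).mul_right Dv)
  have hlG' : ¬ (l : ℤ) ∣ (derivative G).eval t₀ := by
    intro h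
    apply hlR
    rw [← hrel t₀]
    exact dvd_add (hlG.mul_left _) (h.mul_left _)
  -- an argument with valuation exactly one
  obtain ⟨t, w, htw, hlw⟩ : ∃ t w : ℤ, G.eval t = l * w ∧ ¬ (l : ℤ) ∣ w := by
    obtain ⟨w, hw⟩ := hlG
    by_cases hlw : (l : ℤ) ∣ w
    · obtain ⟨w', hw'⟩ := hlw
      obtain ⟨x, hx⟩ := binomExpansion G t₀ (l : ℤ)
      refine ⟨t₀ + l, (derivative G).eval t₀ + l * (w' + x), ?_, ?_⟩
      · rw [hx, hw, hw']
        ring
      · intro h
        apply hlG'
        exact (dvd_add_left (Dvd.intro _ rfl)).1 h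
    · exact ⟨t₀, w, hw, hlw⟩
  have hw0 : w ≠ 0 := by
    rintro rfl
    exact hlw (dvd_zero _)
  haveI : Fact l.Prime := ⟨hl⟩
  have hlQ : (l : ℚ) ≠ 0 := by exact_mod_cast hl.ne_zero
  have hwQ : (w : ℚ) ≠ 0 := by exact_mod_cast hw0
  have hN : Algebra.norm ℚ (algebraMap ℚ k (t : ℚ) - pb.gen) = (l : ℚ) * w / D := by
    rw [c1_norm, eq_div_iff hDQ, mul_comm, ← hg]
    have h1 : ((G.eval t : ℤ) : ℚ) = (G.map (Int.castRingHom ℚ)).eval (t : ℚ) := by
      rw [eval_intCast_map]
      rfl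
    rw [hGD, eval_mul, eval_C] at h1
    rw [← h1, htw]
    push_cast
    ring
  refine ⟨algebraMap ℚ k (t : ℚ) - pb.gen, ?_, l, hl, hl2, ?_⟩
  · intro h
    rw [h, Algebra.norm_zero] at hN
    have := div_ne_zero (mul_ne_zero hlQ hwQ) hDQ
    exact this hN.symm
  · rw [hN, padicValRat.div (mul_ne_zero hlQ hwQ) hDQ, padicValRat.mul hlQ hwQ,
      padicValRat.self hl.one_lt, padicValRat.of_int, padicValRat.of_int,
      padicValInt.eq_zero_of_not_dvd hlw, padicValInt.eq_zero_of_not_dvd hlD]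
    simp

end SEC
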