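import Pool.Agent.MP_c1dca2_ag.SEC.M7

set_option autoImplicit false

open Polynomial

namespace SEC

/-! ## [SEC-M8] the arithmetic output of a section and of a rational point (file M8.lean) -/

/-- The arithmetic data given by a section or a rational point of `y² = c f(x)`. -/
def Output (k : Type) [Field k] (c : k) (p q : ℕ) (D : Datum k) : Prop :=
  ∃ d : Fin D.r → k, (∀ i, d i ≠ 0) ∧ (∃ t : k, t ≠ 0 ∧ c * ∏ i, d i = t ^ 2) ∧
    ∀ i, ∀ t : Fin 3, t ≠ D.cl i →
      SolOver k ((aa p q t : ℕ) : k) ((aa p q (D.cl i) : ℕ) : k) (d i)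

variable {k K : Type} [Field k] [Field K] [Algebra k K]

/-- the degree of a factor is even -/
theorem fac_natDegree (p q : ℕ) (h3 : ∀ t, ¬ IsSquare ((aa p q t : ℕ) : k)) (D : Datum k)
    (i : Fin D.r) : (D.fac p q i).natDegree = 2 * D.n i := by
  have ha := h3 (D.cl i)
  set a : k := ((aa p q (D.cl i) : ℕ) : k) with hadef
  have key : ∀ u v : k, u ^ 2 - a * v ^ 2 = 0 → u = 0 ∧ v = 0 := by
    intro u v h
    have hv : v = 0 := by
      by_contra hv
      apply ha
      refine ⟨u / v, ?_⟩
      field_simp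
      linear_combination -h
    subst hv
    refine ⟨?_, rfl⟩
    rw [zero_pow two_ne_zero, mul_zero, sub_zero] at h
    exact pow_eq_zero_iff two_ne_zero |>.1 h
  have hcoeff : (D.fac p q i).coeff (2 * D.n i) =
      (D.A i).coeff (D.n i) ^ 2 - a * (D.B i).coeff (D.n i) ^ 2 := by
    have hA : (D.A i).natDegree ≤ D.n i := le_max_left _ _
    have hB : (D.B i).natDegree ≤ D.n i := le_max_right _ _
    rw [Datum.fac, coeff_sub, coeff_C_mul, two_mul, pow_two, pow_two,
      coeff_mul_add_eq_of_natDegree_le hA hA, coeff_mul_add_eq_of_natDegree_le hB hB, hadef]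
    ring
  apply le_antisymm
  · rw [Datum.fac]
    refine (natDegree_sub_le _ _).trans (max_le ?_ ?_)
    · refine natDegree_pow_le.trans ?_
      exact Nat.mul_le_mul_left 2 (le_max_left _ _)
    · refine (natDegree_C_mul_le _ _).trans (natDegree_pow_le.trans ?_)
      exact Nat.mul_le_mul_left 2 (le_max_right _ _)
  · rcases Nat.eq_zero_or_pos (D.n i) with h0 | h0
    · omega
    · apply le_natDegree_of_ne_zero
      rw [hcoeff]
      intro h
      obtain ⟨h1, h2⟩ := key _ _ h
      have hn : D.n i = max (D.A i).natDegree (D.B i).natDegree := rfl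
      rcases max_choice (D.A i).natDegree (D.B i).natDegree with h3 | h3
      · rw [hn, h3] at h1 h0
        have : (D.A i).leadingCoeff = 0 := h1
        rw [leadingCoeff_eq_zero] at this
        rw [this] at h0
        simp at h0
      · rw [hn, h3] at h2 h0
        have : (D.B i).leadingCoeff = 0 := h2
        rw [leadingCoeff_eq_zero] at this
        rw [this] at h0
        simp at h0

theorem m8_sq_cancel {a b : k} (h0 : a ≠ 0) (h : IsSquare (a * (a * b))) : IsSquare b := by
  obtain ⟨t, ht⟩ := h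
  refine ⟨t / a, ?_⟩
  field_simp
  linear_combination ht

theorem m8_prod (p q : ℕ) (h3 : ∀ t, ¬ IsSquare ((aa p q t : ℕ) : k)) (s t : Fin 3)
    (hst : s ≠ t) : ¬ IsSquare (((aa p q s : ℕ) : k) * ((aa p q t : ℕ) : k)) := by
  have hp : ¬ IsSquare (p : k) := h3 0
  have hq : ¬ IsSquare (q : k) := h3 1
  have hpq : ¬ IsSquare ((p : k) * (q : k)) := by
    have := h3 2
    simpa [aa] using this
  have hp0 : (p : k) ≠ 0 := by
    intro h0
    rw [h0] at hp
    exact hp IsSquare.zero
  have hq0 : (q : k) ≠ 0 := by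
    intro h0
    rw [h0] at hq
    exact hq IsSquare.zero
  have e0 : ((aa p q 0 : ℕ) : k) = (p : k) := rfl
  have e1 : ((aa p q 1 : ℕ) : k) = (q : k) := rfl
  have e2 : ((aa p q 2 : ℕ) : k) = (p : k) * (q : k) := by simp [aa]
  have c01 : ¬ IsSquare ((p : k) * (q : k)) := hpq
  have c02 : ¬ IsSquare ((p : k) * ((p : k) * (q : k))) := fun h => hq (m8_sq_cancel hp0 h)
  have c12 : ¬ IsSquare ((q : k) * ((p : k) * (q : k))) := by
    intro h
    rw [mul_comm (p : k) (q : k)] at h
    exact hp (m8_sq_cancel hq0 h)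
  fin_cases s <;> fin_cases t <;> simp only [Fin.zero_eta, Fin.mk_one, Fin.reduceFinMk, ne_eq,
    not_true_eq_false] at hst ⊢
  · rw [e0, e1]; exact c01
  · rw [e0, e2]; exact c02
  · rw [e0, e1, mul_comm]; exact c01
  · rw [e1, e2]; exact c12
  · rw [e0, e2, mul_comm]; exact c02
  · rw [e1, e2, mul_comm]; exact c12

/-- `exists_delta` for all factors, `prod_delta`, `sol_even` and `sol_odd` (choose `j` with
`D.cl j = t` and `D.n j` odd if `D.n i` is odd; the product of two different `a`'s is the third one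
up to a square). -/
theorem output_of_sect [CharZero k] (c : k) (hc : c ≠ 0) (p q : ℕ)
    (h3 : ∀ t, ¬ IsSquare ((aa p q t : ℕ) : k)) (D : Datum k) (hD : D.Good p q) (x y : K)
    (hx : Transcendental k x) (hxy : y ^ 2 = algebraMap k K c * aeval x (D.f p q))
    (s : Sect k K) : Output k c p q D := by
  have hdvd : ∀ i, D.fac p q i ∣ D.f p q := fun i => Finset.dvd_prod_of_mem _ (Finset.mem_univ i)
  have hev : ∀ i, Even (D.fac p q i).natDegree := by
    intro i
    rw [fac_natDegree p q h3 D i]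
    exact even_two_mul _
  choose u δ d hu0 hδ0 hd0 hu hδ h using fun i =>
    exists_delta (D.f p q) hD.sep c hc x y hx hxy s (D.fac p q i) (hdvd i) (hev i)
  refine ⟨d, hd0, ?_, ?_⟩
  · exact prod_delta D.r (D.fac p q) c hc x y hxy s u δ d hu0 hδ0 hu hδ h
  · intro i t hti
    rcases Nat.even_or_odd (D.n i) with hn | hn
    · exact sol_even (D.f p q) hD.sep c hc x y hx hxy s (D.A i) (D.B i) _ (h3 _) (hdvd i) hn
        (u i) (δ i) (d i) (hu0 i) (hδ0 i) (hu i) (hδ i) (h i) _
    · rcases hD.par with hall | hodd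
      · exact absurd (hall i) (Nat.not_even_iff_odd.2 hn)
      · obtain ⟨j, hj, hnj⟩ := hodd t
        subst hj
        exact sol_odd (D.f p q) hD.sep c hc x y hx hxy s (D.A i) (D.B i) (D.A j) (D.B j) _ _
          (h3 _) (h3 _) (m8_prod p q h3 _ _ (Ne.symm hti)) (hdvd i) (hdvd j) hn hnj
          (u i) (δ i) (d i) (hu0 i) (hδ0 i) (hu i) (hδ i) (h i)

end SEC
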