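import Pool.Agent.MP_c1dca2_ag.SEC.L1
import Pool.Agent.MP_c1dca2_ag.SEC.M8

set_option autoImplicit false

open Polynomial NumberField IsDedekindDomain

namespace SEC

/-! ## [SEC-L2] points in the completions (file L2.lean; uses L1) -/

/-- natural numbers are squares in the completions `ℝ`, `ℂ` -/
theorem sq_infinite (k : Type) [Field k] [NumberField k] (n : ℕ) (v : InfinitePlace k) :
    IsSquare ((n : ℕ) : v.Completion) := by
  rcases v.isReal_or_isComplex with hv | hv
  · let φ := InfinitePlace.Completion.ringEquivRealOfIsReal hv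
    refine ⟨φ.symm (√(n : ℝ)), ?_⟩
    rw [← map_mul, Real.mul_self_sqrt (Nat.cast_nonneg n), map_natCast]
  · let φ := InfinitePlace.Completion.ringEquivComplexOfIsComplex hv
    refine ⟨φ.symm ((√(n : ℝ) : ℝ) : ℂ), ?_⟩
    rw [← map_mul, ← Complex.ofReal_mul, Real.mul_self_sqrt (Nat.cast_nonneg n),
      Complex.ofReal_natCast, map_natCast]

theorem l2_point {k M : Type*} [Field k] [Field M] (φ : k →+* M) (c : k) (F : k[X]) (u w : k)
    (n : ℕ) (h : (X - C u) ^ 2 - C ((n : k) * w ^ 2) ∣ F) (hn : IsSquare (n : M)) :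
    ∃ X Y : M, Y ^ 2 = eval X ((C c * F).map φ) := by
  obtain ⟨e, he⟩ := hn
  obtain ⟨H, rfl⟩ := h
  refine ⟨φ u + φ w * e, 0, ?_⟩
  rw [Polynomial.map_mul, Polynomial.map_mul, Polynomial.map_sub, Polynomial.map_pow,
    Polynomial.map_sub, map_X, map_C, map_C, map_C, eval_mul, eval_mul, eval_sub, eval_pow,
    eval_sub, eval_X, eval_C, eval_C, eval_C, map_mul, map_pow, map_natCast, he]
  ring

/-- If `a_t = e²` in the completion then `u + w e` is a root of a factor of `f`; take `Y = 0`. -/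
theorem locally_soluble (k : Type) [Field k] [NumberField k] (c : k) (p q : ℕ) [Fact p.Prime]
    [Fact q.Prime] (hp : p % 8 = 1) (hq : q % 8 = 1) (hpq : legendreSym q p = 1)
    (D : Datum k) (hD : D.HasRoots p q) : LocallySoluble k (C c * D.f p q) := by
  have key : ∀ t : Fin 3, ∃ u w : k, (X - C u) ^ 2 - C (((aa p q t : ℕ) : k) * w ^ 2) ∣ D.f p q := by
    intro t
    obtain ⟨i, -, u, w, h⟩ := hD t
    exact ⟨u, w, h.trans (Finset.dvd_prod_of_mem _ (Finset.mem_univ i))⟩
  constructor
  · intro v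
    obtain ⟨t, ht⟩ := sq_finite k p q hp hq hpq v
    obtain ⟨u, w, h⟩ := key t
    exact l2_point _ c _ u w _ h ht
  · intro v
    obtain ⟨u, w, h⟩ := key 0
    exact l2_point _ c _ u w _ h (sq_infinite k _ v)

end SEC
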