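import Pool.Agent.MP_c1dca2_ag.SEC.Defs

set_option autoImplicit false

open Polynomial

namespace SEC

/-! ## [SEC-N1] the norm from `k` to `ℚ` (file N1.lean) -/

/-- the quadratic algebra `R[α]`, `α ^ 2 = a` -/
abbrev N1S (R : Type) [CommRing R] (a : R) : Type := QuadraticAlgebra R a 0

/-- for commuting matrices `P`, `Q`, `det (P ^ 2 - a Q ^ 2)` is of the form `u ^ 2 - a v ^ 2`
(`u + v α = det (P + α Q)`). -/
theorem n1_quad {R ι : Type} [CommRing R] [Fintype ι] [DecidableEq ι] (a : R)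
    (P Q : Matrix ι ι R) (h : P * Q = Q * P) :
    ∃ u v : R, u ^ 2 - a * v ^ 2 = (P * P - a • (Q * Q)).det := by
  obtain ⟨f, hf0⟩ : ∃ f : Matrix ι ι R →+* Matrix ι ι (N1S R a),
      f = (algebraMap R (N1S R a)).mapMatrix := ⟨_, rfl⟩
  obtain ⟨al, hal0⟩ : ∃ al : N1S R a, al = QuadraticAlgebra.omega := ⟨_, rfl⟩
  have hal : al * al = algebraMap R (N1S R a) a := by
    rw [hal0]
    ext <;> simp [QuadraticAlgebra.algebraMap_re, QuadraticAlgebra.algebraMap_im]
  obtain ⟨D, hD0⟩ : ∃ D : N1S R a, D = (f P + al • f Q).det := ⟨_, rfl⟩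
  have hstar : star D = (f P - al • f Q).det := by
    have h1 : star D = (starRingEnd (N1S R a)) D := rfl
    rw [h1, hD0, RingHom.map_det]
    congr 1
    rw [hf0, hal0]
    ext i j
    all_goals
      simp [QuadraticAlgebra.re_star, QuadraticAlgebra.im_star,
        QuadraticAlgebra.algebraMap_re, QuadraticAlgebra.algebraMap_im, starRingEnd_apply]
  have hmul : (f P + al • f Q) * (f P - al • f Q) = f (P * P - a • (Q * Q)) := by
    have hc : f P * f Q = f Q * f P := by rw [← map_mul, ← map_mul, h]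
    have hfs : ∀ M : Matrix ι ι R, f (a • M) = algebraMap R (N1S R a) a • f M := by
      intro M
      rw [hf0]
      ext i j
      all_goals simp [QuadraticAlgebra.algebraMap_re, QuadraticAlgebra.algebraMap_im]
    have hf : f (a • (Q * Q)) = (al * al) • (f Q * f Q) := by
      rw [hal, ← map_mul, hfs]
    rw [map_sub, hf, map_mul]
    rw [add_mul, mul_sub, mul_sub, Matrix.smul_mul, Matrix.smul_mul, Matrix.mul_smul,
      Matrix.mul_smul, smul_smul, hc]
    abel
  have hD : D * star D = algebraMap R (N1S R a) ((P * P - a • (Q * Q)).det) := by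
    rw [hstar, hD0, ← Matrix.det_mul, hmul, RingHom.map_det, hf0]
  refine ⟨D.re, D.im, ?_⟩
  have h2 := congrArg QuadraticAlgebra.re hD
  simp [QuadraticAlgebra.re_star, QuadraticAlgebra.im_star] at h2
  rw [← h2]
  ring

section

variable (k : Type) [Field k] [NumberField k] (R : Type) [CommRing R] [Algebra ℚ R]

/-- the regular representation of `k` over `R` -/
noncomputable def n1L : k →+* Matrix (Module.Free.ChooseBasisIndex ℚ k)
    (Module.Free.ChooseBasisIndex ℚ k) R :=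
  (algebraMap ℚ R).mapMatrix.comp
    (Algebra.leftMulMatrix (Module.Free.chooseBasis ℚ k)).toRingHom

theorem n1L_det (x : k) : (n1L k R x).det = algebraMap ℚ R (Algebra.norm ℚ x) := by
  rw [Algebra.norm_eq_matrix_det (Module.Free.chooseBasis ℚ k), RingHom.map_det]
  rfl

theorem n1L_smul (c : ℚ) (x : k) :
    n1L k R (algebraMap ℚ k c * x) = algebraMap ℚ R c • n1L k R x := by
  have h1 : algebraMap ℚ k c * x = c • x := (Algebra.smul_def c x).symm
  rw [h1]
  show (algebraMap ℚ R).mapMatrix (Algebra.leftMulMatrix (Module.Free.chooseBasis ℚ k) (c • x)) =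
    algebraMap ℚ R c • (algebraMap ℚ R).mapMatrix
      (Algebra.leftMulMatrix (Module.Free.chooseBasis ℚ k) x)
  rw [map_smul]
  ext i j
  simp

/-- the matrix of `x0 + x1 w` -/
noncomputable def n1M (w : R) (x0 x1 : k) : Matrix (Module.Free.ChooseBasisIndex ℚ k)
    (Module.Free.ChooseBasisIndex ℚ k) R := n1L k R x0 + w • n1L k R x1

theorem n1M_mul {b : ℚ} {w : R} (hw : w * w = algebraMap ℚ R b) (x0 x1 y0 y1 : k) :
    n1M k R w x0 x1 * n1M k R w y0 y1 =
      n1M k R w (x0 * y0 + algebraMap ℚ k b * (x1 * y1)) (x0 * y1 + x1 * y0) := by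
  unfold n1M
  rw [map_add, map_add, n1L_smul, map_mul, map_mul, map_mul, map_mul, ← hw]
  rw [add_mul, mul_add, mul_add, Matrix.smul_mul, Matrix.smul_mul, Matrix.mul_smul,
      Matrix.mul_smul, smul_smul, smul_add]
  abel

theorem n1M_smul {w : R} (c : ℚ) (x0 x1 : k) :
    n1M k R w (algebraMap ℚ k c * x0) (algebraMap ℚ k c * x1) =
      algebraMap ℚ R c • n1M k R w x0 x1 := by
  unfold n1M
  rw [n1L_smul, n1L_smul, smul_add, smul_smul, smul_smul, mul_comm]

theorem n1M_sub {w : R} (x0 x1 y0 y1 : k) :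
    n1M k R w x0 x1 - n1M k R w y0 y1 = n1M k R w (x0 - y0) (x1 - y1) := by
  unfold n1M
  rw [map_sub, map_sub, smul_sub]
  abel

theorem n1L_mul_n1M {w : R} (d x0 x1 : k) :
    n1L k R d * n1M k R w x0 x1 = n1M k R w (d * x0) (d * x1) := by
  unfold n1M
  rw [map_mul, map_mul, mul_add, Matrix.mul_smul]

end

/-- Sketch. Let `S₀ = ℚ[α, β] / (α² - a, β² - b)` (free with basis `1, α, β, α β`), `S = S₀ ⊗ k` (free over `S₀` of
rank `[k : ℚ]`), `ε = X0 + X1 β + (Y0 + Y1 β) α`, `ε̄ = X0 + X1 β - (Y0 + Y1 β) α`, `z = z0 + z1 β` in `S`: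
`ε ε̄ = d z²`. Take the norm `N : S → S₀`: `N(d) = N_{k/ℚ}(d)`, `N(z) ∈ ℚ[β]`, `N(ε̄)` is the conjugate of `N(ε)`
under `α ↦ - α` (the matrix of multiplication by `ε` in a `ℚ`-basis of `k` has entries in `S₀`; the entries
for `ε̄` are the conjugates). Write `N(ε) = X0' + X1' β + (Y0' + Y1' β) α`. `N(z) ≠ 0` because `z` is invertible:
`k[β]` is a field (`b` is not a square in `k`). Alternatively: products over the embeddings `k → ℂ` of
`σ X0 + σ X1 β₀ + (σ Y0 + σ Y1 β₀) α₀` and Galois invariance. -/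
theorem sol_norm (k : Type) [Field k] [NumberField k] (a b : ℚ) (d : k)
    (hb : ¬ IsSquare (algebraMap ℚ k b))
    (h : SolOver k (algebraMap ℚ k b) (algebraMap ℚ k a) d) :
    SolOver ℚ b a (Algebra.norm ℚ d) := by
  obtain ⟨X0, X1, Y0, Y1, z0, z1, hz, h1, h2⟩ := h
  obtain ⟨w, hw0⟩ : ∃ w : N1S ℚ b, w = QuadraticAlgebra.omega := ⟨_, rfl⟩
  have hw : w * w = algebraMap ℚ (N1S ℚ b) b := by
    rw [hw0]
    ext <;> simp [QuadraticAlgebra.algebraMap_re, QuadraticAlgebra.algebraMap_im]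
  have hcomm : n1M k (N1S ℚ b) w X0 X1 * n1M k (N1S ℚ b) w Y0 Y1 = n1M k (N1S ℚ b) w Y0 Y1 * n1M k (N1S ℚ b) w X0 X1 := by
    rw [n1M_mul k (N1S ℚ b) hw, n1M_mul k (N1S ℚ b) hw]
    congr 1
    · ring
    · ring
  obtain ⟨u, v, huv⟩ := n1_quad (algebraMap ℚ (N1S ℚ b) a) _ _ hcomm
  have hmat : n1M k (N1S ℚ b) w X0 X1 * n1M k (N1S ℚ b) w X0 X1 -
      algebraMap ℚ (N1S ℚ b) a • (n1M k (N1S ℚ b) w Y0 Y1 * n1M k (N1S ℚ b) w Y0 Y1) =
      n1L k (N1S ℚ b) d * (n1M k (N1S ℚ b) w z0 z1 * n1M k (N1S ℚ b) w z0 z1) := by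
    rw [n1M_mul k (N1S ℚ b) hw, n1M_mul k (N1S ℚ b) hw, n1M_mul k (N1S ℚ b) hw, ← n1M_smul, n1M_sub, n1L_mul_n1M]
    congr 1
    · linear_combination h1
    · linear_combination 2 * h2
  rw [hmat, Matrix.det_mul, Matrix.det_mul, n1L_det] at huv
  -- nonvanishing
  have hN : (n1M k (N1S ℚ b) w z0 z1).det ≠ 0 := by
    intro h0
    have h3 : n1M k (N1S ℚ b) w z0 z1 * n1M k (N1S ℚ b) w z0 (-z1) =
        n1L k (N1S ℚ b) (z0 ^ 2 - algebraMap ℚ k b * z1 ^ 2) := by
      rw [n1M_mul k (N1S ℚ b) hw]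
      unfold n1M
      have e1 : z0 * -z1 + z1 * z0 = 0 := by ring
      have e2 : z0 * z0 + algebraMap ℚ k b * (z1 * -z1) = z0 ^ 2 - algebraMap ℚ k b * z1 ^ 2 := by
        ring
      rw [e1, e2, map_zero, smul_zero, add_zero]
    have h4 := congrArg Matrix.det h3
    rw [Matrix.det_mul, h0, zero_mul, n1L_det] at h4
    have h5 : Algebra.norm ℚ (z0 ^ 2 - algebraMap ℚ k b * z1 ^ 2) = 0 := by
      have := congrArg QuadraticAlgebra.re h4
      simpa [QuadraticAlgebra.algebraMap_re] using this.symm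
    rw [Algebra.norm_eq_zero_iff] at h5
    by_cases hz1 : z1 = 0
    · rw [hz1] at h5
      have : z0 = 0 := by
        have : z0 ^ 2 = 0 := by linear_combination h5
        exact pow_eq_zero_iff (two_ne_zero) |>.1 this
      rcases hz with h | h
      · exact h this
      · exact h hz1
    · apply hb
      refine ⟨z0 / z1, ?_⟩
      field_simp
      linear_combination -h5
  obtain ⟨t, ht⟩ : ∃ t : N1S ℚ b, t = (n1M k (N1S ℚ b) w z0 z1).det := ⟨_, rfl⟩
  rw [← ht] at huv hN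
  have hre := congrArg QuadraticAlgebra.re huv
  have him := congrArg QuadraticAlgebra.im huv
  simp [pow_two, QuadraticAlgebra.algebraMap_re, QuadraticAlgebra.algebraMap_im] at hre him
  refine ⟨u.re, u.im, v.re, v.im, t.re, t.im, ?_, ?_, ?_⟩
  · by_contra hcon
    rw [not_or, not_not, not_not] at hcon
    apply hN
    ext
    · exact hcon.1
    · exact hcon.2
  · linear_combination hre
  · linear_combination him / 2

end SEC
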