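import Pool.Agent.MP_c1dca2_ag.SEC.Defs

set_option autoImplicit false

open Polynomial

namespace SEC

/-! ## [SEC-N3] parity of the number of non-residue prime factors (file N3.lean) -/

/-- the Legendre symbol of a natural number -/
theorem n3_prod (q : ℕ) [Fact q.Prime] (n : ℕ) (hn : n ≠ 0) :
    legendreSym q (n : ℤ) =
      ∏ l ∈ n.primeFactors, legendreSym q (l : ℤ) ^ padicValNat l n := by
  have h1 : (n : ℤ) = ∏ l ∈ n.primeFactors, (l : ℤ) ^ padicValNat l n := by
    have h2 := Nat.prod_primeFactors_pow_factorization hn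
    have h3 : ∏ l ∈ n.primeFactors, l ^ n.factorization l =
        ∏ l ∈ n.primeFactors, l ^ padicValNat l n := by
      apply Finset.prod_congr rfl
      intro l hl
      rw [Nat.factorization_def n (Nat.prime_of_mem_primeFactors hl)]
    rw [h3] at h2
    exact_mod_cast h2
  have h4 : legendreSym q (n : ℤ) = legendreSym.hom q (n : ℤ) := rfl
  rw [h4, h1, map_prod]
  apply Finset.prod_congr rfl
  intro l _
  rw [map_pow]
  rfl

theorem n3_neg_one (q : ℕ) [Fact q.Prime] (hq : q % 8 = 1) : legendreSym q (-1) = 1 := by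
  have hq2 : q ≠ 2 := by
    rintro rfl
    norm_num at hq
  rw [legendreSym.at_neg_one hq2, ZMod.χ₄_nat_one_mod_four (by omega)]

theorem n3_two (q : ℕ) [Fact q.Prime] (hq : q % 8 = 1) : legendreSym q 2 = 1 := by
  have hq2 : q ≠ 2 := by
    rintro rfl
    norm_num at hq
  rw [legendreSym.at_two hq2, ZMod.χ₈_nat_eq_if_mod_eight]
  have h2 : q % 2 ≠ 0 := by omega
  simp [h2, hq]

/-- a `q`-adic unit integer which is a square in `ℚ_q` is a residue modulo `q` -/
theorem n3_residue (q : ℕ) [Fact q.Prime] (m : ℤ) (hm : ((m : ℤ) : ZMod q) ≠ 0)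
    (Y : ℚ_[q]) (hY : ((m : ℤ) : ℚ_[q]) = Y * Y) : legendreSym q m = 1 := by
  rw [legendreSym.eq_one_iff q hm]
  have hn : ‖Y‖ ≤ 1 := by
    have h1 : ‖((m : ℤ) : ℚ_[q])‖ ≤ 1 := Padic.norm_int_le_one m
    rw [hY, norm_mul] at h1
    nlinarith [norm_nonneg Y]
  obtain ⟨Z, hZ⟩ : ∃ Z : ℤ_[q], (Z : ℚ_[q]) = Y := ⟨⟨Y, hn⟩, rfl⟩
  have h2 : ((m : ℤ) : ℤ_[q]) = Z * Z := by
    apply PadicInt.ext
    push_cast
    rw [hZ]
    exact hY
  refine ⟨PadicInt.toZMod Z, ?_⟩
  rw [← map_mul, ← h2, map_intCast]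

/-- `q ≡ 1 mod 8`: `-1` and `2` are squares modulo `q`. `D = ± 2^e q^v ∏_{l ∈ T} l^{v_l(D)}`; the unit part
`D q^{-v}` is a square in `ℚ_q`, hence a square in `ℤ_q^×`, hence its reduction modulo `q` is a nonzero
square. So `∏_{l ∈ T} (l / q)^{v_l(D)} = 1`. -/
theorem parity (q : ℕ) [Fact q.Prime] (hq : q % 8 = 1) (D : ℚ) (hD : D ≠ 0)
    (h : IsSquare ((D : ℚ_[q]) * (q : ℚ_[q]) ^ (-padicValRat q D))) (T : Finset ℕ)
    (hT : ∀ l ∈ T, l.Prime ∧ l ≠ 2 ∧ l ≠ q)
    (hsupp : ∀ l : ℕ, l.Prime → l ≠ 2 → l ≠ q → padicValRat l D ≠ 0 → l ∈ T) :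
    Even (∑ l ∈ T.filter (fun l : ℕ => legendreSym q (l : ℤ) = -1), padicValRat l D) := by
  have hqp : q.Prime := Fact.out
  have hqQ : (q : ℚ_[q]) ≠ 0 := by exact_mod_cast hqp.ne_zero
  have hnum : D.num ≠ 0 := Rat.num_ne_zero.2 hD
  have hden : D.den ≠ 0 := D.den_ne_zero
  have hdenQ : ((D.den : ℕ) : ℚ_[q]) ≠ 0 := by exact_mod_cast hden
  have hnumN : D.num.natAbs ≠ 0 := Int.natAbs_ne_zero.2 hnum
  -- the valuations
  have hval : ∀ l : ℕ, l.Prime → padicValRat l D =
      (padicValNat l D.num.natAbs : ℤ) - padicValNat l D.den := fun l _ => rfl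
  -- the part of `num * den` prime to `q`
  obtain ⟨n', hn'0, hn'⟩ : ∃ n' : ℕ, ¬ q ∣ n' ∧
      D.num.natAbs * D.den = q ^ padicValNat q (D.num.natAbs * D.den) * n' := by
    obtain ⟨n', hn'⟩ := (pow_padicValNat_dvd (p := q) (n := D.num.natAbs * D.den))
    refine ⟨n', ?_, hn'⟩
    intro hdvd
    obtain ⟨m, hm⟩ := hdvd
    have h1 : q ^ (padicValNat q (D.num.natAbs * D.den) + 1) ∣ D.num.natAbs * D.den := by
      refine ⟨m, ?_⟩
      rw [pow_succ, mul_assoc, ← hm]
      exact hn'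
    exact pow_succ_padicValNat_not_dvd (mul_ne_zero hnumN hden) h1
  have hn'ne : n' ≠ 0 := by
    rintro rfl
    exact hn'0 (dvd_zero q)
  have hwq : padicValNat q (D.num.natAbs * D.den) =
      padicValNat q D.num.natAbs + padicValNat q D.den := padicValNat.mul hnumN hden
  have hvl : ∀ l : ℕ, l.Prime → l ≠ q →
      (padicValNat l n' : ℤ) = padicValRat l D + 2 * padicValNat l D.den := by
    intro l hl hlq
    have : Fact l.Prime := ⟨hl⟩
    have h1 : padicValNat l (D.num.natAbs * D.den) =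
        padicValNat l D.num.natAbs + padicValNat l D.den := padicValNat.mul hnumN hden
    have h2 : padicValNat l (q ^ padicValNat q (D.num.natAbs * D.den) * n') =
        padicValNat l n' := by
      rw [padicValNat.mul (pow_ne_zero _ hqp.ne_zero) hn'ne, padicValNat.pow _ _,
        (padicValNat_primes hlq)]
      simp
    rw [← hn', h1] at h2
    rw [hval l hl, ← h2]
    push_cast
    ring
  -- the Legendre symbol of `n'`
  have hleg : legendreSym q (n' : ℤ) = 1 := by
    obtain ⟨y, hy⟩ := h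
    have hDQ : (D : ℚ_[q]) = ((D.num : ℤ) : ℚ_[q]) / ((D.den : ℕ) : ℚ_[q]) := by
      conv_lhs => rw [← Rat.num_div_den D]
      push_cast
      rfl
    have hsign : ∃ ε : ℤ, (ε = 1 ∨ ε = -1) ∧ D.num = ε * (D.num.natAbs : ℤ) := by
      rcases Int.natAbs_eq D.num with h1 | h1
      · exact ⟨1, Or.inl rfl, by rw [one_mul]; exact h1⟩
      · exact ⟨-1, Or.inr rfl, by rw [neg_one_mul]; exact h1⟩
    obtain ⟨ε, hε, hnumε⟩ := hsign
    have hcast : ((D.num : ℤ) : ℚ_[q]) * ((D.den : ℕ) : ℚ_[q]) =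
        (ε : ℚ_[q]) * ((q : ℚ_[q]) ^ padicValNat q (D.num.natAbs * D.den) * (n' : ℚ_[q])) := by
      have h1 : ((D.num.natAbs * D.den : ℕ) : ℚ_[q]) =
          ((q ^ padicValNat q (D.num.natAbs * D.den) * n' : ℕ) : ℚ_[q]) := by rw [← hn']
      have h2 : ((D.num : ℤ) : ℚ_[q]) = (ε : ℚ_[q]) * ((D.num.natAbs : ℕ) : ℚ_[q]) := by
        have h3 := congrArg (fun z : ℤ => (z : ℚ_[q])) hnumε
        simp only [Int.cast_mul, Int.cast_natCast] at h3
        exact h3
      rw [h2, mul_assoc]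
      push_cast at h1
      rw [h1]
    have hY : (((ε * n' : ℤ)) : ℚ_[q]) =
        (y * ((D.den : ℕ) : ℚ_[q]) * ((q : ℚ_[q]) ^ padicValNat q D.den)⁻¹) *
        (y * ((D.den : ℕ) : ℚ_[q]) * ((q : ℚ_[q]) ^ padicValNat q D.den)⁻¹) := by
      have h1 : (y * ((D.den : ℕ) : ℚ_[q]) * ((q : ℚ_[q]) ^ padicValNat q D.den)⁻¹) *
          (y * ((D.den : ℕ) : ℚ_[q]) * ((q : ℚ_[q]) ^ padicValNat q D.den)⁻¹) =
          (y * y) * ((D.den : ℕ) : ℚ_[q]) * ((D.den : ℕ) : ℚ_[q]) *
            (((q : ℚ_[q]) ^ padicValNat q D.den)⁻¹ * ((q : ℚ_[q]) ^ padicValNat q D.den)⁻¹) := by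
        ring
      rw [h1, ← hy, hDQ, hval q hqp]
      have h2 : ((D.num : ℤ) : ℚ_[q]) / ((D.den : ℕ) : ℚ_[q]) *
          (q : ℚ_[q]) ^ (-((padicValNat q D.num.natAbs : ℤ) - padicValNat q D.den)) *
          ((D.den : ℕ) : ℚ_[q]) * ((D.den : ℕ) : ℚ_[q]) *
          (((q : ℚ_[q]) ^ padicValNat q D.den)⁻¹ * ((q : ℚ_[q]) ^ padicValNat q D.den)⁻¹) =
          (((D.num : ℤ) : ℚ_[q]) * ((D.den : ℕ) : ℚ_[q])) *
          ((q : ℚ_[q]) ^ (-((padicValNat q D.num.natAbs : ℤ) - padicValNat q D.den)) *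
          (((q : ℚ_[q]) ^ padicValNat q D.den)⁻¹ * ((q : ℚ_[q]) ^ padicValNat q D.den)⁻¹)) := by
        field_simp
      rw [h2, hcast, hwq, pow_add]
      have h3 : (q : ℚ_[q]) ^ (-((padicValNat q D.num.natAbs : ℤ) - padicValNat q D.den)) =
          (q : ℚ_[q]) ^ padicValNat q D.den * ((q : ℚ_[q]) ^ padicValNat q D.num.natAbs)⁻¹ := by
        rw [neg_sub, zpow_sub₀ hqQ, zpow_natCast, zpow_natCast]
        rfl
      rw [h3]
      push_cast
      field_simp
    have hmne : (((ε * n' : ℤ)) : ZMod q) ≠ 0 := by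
      rw [Ne, ZMod.intCast_zmod_eq_zero_iff_dvd]
      intro hdvd
      have h1 : (q : ℤ) ∣ (n' : ℤ) := by
        rcases hε with rfl | rfl
        · rwa [one_mul] at hdvd
        · rwa [neg_one_mul, dvd_neg] at hdvd
      exact hn'0 (by exact_mod_cast h1)
    have h4 := n3_residue q (ε * n') hmne _ hY
    rw [legendreSym.mul] at h4
    rcases hε with rfl | rfl
    · rwa [legendreSym.at_one, one_mul] at h4
    · rwa [n3_neg_one q hq, one_mul] at h4
  -- the factors
  have hres : ∀ l : ℕ, l.Prime → l ≠ q → ((l : ℤ) : ZMod q) ≠ 0 := by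
    intro l hl hlq
    rw [Ne, ZMod.intCast_zmod_eq_zero_iff_dvd]
    intro hdvd
    have h1 : q ∣ l := by exact_mod_cast hdvd
    exact hlq ((Nat.prime_dvd_prime_iff_eq hqp hl).1 h1).symm
  have hprod : ∏ l ∈ T, legendreSym q (l : ℤ) ^ padicValNat l n' = 1 := by
    have h1 : ∏ l ∈ n'.primeFactors ∪ T, legendreSym q (l : ℤ) ^ padicValNat l n' =
        ∏ l ∈ n'.primeFactors, legendreSym q (l : ℤ) ^ padicValNat l n' := by
      symm
      apply Finset.prod_subset Finset.subset_union_left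
      intro l hl hl'
      have hlp : l.Prime := by
        rcases Finset.mem_union.1 hl with h2 | h2
        · exact Nat.prime_of_mem_primeFactors h2
        · exact (hT l h2).1
      have h2 : ¬ l ∣ n' := by
        intro h3
        exact hl' (Nat.mem_primeFactors.2 ⟨hlp, h3, hn'ne⟩)
      rw [padicValNat.eq_zero_of_not_dvd h2, pow_zero]
    have h2 : ∏ l ∈ n'.primeFactors ∪ T, legendreSym q (l : ℤ) ^ padicValNat l n' =
        ∏ l ∈ T, legendreSym q (l : ℤ) ^ padicValNat l n' := by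
      symm
      apply Finset.prod_subset Finset.subset_union_right
      intro l hl hl'
      have hlF : l ∈ n'.primeFactors := by
        rcases Finset.mem_union.1 hl with h3 | h3
        · exact h3
        · exact absurd h3 hl'
      have hlp : l.Prime := Nat.prime_of_mem_primeFactors hlF
      have hlq : l ≠ q := by
        rintro rfl
        exact hn'0 (Nat.dvd_of_mem_primeFactors hlF)
      by_cases hl2 : l = 2
      · subst hl2
        rw [show ((2 : ℕ) : ℤ) = 2 from rfl, n3_two q hq, one_pow]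
      · have h3 : padicValRat l D = 0 := by
          by_contra h4
          exact hl' (hsupp l hlp hl2 hlq h4)
        have h4 := hvl l hlp hlq
        rw [h3, zero_add] at h4
        have h5 : padicValNat l n' = 2 * padicValNat l D.den := by exact_mod_cast h4
        rw [h5, pow_mul, legendreSym.sq_one q (hres l hlp hlq), one_pow]
    rw [← h2, h1, ← n3_prod q n' hn'ne, hleg]
  have hprod2 : ∏ l ∈ T, legendreSym q (l : ℤ) ^ padicValNat l n' =
      (-1) ^ ∑ l ∈ T.filter (fun l : ℕ => legendreSym q (l : ℤ) = -1), padicValNat l n' := by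
    rw [← Finset.prod_pow_eq_pow_sum, Finset.prod_filter]
    apply Finset.prod_congr rfl
    intro l hl
    obtain ⟨hlp, _, hlq⟩ := hT l hl
    rcases legendreSym.eq_one_or_neg_one q (hres l hlp hlq) with h1 | h1
    · rw [h1, one_pow, if_neg (by norm_num)]
    · rw [h1, if_pos rfl]
  have heven : Even (∑ l ∈ T.filter (fun l : ℕ => legendreSym q (l : ℤ) = -1),
      padicValNat l n') := by
    rw [hprod] at hprod2
    exact (neg_one_pow_eq_one_iff_even (R := ℤ) (by norm_num)).1 hprod2.symm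
  have hsum : ∑ l ∈ T.filter (fun l : ℕ => legendreSym q (l : ℤ) = -1), padicValRat l D =
      ((∑ l ∈ T.filter (fun l : ℕ => legendreSym q (l : ℤ) = -1), padicValNat l n' : ℕ) : ℤ) -
        2 * ∑ l ∈ T.filter (fun l : ℕ => legendreSym q (l : ℤ) = -1),
          (padicValNat l D.den : ℤ) := by
    rw [Nat.cast_sum, Finset.mul_sum, ← Finset.sum_sub_distrib]
    apply Finset.sum_congr rfl
    intro l hl
    obtain ⟨hlp, _, hlq⟩ := hT l (Finset.mem_filter.1 hl).1
    rw [hvl l hlp hlq]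
    ring
  rw [hsum]
  exact (by exact_mod_cast heven : Even (((∑ l ∈ T.filter
    (fun l : ℕ => legendreSym q (l : ℤ) = -1), padicValNat l n' : ℕ)) : ℤ)).sub
      (even_two_mul _)

end SEC
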