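import Pool.Agent.MP_c1dca2_ag.SEC.N2
import Pool.Agent.MP_c1dca2_ag.SEC.N3

set_option autoImplicit false

open Polynomial

namespace SEC

/-! ## [SEC-N4] the contradiction over `ℚ` (file N4.lean; uses N2, N3) -/

theorem n4_support (x : ℚ) : ∃ N : ℕ, ∀ l : ℕ, padicValRat l x ≠ 0 → l < N := by
  by_cases hx : x = 0
  · exact ⟨0, fun l h => absurd (by rw [hx, padicValRat.zero]) h⟩
  refine ⟨x.num.natAbs + x.den + 1, fun l h => ?_⟩
  by_contra hcon
  apply h
  have hnum : 0 < x.num.natAbs := Int.natAbs_pos.2 (Rat.num_ne_zero.2 hx)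
  have hden : 0 < x.den := x.den_pos
  rw [padicValRat_def, padicValInt.eq_zero_of_not_dvd, padicValNat.eq_zero_of_not_dvd]
  · simp
  · intro h1
    have := Nat.le_of_dvd hden h1
    omega
  · intro h1
    have h2 : l ∣ x.num.natAbs := Int.natCast_dvd.1 h1
    have := Nat.le_of_dvd hnum h2
    omega

theorem n4_prod (l : ℕ) [Fact l.Prime] {ι : Type} [DecidableEq ι] (s : Finset ι) (D : ι → ℚ)
    (hD : ∀ i, D i ≠ 0) : padicValRat l (∏ i ∈ s, D i) = ∑ i ∈ s, padicValRat l (D i) := by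
  induction s using Finset.induction with
  | empty => simp
  | insert a s ha ih =>
    rw [Finset.prod_insert ha, Finset.sum_insert ha,
      padicValRat.mul (hD a) (Finset.prod_ne_zero_iff.2 fun i _ => hD i), ih]

theorem n4_not_sq (l : ℕ) [Fact l.Prime] (x : ℚ) (hx : Odd (padicValRat l x)) : ¬ IsSquare x := by
  rintro ⟨y, rfl⟩
  by_cases hy : y = 0
  · rw [hy, mul_zero, padicValRat.zero] at hx
    exact absurd hx (by decide)
  · rw [padicValRat.mul hy hy] at hx
    exact (Int.not_even_iff_odd.2 hx) ⟨_, rfl⟩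

theorem n4_even (l : ℕ) [Fact l.Prime] (hl2 : l ≠ 2) (a b : ℕ) (hb : ¬ IsSquare (b : ℚ))
    (hbl : legendreSym l b = 1) (hal : legendreSym l a = -1) (D : ℚ) (hD : D ≠ 0)
    (h : SolOver ℚ (b : ℚ) (a : ℚ) D) : Even (padicValRat l D) := by
  have h1 : IsSquare ((b : ℚ) : ℚ_[l]) := by
    have := isSquare_padic l hl2 (b : ℤ) hbl
    rwa [Int.cast_natCast] at this
  have h2 := sol_local l (a : ℚ) (b : ℚ) D hb h1 h
  refine even_val l hl2 (a : ℤ) hal D hD ?_
  rwa [Int.cast_natCast]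

/-- For `d = D i`, put `W(d) = ∑ v_l(d)` over the primes `l` (`≠ 2, p, q`) with `(l/p) = (l/q) = -1`.
`W(D i)` is even:
* class `p` (`cl i = 0`): if `(l/p) = (p/l) = -1` then `q` or `p q` is a square in `ℚ_l`; `sol_local` and
  `even_val` (with `a = p`) give `v_l(D i)` even for all such `l`.
* class `q`: if `(l/q) = -1` then `p` or `p q` is a square in `ℚ_l`: `v_l(D i)` is even (`a = q`).
* class `p q`: if `(l/q) = -1` and `(l/p) = 1` then `p` is a square in `ℚ_l`, `v_l(D i)` is even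
  (`a = p q`); and `p` is a square in `ℚ_q`, so `sq_unit` (with `u = p`) and `parity` show that
  `∑_{(l/q) = -1} v_l(D i)` is even.
But `W(m)` is odd (only `l₀` contributes an odd number) and `m ∏ D i = t²`.
(`p, q ≡ 1 mod 8`, so all reciprocity signs are trivial and `2` is a square modulo `p`, `q`.) -/
theorem nt_main (p q : ℕ) [Fact p.Prime] [Fact q.Prime] (hp : p % 8 = 1) (hq : q % 8 = 1)
    (hpq : legendreSym q p = 1) (hne : p ≠ q) (r : ℕ) (cl : Fin r → Fin 3) (D : Fin r → ℚ)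
    (hD0 : ∀ i, D i ≠ 0) (m t : ℚ) (hm : m ≠ 0) (ht0 : t ≠ 0) (ht : m * ∏ i, D i = t ^ 2)
    (hsol : ∀ i, ∀ t : Fin 3, t ≠ cl i →
      SolOver ℚ ((aa p q t : ℕ) : ℚ) ((aa p q (cl i) : ℕ) : ℚ) (D i))
    (hmp : padicValRat p m = 0) (hmq : padicValRat q m = 0) (l₀ : ℕ) (hl₀ : l₀.Prime)
    (hl₀2 : l₀ ≠ 2) (hodd : Odd (padicValRat l₀ m)) (hl₀p : legendreSym p l₀ = -1)
    (hl₀q : legendreSym q l₀ = -1)
    (hl : ∀ l : ℕ, l.Prime → l ≠ 2 → l ≠ l₀ → Odd (padicValRat l m) →
      legendreSym q l = 1) : False := by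
  classical
  have hp4 : p % 4 = 1 := by omega
  have hq4 : q % 4 = 1 := by omega
  have hq2 : q ≠ 2 := by omega
  have hpp : p.Prime := Fact.out
  have hqp : q.Prime := Fact.out
  -- values of the valuations of `p`, `q`
  have hvpp : padicValRat p (p : ℚ) = 1 := padicValRat.self hpp.one_lt
  have hvpq : padicValRat p (q : ℚ) = 0 := by
    rw [padicValRat.of_nat, padicValNat.eq_zero_of_not_dvd]
    · rfl
    · intro h
      exact hne ((Nat.prime_dvd_prime_iff_eq hpp hqp).1 h)
  have hp0 : (p : ℚ) ≠ 0 := by exact_mod_cast hpp.ne_zero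
  have hq0 : (q : ℚ) ≠ 0 := by exact_mod_cast hqp.ne_zero
  have hnsp : ¬ IsSquare ((p : ℕ) : ℚ) := n4_not_sq p _ (by rw [hvpp]; decide)
  have hnspq : ¬ IsSquare ((p * q : ℕ) : ℚ) := n4_not_sq p _ (by
    rw [Nat.cast_mul, padicValRat.mul hp0 hq0, hvpp, hvpq]; decide)
  -- the finite set of primes
  choose N hN using fun i => n4_support (D i)
  obtain ⟨M, hM⟩ := n4_support m
  let T : Finset ℕ := (Finset.range (M + ∑ i, N i)).filter fun l => l.Prime ∧ l ≠ 2 ∧ l ≠ q
  have hTprop : ∀ l ∈ T, l.Prime ∧ l ≠ 2 ∧ l ≠ q := fun l hl => (Finset.mem_filter.1 hl).2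
  have hTD : ∀ i, ∀ l : ℕ, l.Prime → l ≠ 2 → l ≠ q → padicValRat l (D i) ≠ 0 → l ∈ T := by
    intro i l h1 h2 h3 h4
    refine Finset.mem_filter.2 ⟨Finset.mem_range.2 ?_, h1, h2, h3⟩
    have h5 := hN i l h4
    have h6 := Finset.single_le_sum (f := N) (fun i _ => Nat.zero_le (N i)) (Finset.mem_univ i)
    omega
  let S : Finset ℕ := T.filter fun l : ℕ => legendreSym q (l : ℤ) = -1 ∧ legendreSym p (l : ℤ) = -1
  have hS : ∀ l ∈ S, l.Prime ∧ l ≠ 2 ∧ l ≠ q ∧ legendreSym q (l : ℤ) = -1 ∧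
      legendreSym p (l : ℤ) = -1 := by
    intro l hl
    obtain ⟨h1, h2⟩ := Finset.mem_filter.1 hl
    obtain ⟨h3, h4, h5⟩ := hTprop l h1
    exact ⟨h3, h4, h5, h2⟩
  -- reciprocity
  have hrp : ∀ l : ℕ, ∀ _ : Fact l.Prime, l ≠ 2 → legendreSym l p = legendreSym p l :=
    fun l _ hl2 => legendreSym.quadratic_reciprocity_one_mod_four hp4 hl2
  have hrq : ∀ l : ℕ, ∀ _ : Fact l.Prime, l ≠ 2 → legendreSym l q = legendreSym q l :=
    fun l _ hl2 => legendreSym.quadratic_reciprocity_one_mod_four hq4 hl2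
  -- `W(D i)` is even
  have hW : ∀ i, Even (∑ l ∈ S, padicValRat l (D i)) := by
    intro i
    have hcl : cl i = 0 ∨ cl i = 1 ∨ cl i = 2 := by
      generalize cl i = c
      fin_cases c <;> simp
    rcases hcl with hc | hc | hc
    · refine Finset.even_sum _ fun l hl => ?_
      obtain ⟨h1, h2, h3, h4, h5⟩ := hS l hl
      have : Fact l.Prime := ⟨h1⟩
      have h6 := hsol i 2 (by rw [hc]; decide)
      rw [hc] at h6
      refine n4_even l h2 p (p * q) hnspq ?_ ?_ (D i) (hD0 i) h6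
      · rw [Nat.cast_mul, legendreSym.mul, hrp l ‹_› h2, hrq l ‹_› h2, h4, h5]
        decide
      · rw [hrp l ‹_› h2, h5]
    · refine Finset.even_sum _ fun l hl => ?_
      obtain ⟨h1, h2, h3, h4, h5⟩ := hS l hl
      have : Fact l.Prime := ⟨h1⟩
      have h6 := hsol i 2 (by rw [hc]; decide)
      rw [hc] at h6
      refine n4_even l h2 q (p * q) hnspq ?_ ?_ (D i) (hD0 i) h6
      · rw [Nat.cast_mul, legendreSym.mul, hrp l ‹_› h2, hrq l ‹_› h2, h4, h5]
        decide
      · rw [hrq l ‹_› h2, h4]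
    · have h6 := hsol i 0 (by rw [hc]; decide)
      rw [hc] at h6
      have h6' : SolOver ℚ ((p : ℕ) : ℚ) ((p * q : ℕ) : ℚ) (D i) := h6
      have hsqp : IsSquare (((p : ℕ) : ℚ) : ℚ_[q]) := by
        have := isSquare_padic q hq2 (p : ℤ) hpq
        rwa [Int.cast_natCast] at this
      have h7 := sol_local q ((p * q : ℕ) : ℚ) ((p : ℕ) : ℚ) (D i) hnsp hsqp h6'
      have h8 : IsSquare (((D i : ℚ) : ℚ_[q]) * (q : ℚ_[q]) ^ (-padicValRat q (D i))) := by
        refine sq_unit q hq4 (p : ℤ) hpq (D i) (hD0 i) ?_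
        have h9 : ((((q : ℤ) * (p : ℤ) : ℤ)) : ℚ) = ((p * q : ℕ) : ℚ) := by
          push_cast
          ring
        rw [h9]
        exact h7
      have h9 := parity q hq (D i) (hD0 i) h8 T hTprop (hTD i)
      have h10 := Finset.sum_filter_add_sum_filter_not
        (T.filter fun l : ℕ => legendreSym q (l : ℤ) = -1)
        (fun l : ℕ => legendreSym p (l : ℤ) = -1) (fun l => padicValRat l (D i))
      have h11 : Even (∑ l ∈ (T.filter fun l : ℕ => legendreSym q (l : ℤ) = -1).filter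
          (fun l : ℕ => ¬ legendreSym p (l : ℤ) = -1), padicValRat l (D i)) := by
        refine Finset.even_sum _ fun l hl => ?_
        obtain ⟨hl1, hl2⟩ := Finset.mem_filter.1 hl
        obtain ⟨hl3, hl4⟩ := Finset.mem_filter.1 hl1
        obtain ⟨g1, g2, g3⟩ := hTprop l hl3
        have : Fact l.Prime := ⟨g1⟩
        have hlp : l ≠ p := by
          rintro rfl
          rw [hpq] at hl4
          exact absurd hl4 (by decide)
        have hlp' : ((l : ℤ) : ZMod p) ≠ 0 := by
          rw [Int.cast_natCast, Ne, ZMod.natCast_eq_zero_iff]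
          intro h
          exact hlp ((Nat.prime_dvd_prime_iff_eq hpp g1).1 h).symm
        have g4 : legendreSym p (l : ℤ) = 1 :=
          (legendreSym.eq_one_or_neg_one p hlp').resolve_right hl2
        refine n4_even l g2 (p * q) p hnsp ?_ ?_ (D i) (hD0 i) h6'
        · rw [hrp l ‹_› g2, g4]
        · rw [Nat.cast_mul, legendreSym.mul, hrp l ‹_› g2, hrq l ‹_› g2, g4, hl4]
          decide
      have h12 : S = (T.filter fun l : ℕ => legendreSym q (l : ℤ) = -1).filter
          (fun l : ℕ => legendreSym p (l : ℤ) = -1) := by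
        rw [Finset.filter_filter]
      rw [h12]
      rw [← h10] at h9
      exact (Int.even_add.1 h9).2 h11
  -- the relation
  have hrel : ∀ l ∈ S, padicValRat l m + ∑ i, padicValRat l (D i) = 2 * padicValRat l t := by
    intro l hl
    have : Fact l.Prime := ⟨(hS l hl).1⟩
    have h1 := congrArg (padicValRat l) ht
    rw [padicValRat.mul hm (Finset.prod_ne_zero_iff.2 fun i _ => hD0 i), n4_prod l _ D hD0,
      padicValRat.pow] at h1
    exact_mod_cast h1
  have hsum : ∑ l ∈ S, padicValRat l m + ∑ i, ∑ l ∈ S, padicValRat l (D i) =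
      2 * ∑ l ∈ S, padicValRat l t := by
    rw [Finset.sum_comm, ← Finset.sum_add_distrib, Finset.mul_sum]
    exact Finset.sum_congr rfl hrel
  have hWs : Even (∑ i, ∑ l ∈ S, padicValRat l (D i)) := Finset.even_sum _ fun i _ => hW i
  have hWm : Even (∑ l ∈ S, padicValRat l m) := by
    have h1 : Even (∑ l ∈ S, padicValRat l m + ∑ i, ∑ l ∈ S, padicValRat l (D i)) := by
      rw [hsum]; exact even_two_mul _
    exact (Int.even_add.1 h1).2 hWs
  -- `W(m)` is odd
  have hl₀S : l₀ ∈ S := by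
    refine Finset.mem_filter.2 ⟨Finset.mem_filter.2 ⟨Finset.mem_range.2 ?_, hl₀, hl₀2, ?_⟩,
      hl₀q, hl₀p⟩
    · have h1 := hM l₀ (by
        intro h
        rw [h] at hodd
        exact absurd hodd (by decide))
      omega
    · rintro rfl
      have : legendreSym l₀ (l₀ : ℤ) = 0 := by
        rw [legendreSym.eq_zero_iff]
        simp
      rw [this] at hl₀q
      exact absurd hl₀q (by decide)
  rw [← Finset.add_sum_erase S _ hl₀S] at hWm
  have h1 : Even (∑ l ∈ S.erase l₀, padicValRat l m) := by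
    refine Finset.even_sum _ fun l hl' => ?_
    obtain ⟨g1, g2⟩ := Finset.mem_erase.1 hl'
    obtain ⟨g3, g4, g5, g6, g7⟩ := hS l g2
    by_contra hcon
    rw [Int.not_even_iff_odd] at hcon
    have h := hl l g3 g4 g1 hcon
    rw [g6] at h
    exact absurd h (by decide)
  exact (Int.not_even_iff_odd.2 hodd) ((Int.even_add.1 hWm).2 h1)

end SEC
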