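import Pool.Agent.MP_c1dca2_ag.SEC.Defs

set_option autoImplicit false

open Polynomial

namespace SEC

/-! ## [SEC-P1] choice of the primes by Dirichlet's theorem (file P1.lean) -/

/-- a prime in given residue classes modulo `8` and modulo the odd primes of `T` -/
theorem p1_dirichlet (T : Finset ℕ) (hT : ∀ l ∈ T, l.Prime ∧ l ≠ 2) (r : ℕ → ℕ)
    (hr : ∀ l ∈ T, Nat.Coprime (r l) l) (N : ℕ) :
    ∃ q : ℕ, N < q ∧ q.Prime ∧ q % 8 = 1 ∧ ∀ l ∈ T, q ≡ r l [MOD l] := by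
  classical
  have h8 : 8 ∉ T := fun h => by
    have := (hT 8 h).1
    revert this
    decide
  have hne : ∀ i ∈ insert 8 T, (id i : ℕ) ≠ 0 := by
    intro i hi
    rcases Finset.mem_insert.1 hi with rfl | hi
    · decide
    · exact (hT i hi).1.ne_zero
  have hodd8 : ∀ l ∈ T, Nat.Coprime 8 l := by
    intro l hl
    have h2 : Nat.Coprime 2 l :=
      (Nat.coprime_primes Nat.prime_two (hT l hl).1).2 (hT l hl).2.symm
    have : Nat.Coprime (2 ^ 3) l := Nat.Coprime.pow_left 3 h2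
    exact this
  have hpp : Set.Pairwise (↑(insert 8 T) : Set ℕ) (Function.onFun Nat.Coprime (id : ℕ → ℕ)) := by
    intro i hi j hj hij
    rw [Finset.mem_coe, Finset.mem_insert] at hi hj
    show Nat.Coprime i j
    rcases hi with rfl | hi
    · rcases hj with rfl | hj
      · exact absurd rfl hij
      · exact hodd8 j hj
    · rcases hj with rfl | hj
      · exact (hodd8 i hi).symm
      · exact (Nat.coprime_primes (hT i hi).1 (hT j hj).1).2 hij
  obtain ⟨k, hk⟩ := Nat.chineseRemainderOfFinset (fun l => if l = 8 then 1 else r l) id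
    (insert 8 T) hne hpp
  have hk8 : k ≡ 1 [MOD 8] := by
    have := hk 8 (Finset.mem_insert_self _ _)
    simpa using this
  have hkl : ∀ l ∈ T, k ≡ r l [MOD l] := by
    intro l hl
    have := hk l (Finset.mem_insert_of_mem hl)
    have hl8 : l ≠ 8 := fun h => h8 (h ▸ hl)
    simpa [hl8] using this
  have hcop : Nat.Coprime k (∏ l ∈ insert 8 T, l) := by
    apply Nat.Coprime.prod_right
    intro i hi
    rcases Finset.mem_insert.1 hi with rfl | hi
    · have h1 := hk8.gcd_eq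
      rw [Nat.Coprime, h1]
      rfl
    · have h1 := (hkl i hi).gcd_eq
      rw [Nat.Coprime, h1]
      exact hr i hi
  have hQ0 : (∏ l ∈ insert 8 T, l) ≠ 0 := Finset.prod_ne_zero_iff.2 hne
  have : NeZero (∏ l ∈ insert 8 T, l) := ⟨hQ0⟩
  have hunit : IsUnit ((k : ℕ) : ZMod (∏ l ∈ insert 8 T, l)) :=
    (ZMod.isUnit_iff_coprime _ _).2 hcop
  obtain ⟨q, hqN, hqp, hqk⟩ := Nat.forall_exists_prime_gt_and_eq_mod hunit N
  have hmod : q ≡ k [MOD (∏ l ∈ insert 8 T, l)] := (ZMod.natCast_eq_natCast_iff _ _ _).1 hqk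
  refine ⟨q, hqN, hqp, ?_, fun l hl => ?_⟩
  · have h1 : q ≡ k [MOD 8] :=
      hmod.of_dvd (Finset.dvd_prod_of_mem (fun l => l) (Finset.mem_insert_self 8 T))
    have h2 := h1.trans hk8
    exact h2
  · have h1 : q ≡ k [MOD l] :=
      hmod.of_dvd (Finset.dvd_prod_of_mem (fun l => l) (Finset.mem_insert_of_mem hl))
    exact h1.trans (hkl l hl)

theorem p1_nonres (l : ℕ) (hl : l.Prime) (hl2 : l ≠ 2) :
    ∃ r : ℕ, Nat.Coprime r l ∧ jacobiSym r l = -1 := by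
  have : Fact l.Prime := ⟨hl⟩
  obtain ⟨a, ha⟩ := FiniteField.exists_nonsquare (F := ZMod l)
    (by rwa [ZMod.ringChar_zmod_n])
  have hval : ((a.val : ℕ) : ZMod l) = a := ZMod.natCast_zmod_val a
  have ha0 : a ≠ 0 := fun h => ha (h ▸ IsSquare.zero)
  refine ⟨a.val, ?_, ?_⟩
  · rw [← ZMod.isUnit_iff_coprime, hval]
    exact ha0.isUnit
  · rw [← jacobiSym.legendreSym.to_jacobiSym, legendreSym.eq_neg_one_iff]
    rw [Int.cast_natCast, hval]
    exact ha

theorem p1_symm {l q : ℕ} (hl : l.Prime) (hl2 : l ≠ 2) (hq : q % 8 = 1) {r : ℕ}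
    (h : q ≡ r [MOD l]) : jacobiSym l q = jacobiSym r l := by
  have h4 : q % 4 = 1 := by omega
  rw [← jacobiSym.quadratic_reciprocity_one_mod_four h4 (hl.odd_of_ne_two hl2)]
  apply jacobiSym.mod_left'
  exact_mod_cast h

/-- Dirichlet's theorem (`Nat.forall_exists_prime_gt_and_eq_mod`), quadratic reciprocity and the
Chinese remainder theorem. -/
theorem exists_p (S : Finset ℕ) (hS : ∀ l ∈ S, l.Prime ∧ l ≠ 2) (N : ℕ) :
    ∃ p : ℕ, N < p ∧ p.Prime ∧ p % 8 = 1 ∧ ∀ l ∈ S, jacobiSym l p = -1 := by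
  classical
  choose! r hr1 hr2 using p1_nonres
  obtain ⟨q, h1, h2, h3, h4⟩ := p1_dirichlet S hS r
    (fun l hl => hr1 l (hS l hl).1 (hS l hl).2) N
  refine ⟨q, h1, h2, h3, fun l hl => ?_⟩
  rw [p1_symm (hS l hl).1 (hS l hl).2 h3 (h4 l hl)]
  exact hr2 l (hS l hl).1 (hS l hl).2

/-- The same with `q ≡ 1 mod p` in addition. -/
theorem exists_q (S : Finset ℕ) (hS : ∀ l ∈ S, l.Prime ∧ l ≠ 2) (l₀ : ℕ) (hl₀ : l₀ ∈ S)
    (p : ℕ) (hp : p.Prime) (hp8 : p % 8 = 1) (hpS : p ∉ S) (N : ℕ) :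
    ∃ q : ℕ, N < q ∧ q.Prime ∧ q % 8 = 1 ∧ jacobiSym p q = 1 ∧ jacobiSym l₀ q = -1 ∧
      ∀ l ∈ S, l ≠ l₀ → jacobiSym l q = 1 := by
  classical
  obtain ⟨r, hr1, hr2⟩ := p1_nonres l₀ (hS l₀ hl₀).1 (hS l₀ hl₀).2
  have hp2 : p ≠ 2 := by rintro rfl; omega
  have hpl : p ≠ l₀ := fun h => hpS (h ▸ hl₀)
  have hT : ∀ l ∈ insert p S, l.Prime ∧ l ≠ 2 := by
    intro l hl
    rcases Finset.mem_insert.1 hl with rfl | hl
    · exact ⟨hp, hp2⟩
    · exact hS l hl
  obtain ⟨q, h1, h2, h3, h4⟩ := p1_dirichlet (insert p S) hT (fun l => if l = l₀ then r else 1)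
    (fun l hl => by
      by_cases h : l = l₀
      · subst h; simpa using hr1
      · simp [h]) N
  refine ⟨q, h1, h2, h3, ?_, ?_, fun l hl hne => ?_⟩
  · have h5 := h4 p (Finset.mem_insert_self _ _)
    rw [if_neg hpl] at h5
    rw [p1_symm hp hp2 h3 h5]
    simp
  · have h5 := h4 l₀ (Finset.mem_insert_of_mem hl₀)
    rw [if_pos rfl] at h5
    rw [p1_symm (hS l₀ hl₀).1 (hS l₀ hl₀).2 h3 h5]
    exact hr2
  · have h5 := h4 l (Finset.mem_insert_of_mem hl)
    rw [if_neg hne] at h5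
    rw [p1_symm (hS l hl).1 (hS l hl).2 h3 h5]
    simp

end SEC
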