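import Pool.Agent.MP_c1dca2_ag.SEC.Defs

set_option autoImplicit false

open Polynomial

namespace SEC

/-! ## [SEC-P2] only finitely many primes are squares in `k` (file P2.lean) -/

theorem p2_mem_adjoin {k : Type} [Field k] [NumberField k] {x : k} {n : ℚ} (hx : x ^ 2 = (n : k))
    {y : k} (hy : y ∈ IntermediateField.adjoin ℚ {x}) : ∃ a b : ℚ, y = (a : k) + (b : k) * x := by
  have hint : IsIntegral ℚ x := Algebra.IsIntegral.isIntegral x
  have h1 : y ∈ (IntermediateField.adjoin ℚ {x}).toSubalgebra := hy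
  rw [IntermediateField.adjoin_simple_toSubalgebra_of_isAlgebraic hint.isAlgebraic] at h1
  clear hy
  induction h1 using Algebra.adjoin_induction with
  | mem z hz =>
    rw [Set.mem_singleton_iff.1 hz]
    exact ⟨0, 1, by simp⟩
  | algebraMap r => exact ⟨r, 0, by simp⟩
  | add u v _ _ hu hv =>
    obtain ⟨a, b, rfl⟩ := hu
    obtain ⟨c, d, rfl⟩ := hv
    exact ⟨a + c, b + d, by push_cast; ring⟩
  | mul u v _ _ hu hv =>
    obtain ⟨a, b, rfl⟩ := hu
    obtain ⟨c, d, rfl⟩ := hv
    exact ⟨a * c + b * d * n, a * d + b * c, by push_cast; linear_combination (b : k) * d * hx⟩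

theorem p2_isSquare_mul {k : Type} [Field k] [NumberField k] {x y : k} {n m : ℚ}
    (hx : x ^ 2 = (n : k)) (hy : y ^ 2 = (m : k)) (hn : ¬ IsSquare n) (hm : ¬ IsSquare m)
    (h : y ∈ IntermediateField.adjoin ℚ {x}) : IsSquare (n * m) := by
  obtain ⟨a, b, rfl⟩ := p2_mem_adjoin hx h
  by_cases hab : a * b = 0
  · rcases mul_eq_zero.1 hab with rfl | rfl
    · refine ⟨b * n, ?_⟩
      have h1 : ((b ^ 2 * n : ℚ) : k) = (m : k) := by
        rw [← hy]
        push_cast
        linear_combination (-(b : k) ^ 2) * hx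
      have h2 : b ^ 2 * n = m := by exact_mod_cast h1
      rw [← h2]; ring
    · exfalso
      apply hm
      refine ⟨a, ?_⟩
      have h1 : ((a ^ 2 : ℚ) : k) = (m : k) := by
        rw [← hy]
        push_cast
        ring
      have h2 : a ^ 2 = m := by exact_mod_cast h1
      rw [← h2]; ring
  · exfalso
    apply hn
    have h0 : (2 * (a * b) : k) ≠ 0 := by
      have : ((2 * (a * b) : ℚ) : k) ≠ 0 := by
        exact_mod_cast mul_ne_zero two_ne_zero hab
      push_cast at this
      exact this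
    have h1 : x = (((m - a ^ 2 - b ^ 2 * n) / (2 * (a * b)) : ℚ) : k) := by
      push_cast
      rw [eq_div_iff h0]
      linear_combination hy - (b : k) ^ 2 * hx
    refine ⟨(m - a ^ 2 - b ^ 2 * n) / (2 * (a * b)), ?_⟩
    have h2 : (((m - a ^ 2 - b ^ 2 * n) / (2 * (a * b)) *
        ((m - a ^ 2 - b ^ 2 * n) / (2 * (a * b))) : ℚ) : k) = (n : k) := by
      rw [← hx, Rat.cast_mul, ← h1]
      ring
    exact_mod_cast h2.symm

theorem p2_finite (k : Type) [Field k] [NumberField k] (S : Set ℕ)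
    (h1 : ∀ n ∈ S, IsSquare ((n : ℕ) : k)) (h2 : ∀ n ∈ S, ¬ IsSquare n)
    (h3 : ∀ n ∈ S, ∀ m ∈ S, IsSquare (n * m) → n = m) : S.Finite := by
  choose! r hr using h1
  have : Finite (IntermediateField ℚ k) :=
    Field.exists_primitive_element_iff_finite_intermediateField ℚ k |>.1
      ⟨inferInstance, Field.exists_primitive_element ℚ k⟩
  have hinj : Function.Injective
      (fun n : S => (IntermediateField.adjoin ℚ {r n} : IntermediateField ℚ k)) := by
    rintro ⟨n, hn⟩ ⟨m, hm⟩ hnm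
    simp only at hnm
    have hx : r n ^ 2 = ((n : ℚ) : k) := by
      rw [pow_two, ← hr n hn]
      push_cast
      rfl
    have hy : r m ^ 2 = ((m : ℚ) : k) := by
      rw [pow_two, ← hr m hm]
      push_cast
      rfl
    have hmem : r m ∈ IntermediateField.adjoin ℚ {r n} := by
      rw [hnm]
      exact IntermediateField.mem_adjoin_simple_self ℚ (r m)
    have h4 := p2_isSquare_mul hx hy (fun h => h2 n hn (Rat.isSquare_natCast_iff.1 h))
      (fun h => h2 m hm (Rat.isSquare_natCast_iff.1 h)) hmem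
    have h5 : IsSquare (n * m) := by
      rw [← Rat.isSquare_natCast_iff]
      push_cast
      exact h4
    exact Subtype.ext (h3 n hn m hm h5)
  have := Finite.of_injective _ hinj
  exact Set.toFinite S

/-- `p ↦ ℚ(√p)` is injective into the finite set of intermediate fields of `k / ℚ`. -/
theorem finite_sq (k : Type) [Field k] [NumberField k] :
    {p : ℕ | p.Prime ∧ IsSquare ((p : ℕ) : k)}.Finite := by
  refine p2_finite k _ (fun n hn => hn.2) (fun n hn h => ?_) (fun n hn m hm h => ?_)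
  · exact Irreducible.not_isSquare hn.1 h
  · obtain ⟨r, hr⟩ := h
    have h1 : n ∣ r := (hn.1.dvd_mul.1 (Dvd.intro m hr : n ∣ r * r)).elim id id
    obtain ⟨s, rfl⟩ := h1
    have h2 : m = n * (s * s) := by
      have h3 : n * m = n * (n * (s * s)) := by rw [hr]; ring
      exact Nat.eq_of_mul_eq_mul_left hn.1.pos h3
    have h4 : n ∣ m := ⟨_, h2⟩
    exact (Nat.prime_dvd_prime_iff_eq hn.1 hm.1).1 h4

theorem finite_sq_mul (k : Type) [Field k] [NumberField k] (p : ℕ) (hp : p.Prime) :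
    {q : ℕ | q.Prime ∧ IsSquare ((p * q : ℕ) : k)}.Finite := by
  have h1 : ((fun q => p * q) '' {q : ℕ | q.Prime ∧ IsSquare ((p * q : ℕ) : k) ∧ q ≠ p}).Finite := by
    refine p2_finite k _ ?_ ?_ ?_
    · rintro _ ⟨q, ⟨hq, hs, hne⟩, rfl⟩
      exact hs
    · rintro _ ⟨q, ⟨hq, hs, hne⟩, rfl⟩ ⟨r, hr⟩
      simp only at hr
      have h1 : p ∣ r := (hp.dvd_mul.1 (Dvd.intro q hr : p ∣ r * r)).elim id id
      obtain ⟨s, rfl⟩ := h1
      have h2 : q = p * (s * s) := by
        have h3 : p * q = p * (p * (s * s)) := by rw [hr]; ring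
        exact Nat.eq_of_mul_eq_mul_left hp.pos h3
      exact hne ((Nat.prime_dvd_prime_iff_eq hp hq).1 ⟨_, h2⟩).symm
    · rintro _ ⟨q, ⟨hq, hs, hne⟩, rfl⟩ _ ⟨q', ⟨hq', hs', hne'⟩, rfl⟩ ⟨r, hr⟩
      simp only at hr ⊢
      have h1 : p ∣ r := (hp.dvd_mul.1 (Dvd.intro (q * (p * q')) (by rw [← hr]; ring) : p ∣ r * r)).elim
        id id
      obtain ⟨s, rfl⟩ := h1
      have h2 : q * q' = s * s := by
        have h3 : p * p * (q * q') = p * p * (s * s) := by linarith
        exact Nat.eq_of_mul_eq_mul_left (Nat.mul_pos hp.pos hp.pos) h3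
      have h4 : q ∣ s := (hq.dvd_mul.1 (Dvd.intro q' h2 : q ∣ s * s)).elim id id
      obtain ⟨u, rfl⟩ := h4
      have h5 : q' = q * (u * u) := by
        have h3 : q * q' = q * (q * (u * u)) := by rw [h2]; ring
        exact Nat.eq_of_mul_eq_mul_left hq.pos h3
      rw [(Nat.prime_dvd_prime_iff_eq hq hq').1 ⟨_, h5⟩]
  have h2 : {q : ℕ | q.Prime ∧ IsSquare ((p * q : ℕ) : k) ∧ q ≠ p}.Finite :=
    Set.Finite.of_finite_image h1 (fun a _ b _ h => Nat.eq_of_mul_eq_mul_left hp.pos h)
  refine (h2.union (Set.finite_singleton p)).subset ?_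
  rintro q ⟨hq, hs⟩
  by_cases h : q = p
  · exact Or.inr h
  · exact Or.inl ⟨hq, hs, h⟩

end SEC
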