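import Pool.Agent.MP_c1dca2_ag.SEC.M8

set_option autoImplicit false

open Polynomial

namespace SEC

/-! ## [SEC-R] the arithmetic output of a rational point (file R.lean) -/

variable {k K : Type} [Field k] [Field K] [Algebra k K]

theorem r_aeval_mem (P : RatPlace k K) (z : K) (hz : z ∈ P.A) (g : k[X]) :
    aeval z g ∈ P.A := by
  rw [aeval_eq_sum_range]
  refine sum_mem fun i _ => ?_
  rw [Algebra.smul_def]
  exact mul_mem (P.alg _) (pow_mem hz _)

theorem r_const (P : RatPlace k K) (a : k) (h : P.A.valuation (algebraMap k K a) < 1) :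
    a = 0 := by
  by_contra ha
  have h1 : P.A.valuation (algebraMap k K a⁻¹) ≤ 1 :=
    (P.A.valuation_le_one_iff _).2 (P.alg _)
  have h2 : P.A.valuation (algebraMap k K a * algebraMap k K a⁻¹) < 1 := by
    rw [map_mul]
    exact mul_lt_one_of_lt_of_le h h1
  rw [← map_mul, mul_inv_cancel₀ ha, map_one, map_one] at h2
  exact lt_irrefl _ h2

theorem r_res (P : RatPlace k K) (z : K) (hz : z ∈ P.A) (z0 : k)
    (h0 : P.A.valuation (z - algebraMap k K z0) < 1) (g : k[X]) :
    P.A.valuation (aeval z g - algebraMap k K (g.eval z0)) < 1 := by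
  obtain ⟨h, hh⟩ := X_sub_C_dvd_sub_C_eval (a := z0) (p := g)
  have e : aeval z g - algebraMap k K (g.eval z0) =
      (z - algebraMap k K z0) * aeval z h := by
    have := congrArg (aeval z) hh
    simpa using this
  rw [e, map_mul]
  exact mul_lt_one_of_lt_of_le h0 ((P.A.valuation_le_one_iff _).2 (r_aeval_mem P z hz h))

/-- an element whose square is in `A` is in `A` -/
theorem r_sq_mem (P : RatPlace k K) (w : K) (h : w ^ 2 ∈ P.A) : w ∈ P.A := by
  rw [← P.A.valuation_le_one_iff] at h ⊢
  rw [map_pow] at h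
  by_contra hw
  rw [not_le] at hw
  exact absurd h (not_le.2 (one_lt_pow₀ hw two_ne_zero))

/-- `w² = b` residually gives a square root in `k` -/
theorem r_sqrt (P : RatPlace k K) (w v : K) (hwv : w ^ 2 = v) (b : k)
    (hv : P.A.valuation (v - algebraMap k K b) < 1) : ∃ t : k, b = t ^ 2 := by
  have hvA : v ∈ P.A := by
    have h1 : v - algebraMap k K b ∈ P.A := (P.A.valuation_le_one_iff _).1 hv.le
    have h2 := add_mem h1 (P.alg b)
    rwa [sub_add_cancel] at h2
  have hw : w ∈ P.A := r_sq_mem P w (hwv ▸ hvA)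
  obtain ⟨t, ht⟩ := P.rat w hw
  rw [ValuationSubring.mem_nonunits_iff] at ht
  refine ⟨t, ?_⟩
  have h3 : P.A.valuation (w ^ 2 - algebraMap k K (t ^ 2)) < 1 := by
    have := r_res P w hw t ht (X ^ 2)
    simpa using this
  have h4 : P.A.valuation (algebraMap k K (b - t ^ 2)) < 1 := by
    have e : algebraMap k K (b - t ^ 2) =
        (w ^ 2 - algebraMap k K (t ^ 2)) - (v - algebraMap k K b) := by
      rw [hwv, map_sub]; ring
    rw [e]
    exact lt_of_le_of_lt (Valuation.map_sub _ _ _) (max_lt h3 hv)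
  exact sub_eq_zero.1 (r_const P _ h4)

theorem r_solOver (b a X0 Y0 d : k) (h : X0 ^ 2 - a * Y0 ^ 2 = d) : SolOver k b a d := by
  refine ⟨X0, 0, Y0, 0, 1, 0, Or.inl one_ne_zero, ?_, ?_⟩
  · linear_combination h
  · ring

/-- `a² - a_i b² = 0` forces `a = b = 0` -/
theorem r_nonsq (a u v : k) (ha : ¬ IsSquare a) (h : u ^ 2 - a * v ^ 2 = 0) :
    u = 0 ∧ v = 0 := by
  have hv : v = 0 := by
    by_contra hv
    apply ha
    refine ⟨u / v, ?_⟩
    field_simp
    linear_combination -h
  subst hv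
  refine ⟨?_, rfl⟩
  simpa using h

/-- If `x ∈ P.A` let `x₀ ∈ k` be the residue of `x`; `y ∈ P.A` (integrally closed), `y₀` its residue:
`y₀² = c f(x₀)`; take `d_i = A_i(x₀)² - a_i B_i(x₀)²`, not `0` because `a_i` is not a square and
`(X - x₀)²` does not divide `f`. If `x ∉ P.A` then `y / x^(deg f / 2) ∈ P.A` has a residue `η` with
`η² = c · (leading coefficient of f)`; take for `d_i` the leading coefficients of the factors
(`a² - a_i b²` with `a`, `b` the coefficients of `A_i`, `B_i` at `D.n i`). In both cases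
`SolOver` holds with `X1 = Y1 = z1 = 0`, `z0 = 1`. -/
theorem output_of_place [CharZero k] (c : k) (hc : c ≠ 0) (p q : ℕ)
    (h3 : ∀ t, ¬ IsSquare ((aa p q t : ℕ) : k)) (D : Datum k) (hD : D.Good p q) (x y : K)
    (hx : Transcendental k x) (hxy : y ^ 2 = algebraMap k K c * aeval x (D.f p q))
    (P : RatPlace k K) : Output k c p q D := by
  have hf0 : D.f p q ≠ 0 := hD.sep.ne_zero
  have hfac0 : ∀ i, D.fac p q i ≠ 0 := by
    intro i h0
    apply hf0
    unfold Datum.f
    exact Finset.prod_eq_zero (Finset.mem_univ i) h0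
  have hdvd : ∀ i, D.fac p q i ∣ D.f p q := fun i =>
    Finset.dvd_prod_of_mem _ (Finset.mem_univ i)
  by_cases hxA : x ∈ P.A
  · -- finite case
    obtain ⟨x0, hx0⟩ := P.rat x hxA
    rw [ValuationSubring.mem_nonunits_iff] at hx0
    have hd : ∀ i, (D.A i).eval x0 ^ 2 - ((aa p q (D.cl i) : ℕ) : k) * (D.B i).eval x0 ^ 2 =
        (D.fac p q i).eval x0 := by
      intro i
      simp [Datum.fac]
    have hdne : ∀ i, (D.fac p q i).eval x0 ≠ 0 := by
      intro i h0
      obtain ⟨hA, hB⟩ := r_nonsq _ _ _ (h3 (D.cl i)) ((hd i).trans h0)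
      obtain ⟨A', hA'⟩ := dvd_iff_isRoot.2 (show (D.A i).IsRoot x0 from hA)
      obtain ⟨B', hB'⟩ := dvd_iff_isRoot.2 (show (D.B i).IsRoot x0 from hB)
      have h1 : (X - C x0) * (X - C x0) ∣ D.fac p q i := by
        refine ⟨A' ^ 2 - C ((aa p q (D.cl i) : ℕ) : k) * B' ^ 2, ?_⟩
        unfold Datum.fac
        rw [hA', hB']
        ring
      have h2 := hD.sep.squarefree (X - C x0) (h1.trans (hdvd i))
      exact not_isUnit_X_sub_C x0 h2
    have hy : ∃ t : k, c * (D.f p q).eval x0 = t ^ 2 := by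
      refine r_sqrt P y _ hxy _ ?_
      have := r_res P x hxA x0 hx0 (C c * D.f p q)
      simpa using this
    obtain ⟨t, ht⟩ := hy
    have hprod : (D.f p q).eval x0 = ∏ i, (D.fac p q i).eval x0 := by
      unfold Datum.f
      rw [eval_prod]
    refine ⟨fun i => (D.fac p q i).eval x0, hdne, ⟨t, ?_, ?_⟩, ?_⟩
    · rintro rfl
      rw [hprod] at ht
      have h1 : c * ∏ i, (D.fac p q i).eval x0 ≠ 0 :=
        mul_ne_zero hc (Finset.prod_ne_zero_iff.2 fun i _ => hdne i)
      exact h1 (by rw [ht]; ring)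
    · rw [← ht, hprod]
    · intro i t' _
      exact r_solOver _ _ _ _ _ (hd i)
  · -- infinite case
    have hx0 : x ≠ 0 := by
      rintro rfl
      exact hxA (zero_mem _)
    have hxv : 1 < P.A.valuation x := by
      rw [← not_le, P.A.valuation_le_one_iff]
      exact hxA
    have hxi : P.A.valuation (x⁻¹) < 1 := by
      rw [map_inv₀]
      exact inv_lt_one_of_one_lt₀ hxv
    have hxiA : x⁻¹ ∈ P.A := (P.A.valuation_le_one_iff _).1 hxi.le
    have hdeg : (D.f p q).natDegree = 2 * ∑ i, D.n i := by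
      unfold Datum.f
      rw [natDegree_prod _ _ (fun i _ => hfac0 i), Finset.mul_sum]
      exact Finset.sum_congr rfl fun i _ => fac_natDegree p q h3 D i
    have hd : ∀ i, (D.A i).coeff (D.n i) ^ 2 -
        ((aa p q (D.cl i) : ℕ) : k) * (D.B i).coeff (D.n i) ^ 2 =
        (D.fac p q i).leadingCoeff := by
      intro i
      rw [leadingCoeff, fac_natDegree p q h3 D i]
      unfold Datum.fac
      rw [coeff_sub, coeff_C_mul]
      have hA : (D.A i).natDegree ≤ D.n i := le_max_left _ _
      have hB : (D.B i).natDegree ≤ D.n i := le_max_right _ _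
      rw [coeff_pow_of_natDegree_le hA, coeff_pow_of_natDegree_le hB]
    set N : ℕ := ∑ i, D.n i with hN
    have hrev : aeval x⁻¹ (D.f p q).reverse * x ^ (2 * N) = aeval x (D.f p q) := by
      have hinv : Invertible x := invertibleOfNonzero hx0
      have := eval₂_reverse_mul_pow (algebraMap k K) x (D.f p q)
      rw [hdeg] at this
      rw [aeval_def, aeval_def, ← this, invOf_eq_inv]
    have hw : (y / x ^ N) ^ 2 = algebraMap k K c * aeval x⁻¹ (D.f p q).reverse := by
      rw [div_pow, hxy, ← hrev]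
      have : x ^ N ≠ 0 := pow_ne_zero _ hx0
      field_simp
      ring
    have hy : ∃ t : k, c * (D.f p q).leadingCoeff = t ^ 2 := by
      refine r_sqrt P _ _ hw _ ?_
      have := r_res P x⁻¹ hxiA 0 (by simpa using hxi) (C c * (D.f p q).reverse)
      have e : (C c * (D.f p q).reverse).eval 0 = c * (D.f p q).leadingCoeff := by
        rw [eval_mul, eval_C, ← coeff_zero_eq_eval_zero, coeff_zero_reverse]
      rw [e] at this
      simpa using this
    obtain ⟨t, ht⟩ := hy
    have hprod : (D.f p q).leadingCoeff = ∏ i, (D.fac p q i).leadingCoeff := by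
      unfold Datum.f
      rw [leadingCoeff_prod]
    have hdne : ∀ i, (D.fac p q i).leadingCoeff ≠ 0 := fun i =>
      leadingCoeff_ne_zero.2 (hfac0 i)
    refine ⟨fun i => (D.fac p q i).leadingCoeff, hdne, ⟨t, ?_, ?_⟩, ?_⟩
    · rintro rfl
      rw [hprod] at ht
      have h1 : c * ∏ i, (D.fac p q i).leadingCoeff ≠ 0 :=
        mul_ne_zero hc (Finset.prod_ne_zero_iff.2 fun i _ => hdne i)
      exact h1 (by rw [ht]; ring)
    · rw [← ht, hprod]
    · intro i t' _
      exact r_solOver _ _ _ _ _ (hd i)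

end SEC
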