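import Pool.Agent.MP_c1dca2_ag.SEC.M8

set_option autoImplicit false

open Polynomial

namespace SEC

/-! ## [SEC-Z1] Zariski density (file Z1.lean) -/

/-- the quadratic factor -/
noncomputable def z1_quad {A : Type} [CommRing A] (u v : A) : A[X] := (X - C u) ^ 2 - C v

theorem z1_quad_eq {A : Type} [CommRing A] (u v : A) :
    z1_quad u v = X ^ 2 + C (-2 * u) * X + C (u ^ 2 - v) := by
  unfold z1_quad
  simp only [map_sub, map_mul, map_neg, map_pow, map_ofNat]
  ring

theorem z1_quad_monic {A : Type} [CommRing A] [Nontrivial A] (u v : A) : (z1_quad u v).Monic := by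
  rw [z1_quad_eq]
  monicity!

theorem z1_quad_natDegree {A : Type} [CommRing A] [Nontrivial A] (u v : A) :
    (z1_quad u v).natDegree = 2 := by
  rw [z1_quad_eq]
  compute_degree!

theorem z1_quad_coeff_one {A : Type} [CommRing A] (u v : A) :
    (z1_quad u v).coeff 1 = -2 * u := by
  rw [z1_quad_eq]
  simp only [coeff_add, coeff_X_pow, coeff_C_mul, coeff_X_one, coeff_C]
  norm_num

theorem z1_quad_irred {k : Type} [Field k] {a u w : k} (ha : ¬ IsSquare a) (hw : w ≠ 0) :
    Irreducible (z1_quad u (a * w ^ 2)) := by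
  apply Polynomial.irreducible_of_degree_le_three_of_not_isRoot
  · rw [z1_quad_natDegree]; decide
  · intro x hx
    apply ha
    rw [Polynomial.IsRoot.def, z1_quad] at hx
    simp only [eval_sub, eval_pow, eval_X, eval_C] at hx
    refine ⟨(x - u) / w, ?_⟩
    field_simp
    linear_combination -hx

theorem z1_quad_sep {k : Type} [Field k] [CharZero k] {u v : k} (hv : v ≠ 0) :
    (z1_quad u v).Separable := by
  rw [Polynomial.separable_def]
  refine ⟨C (-(1 / v)), C (1 / (2 * v)) * (X - C u), ?_⟩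
  have h1 : derivative (z1_quad u v) = C 2 * (X - C u) := by
    unfold z1_quad
    simp [derivative_pow]
  rw [h1, z1_quad]
  have h2 : C (1 / (2 * v)) * C (2 : k) = C (1 / v) := by
    rw [← C_mul]; congr 1; field_simp
  have h3 : C (1 / v) * C v = (1 : k[X]) := by
    rw [← C_mul, one_div, inv_mul_cancel₀ hv, C_1]
  have h4 : (C (-(1 / v)) : k[X]) = - C (1 / v) := by rw [C_neg]
  rw [h4]
  linear_combination (X - C u) ^ 2 * h2 + h3

theorem z1_quad_coprime {k : Type} [Field k] [CharZero k] {a b u u' w w' : k} (ha : ¬ IsSquare a)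
    (hb : ¬ IsSquare b) (hw : w ≠ 0) (hw' : w' ≠ 0) (hu : u ≠ u') :
    IsCoprime (z1_quad u (a * w ^ 2)) (z1_quad u' (b * w' ^ 2)) := by
  rw [(z1_quad_irred ha hw).coprime_iff_not_dvd]
  intro h
  have h1 := (z1_quad_irred ha hw).associated_of_dvd (z1_quad_irred hb hw') h
  have h2 := Polynomial.eq_of_monic_of_associated (z1_quad_monic _ _) (z1_quad_monic _ _) h1
  have h3 := congrArg (fun F => coeff F 1) h2
  simp only [z1_quad_coeff_one] at h3
  apply hu
  have : (2 : k) ≠ 0 := two_ne_zero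
  apply mul_left_cancel₀ this
  linear_combination -h3

/-- The family: `r = g + 1` factors of classes `0, 1, 2, 2, …, 2`, `A_i = X - u_i`, `B_i = w_i` for `i > 0` and
`A_0 = λ (X - u_0)`, `B_0 = λ w_0`. It is good if `λ`, all `w_i` and all `u_i - u_j` (`i ≠ j`) are not `0`
(the roots of the factors are `u_i ± w_i √a_i`). -/
theorem family_good (k : Type) [Field k] [CharZero k] (p q : ℕ)
    (h3 : ∀ t, ¬ IsSquare ((aa p q t : ℕ) : k)) (g : ℕ) (hg : 2 ≤ g) (lam : k) (hl : lam ≠ 0)
    (u w : Fin (g + 1) → k) (hw : ∀ i, w i ≠ 0) (hu : ∀ i j, i ≠ j → u i ≠ u j) :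
    ∃ D : Datum k, D.Good p q ∧ D.HasRoots p q ∧ (D.f p q).natDegree = 2 * g + 2 ∧
      D.f p q = C (lam ^ 2) * ∏ i : Fin (g + 1),
        ((X - C (u i)) ^ 2 -
          C (((aa p q (if i = 0 then 0 else if i = 1 then 1 else 2) : ℕ) : k) * w i ^ 2)) := by
  obtain ⟨g, rfl⟩ : ∃ n, g = n + 2 := ⟨g - 2, by omega⟩
  set cl : Fin (g + 2 + 1) → Fin 3 := fun i => if i = 0 then 0 else if i = 1 then 1 else 2 with hcl
  set m : Fin (g + 2 + 1) → k := fun i => if i = 0 then lam else 1 with hm
  have hm0 : ∀ i, m i ≠ 0 := by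
    intro i
    simp only [hm]
    split_ifs
    · exact hl
    · exact one_ne_zero
  set D : Datum k := ⟨g + 2 + 1, cl, fun i => C (m i) * (X - C (u i)), fun i => C (m i * w i)⟩ with hD
  have hfac : ∀ i : Fin (g + 2 + 1), D.fac p q i =
      C (m i ^ 2) * z1_quad (u i) (((aa p q (cl i) : ℕ) : k) * w i ^ 2) := by
    intro i
    show (C (m i) * (X - C (u i))) ^ 2 - C (((aa p q (cl i) : ℕ) : k)) * (C (m i * w i)) ^ 2 = _
    simp only [z1_quad, C_mul, C_pow]
    ring
  have hprod : ∏ i : Fin (g + 2 + 1), C (m i ^ 2) = C (lam ^ 2) := by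
    have h4 : ∀ i : Fin (g + 2 + 1), (C (m i ^ 2) : k[X]) = if i = 0 then C (lam ^ 2) else 1 := by
      intro i
      simp only [hm]
      split_ifs
      · rfl
      · simp
    simp only [h4]
    rw [Finset.prod_ite_eq' Finset.univ (0 : Fin (g + 2 + 1)) (fun _ => (C (lam ^ 2) : k[X])),
      if_pos (Finset.mem_univ _)]
  have hf : D.f p q = C (lam ^ 2) * ∏ i : Fin (g + 2 + 1),
      z1_quad (u i) (((aa p q (cl i) : ℕ) : k) * w i ^ 2) := by
    have h5 : D.f p q = ∏ i : Fin (g + 2 + 1), D.fac p q i := rfl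
    rw [h5, Finset.prod_congr rfl (fun i _ => hfac i), Finset.prod_mul_distrib, hprod]
  have ha0 : ∀ t, ((aa p q t : ℕ) : k) ≠ 0 := by
    intro t h
    apply h3 t
    rw [h]
    exact IsSquare.zero
  have hdeg : (D.f p q).natDegree = 2 * (g + 2) + 2 := by
    rw [hf, Polynomial.natDegree_C_mul (pow_ne_zero 2 hl),
      Polynomial.natDegree_prod_of_monic _ _ (fun i _ => z1_quad_monic _ _)]
    simp only [z1_quad_natDegree, Finset.sum_const, Finset.card_univ, Fintype.card_fin, smul_eq_mul]
    ring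
  have hn : ∀ i : Fin (g + 2 + 1), D.n i = 1 := by
    intro i
    have h6 : (C (m i) * (X - C (u i))).natDegree = 1 := by
      rw [Polynomial.natDegree_C_mul (hm0 i), Polynomial.natDegree_X_sub_C]
    have h7 : (C (m i * w i)).natDegree = 0 := Polynomial.natDegree_C _
    show max (C (m i) * (X - C (u i))).natDegree (C (m i * w i)).natDegree = 1
    rw [h6, h7]
    rfl
  have hcls : ∀ t : Fin 3, ∃ i, cl i = t := by
    intro t
    fin_cases t
    · exact ⟨0, by simp [hcl]⟩
    · exact ⟨1, by simp [hcl]⟩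
    · refine ⟨2, ?_⟩
      have h8 : (2 : Fin (g + 2 + 1)) ≠ 0 := by
        intro h
        have h10 := congrArg Fin.val h
        have h11 : ((2 : Fin (g + 2 + 1)) : ℕ) = 2 := Nat.mod_eq_of_lt (show 2 < g + 2 + 1 by omega)
        rw [h11, Fin.val_zero] at h10
        omega
      have h9 : (2 : Fin (g + 2 + 1)) ≠ 1 := by
        intro h
        have h10 := congrArg Fin.val h
        have h11 : ((2 : Fin (g + 2 + 1)) : ℕ) = 2 := Nat.mod_eq_of_lt (show 2 < g + 2 + 1 by omega)
        rw [h11, Fin.val_one] at h10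
        omega
      simp [hcl, h8, h9]
  refine ⟨D, ⟨?_, ?_, ?_⟩, ?_, hdeg, ?_⟩
  · rw [hf]
    refine Polynomial.Separable.unit_mul ?_ ?_
    · exact Polynomial.isUnit_C.2 (isUnit_iff_ne_zero.2 (pow_ne_zero 2 hl))
    · apply Polynomial.separable_prod
      · intro i j hij
        exact z1_quad_coprime (h3 _) (h3 _) (hw i) (hw j) (hu i j hij)
      · intro i
        exact z1_quad_sep (mul_ne_zero (ha0 _) (pow_ne_zero 2 (hw i)))
  · rw [hdeg]; omega
  · right
    intro t
    obtain ⟨i, hi⟩ := hcls t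
    exact ⟨i, hi, by rw [hn i]; exact odd_one⟩
  · intro t
    obtain ⟨i, hi⟩ := hcls t
    refine ⟨i, hi, u i, w i, ?_⟩
    rw [hfac, hi]
    exact Dvd.intro_left _ rfl
  · rw [hf]
    rfl

/-- the polynomials of even degree over an algebraically closed field -/
theorem z1_split (L : Type) [Field L] [IsAlgClosed L] [CharZero L] (n : ℕ) (F : L[X])
    (hF : F.natDegree = 2 * n) :
    ∃ (c : L) (u v : Fin n → L), F = C c * ∏ i, z1_quad (u i) (v i) := by
  induction n generalizing F with
  | zero =>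
    refine ⟨F.coeff 0, Fin.elim0, Fin.elim0, ?_⟩
    rw [Finset.univ_eq_empty, Finset.prod_empty, mul_one]
    exact Polynomial.eq_C_of_natDegree_eq_zero hF
  | succ n ih =>
    have key : ∀ F : L[X], 0 < F.natDegree → ∃ (r : L) (F1 : L[X]), F = (X - C r) * F1 ∧
        F.natDegree = 1 + F1.natDegree := by
      intro F hF
      have h0 : F ≠ 0 := by rintro rfl; simp at hF
      have h1 : F.degree ≠ 0 := by
        rw [Polynomial.degree_eq_natDegree h0]
        exact_mod_cast hF.ne'
      obtain ⟨r, hr⟩ := IsAlgClosed.exists_root F h1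
      obtain ⟨F1, hF1⟩ := Polynomial.dvd_iff_isRoot.2 hr
      refine ⟨r, F1, hF1, ?_⟩
      have h2 : F1 ≠ 0 := by rintro rfl; rw [mul_zero] at hF1; exact h0 hF1
      rw [hF1, Polynomial.natDegree_mul (Polynomial.X_sub_C_ne_zero r) h2,
        Polynomial.natDegree_X_sub_C]
    obtain ⟨r, F1, h1, h2⟩ := key F (by omega)
    obtain ⟨r', F2, h3, h4⟩ := key F1 (by omega)
    obtain ⟨c, u, v, h5⟩ := ih F2 (by omega)
    refine ⟨c, Fin.cons ((r + r') / 2) u, Fin.cons (((r - r') / 2) ^ 2) v, ?_⟩
    rw [Fin.prod_univ_succ]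
    simp only [Fin.cons_zero, Fin.cons_succ]
    have h6 : z1_quad ((r + r') / 2) (((r - r') / 2) ^ 2) = (X - C r) * (X - C r') := by
      have h7 : r = (r + r') / 2 + (r - r') / 2 := by ring
      have h8 : r' = (r + r') / 2 - (r - r') / 2 := by ring
      generalize (r + r') / 2 = s at *
      generalize (r - r') / 2 = d at *
      subst h7 h8
      simp only [z1_quad, map_add, map_sub, map_pow]
      ring
    rw [h6, h1, h3, h5]
    ring

section univ

variable {k : Type} [Field k] (c : k) {n : ℕ} (a : Fin n → k)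

/-- the variables -/
abbrev z1_σ (n : ℕ) : Type := Fin n ⊕ (Fin n ⊕ Unit)

/-- the family of polynomials -/
noncomputable def z1_U (A : Type) [CommRing A] [Algebra k A] (x : z1_σ n → A) : A[X] :=
  C (algebraMap k A c * x (Sum.inr (Sum.inr ())) ^ 2) *
    ∏ i, z1_quad (x (Sum.inl i)) (algebraMap k A (a i) * x (Sum.inr (Sum.inl i)) ^ 2)

theorem z1_U_map {A B : Type} [CommRing A] [Algebra k A] [CommRing B] [Algebra k B]
    (φ : A →ₐ[k] B) (x : z1_σ n → A) :
    (z1_U c a A x).map (φ : A →+* B) = z1_U c a B (fun i => φ (x i)) := by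
  unfold z1_U z1_quad
  simp only [Polynomial.map_mul, Polynomial.map_prod, Polynomial.map_sub, Polynomial.map_pow,
    Polynomial.map_C, Polynomial.map_X, RingHom.coe_coe, map_mul, map_pow, AlgHom.commutes]

/-- the pull back of `P` -/
noncomputable def z1_Q {N : ℕ} (P : MvPolynomial (Fin N) k) : MvPolynomial (z1_σ n) k :=
  MvPolynomial.aeval (fun j : Fin N => (z1_U c a (MvPolynomial (z1_σ n) k) MvPolynomial.X).coeff j) P

theorem z1_Q_aeval {N : ℕ} (P : MvPolynomial (Fin N) k) {B : Type} [CommRing B] [Algebra k B]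
    (x : z1_σ n → B) :
    MvPolynomial.aeval x (z1_Q c a P) =
      MvPolynomial.aeval (fun j : Fin N => (z1_U c a B x).coeff j) P := by
  unfold z1_Q
  rw [← AlgHom.comp_apply]
  congr 1
  apply MvPolynomial.algHom_ext
  intro j
  rw [AlgHom.comp_apply, MvPolynomial.aeval_X, MvPolynomial.aeval_X]
  have h1 := z1_U_map c a (MvPolynomial.aeval x : MvPolynomial (z1_σ n) k →ₐ[k] B) MvPolynomial.X
  simp only [MvPolynomial.aeval_X] at h1
  rw [← h1, Polynomial.coeff_map]
  rfl

end univ

/-- Sketch. Let `R = MvPolynomial` over `k` in the variables `λ, u_i, w_i` and `Q ∈ R` the polynomial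
`P(coefficients of c λ² ∏ ((X - u_i)² - a_i w_i²))`. `Q ≠ 0`: choose `F ∈ k[X]` of degree exactly `2 g + 2` with
`P(coefficients of F) ≠ 0` (`P` times the variable of the leading coefficient is not `0` and `k` is
infinite); over `k^alg` group the roots of `F` in pairs `ρ, ρ'` and put `u = (ρ + ρ')/2`,
`w = (ρ - ρ') / (2 √a)`, `λ² = lead(F) / c`: a point of `k^alg` where `Q` is not `0`. Then
`Q · λ · ∏ w_i · ∏_{i < j} (u_i - u_j)` is not `0`, so it has a nonzero value at a point of `k`; use
`family_good`. -/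
theorem dense (k : Type) [Field k] [CharZero k] (c : k) (hc : c ≠ 0) (p q : ℕ)
    (h3 : ∀ t, ¬ IsSquare ((aa p q t : ℕ) : k)) (g : ℕ) (hg : 2 ≤ g)
    (P : MvPolynomial (Fin (2 * g + 3)) k) (hP : P ≠ 0) :
    ∃ D : Datum k, D.Good p q ∧ D.HasRoots p q ∧ (D.f p q).natDegree = 2 * g + 2 ∧
      MvPolynomial.eval (fun j : Fin (2 * g + 3) => (C c * D.f p q).coeff j) P ≠ 0 := by
  classical
  set a : Fin (g + 1) → k := fun i =>
    ((aa p q (if i = 0 then 0 else if i = 1 then 1 else 2) : ℕ) : k) with ha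
  have ha0 : ∀ i, a i ≠ 0 := by
    intro i h
    apply h3 (if i = 0 then 0 else if i = 1 then 1 else 2)
    simp only [ha] at h
    rw [h]
    exact IsSquare.zero
  have hQ : z1_Q c a P ≠ 0 := by
    -- a polynomial `F` of degree `2 g + 2`
    obtain ⟨y, hy⟩ : ∃ y : Fin (2 * g + 3) → k,
        MvPolynomial.eval y (P * MvPolynomial.X (Fin.last (2 * g + 2))) ≠ 0 := by
      by_contra hcon
      push Not at hcon
      have h1 : P * MvPolynomial.X (Fin.last (2 * g + 2)) = 0 := by
        apply MvPolynomial.funext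
        intro x
        rw [hcon x, map_zero]
      exact (mul_ne_zero hP (MvPolynomial.X_ne_zero _)) h1
    rw [map_mul, MvPolynomial.eval_X] at hy
    have hy1 := left_ne_zero_of_mul hy
    have hy2 := right_ne_zero_of_mul hy
    set F : k[X] := ∑ j : Fin (2 * g + 3), C (y j) * X ^ (j : ℕ) with hF
    have hFc : ∀ j : Fin (2 * g + 3), F.coeff j = y j := by
      intro j
      rw [hF, Polynomial.finsetSum_coeff]
      simp only [Polynomial.coeff_C_mul, Polynomial.coeff_X_pow]
      rw [Finset.sum_eq_single j]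
      · simp
      · intro i _ hij
        have : (j : ℕ) ≠ (i : ℕ) := fun h => hij (Fin.ext h.symm)
        simp [this]
      · intro h; exact absurd (Finset.mem_univ _) h
    have hFd : F.natDegree = 2 * (g + 1) := by
      apply le_antisymm
      · rw [hF]
        apply Polynomial.natDegree_sum_le_of_forall_le
        intro i _
        refine (Polynomial.natDegree_C_mul_X_pow_le _ _).trans ?_
        have := i.isLt
        omega
      · apply Polynomial.le_natDegree_of_ne_zero
        have := hFc (Fin.last (2 * g + 2))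
        rw [Fin.val_last] at this
        rw [show 2 * (g + 1) = 2 * g + 2 by ring, this]
        exact hy2
    set L := AlgebraicClosure k
    obtain ⟨c0, u, v, hsp⟩ := z1_split L (g + 1) (F.map (algebraMap k L)) (by
      rw [Polynomial.natDegree_map]; exact hFd)
    have haL : ∀ i, algebraMap k L (a i) ≠ 0 := fun i => by
      rw [Ne, map_eq_zero]; exact ha0 i
    have hcL : algebraMap k L c ≠ 0 := by
      rw [Ne, map_eq_zero]; exact hc
    have hwex : ∀ i, ∃ w : L, algebraMap k L (a i) * w ^ 2 = v i := by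
      intro i
      obtain ⟨w, hw⟩ := IsAlgClosed.exists_pow_nat_eq (v i / algebraMap k L (a i)) (n := 2) (by norm_num)
      exact ⟨w, by rw [hw, mul_div_cancel₀ _ (haL i)]⟩
    choose w hw using hwex
    obtain ⟨l, hl⟩ := IsAlgClosed.exists_pow_nat_eq (c0 / algebraMap k L c) (n := 2) (by norm_num)
    intro h0
    have h1 := z1_Q_aeval c a P (Sum.elim u (Sum.elim w (fun _ => l)))
    rw [h0, map_zero] at h1
    have h2 : z1_U c a L (Sum.elim u (Sum.elim w (fun _ => l))) = F.map (algebraMap k L) := by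
      rw [hsp]
      unfold z1_U
      simp only [Sum.elim_inl, Sum.elim_inr, hw, hl, mul_div_cancel₀ _ hcL]
    rw [h2] at h1
    simp only [Polynomial.coeff_map, hFc] at h1
    have h4 : MvPolynomial.aeval (fun j => algebraMap k L (y j)) P =
        algebraMap k L (MvPolynomial.eval y P) := by
      have h5 := MvPolynomial.aeval_algebraMap_apply (A := k) L y P
      rw [MvPolynomial.aeval_eq_eval] at h5
      exact h5
    rw [h4] at h1
    exact hy1 ((map_eq_zero _).1 h1.symm)
  -- a point of `k`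
  set T : MvPolynomial (z1_σ (g + 1)) k := z1_Q c a P * MvPolynomial.X (Sum.inr (Sum.inr ())) *
    (∏ i, MvPolynomial.X (Sum.inr (Sum.inl i))) *
    ∏ ij ∈ (Finset.univ : Finset (Fin (g + 1))).offDiag,
      (MvPolynomial.X (Sum.inl ij.1) - MvPolynomial.X (Sum.inl ij.2)) with hT
  have hT0 : T ≠ 0 := by
    rw [hT]
    refine mul_ne_zero (mul_ne_zero (mul_ne_zero hQ (MvPolynomial.X_ne_zero _)) ?_) ?_
    · exact Finset.prod_ne_zero_iff.2 fun i _ => MvPolynomial.X_ne_zero _
    · refine Finset.prod_ne_zero_iff.2 fun ij hij => ?_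
      rw [Finset.mem_offDiag] at hij
      rw [sub_ne_zero]
      intro h
      have := MvPolynomial.X_injective h
      exact hij.2.2 (Sum.inl_injective this)
  obtain ⟨x, hx⟩ : ∃ x, MvPolynomial.eval x T ≠ 0 := by
    by_contra hcon
    push Not at hcon
    apply hT0
    apply MvPolynomial.funext
    intro x
    rw [hcon x, map_zero]
  rw [hT, map_mul, map_mul, map_mul, map_prod, map_prod] at hx
  simp only [MvPolynomial.eval_X, map_sub] at hx
  have hx1 := right_ne_zero_of_mul hx
  have hx2 := left_ne_zero_of_mul hx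
  have hx3 := right_ne_zero_of_mul hx2
  have hx4 := left_ne_zero_of_mul hx2
  have hx5 := right_ne_zero_of_mul hx4
  have hx6 := left_ne_zero_of_mul hx4
  rw [Finset.prod_ne_zero_iff] at hx1 hx3
  obtain ⟨D, hD1, hD2, hD3, hD4⟩ := family_good k p q h3 g hg (x (Sum.inr (Sum.inr ()))) hx5
    (fun i => x (Sum.inl i)) (fun i => x (Sum.inr (Sum.inl i)))
    (fun i => hx3 i (Finset.mem_univ _)) (fun i j hij => by
      have := hx1 (i, j) (Finset.mem_offDiag.2 ⟨Finset.mem_univ _, Finset.mem_univ _, hij⟩)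
      exact sub_ne_zero.1 this)
  refine ⟨D, hD1, hD2, hD3, ?_⟩
  have h5 : C c * D.f p q = z1_U c a k x := by
    rw [hD4, z1_U]
    simp only [Algebra.algebraMap_self, RingHom.id_apply, C_mul, z1_quad, ha]
    ring
  rw [h5]
  have h6 := z1_Q_aeval c a P x
  rw [MvPolynomial.aeval_eq_eval, MvPolynomial.aeval_eq_eval] at h6
  rw [← h6]
  exact hx6

end SEC
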