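import Pool.Agent.MP_c1dca2_ag.SEC.M8
import Pool.Agent.MP_c1dca2_ag.SEC.R
import Pool.Agent.MP_c1dca2_ag.SEC.N1
import Pool.Agent.MP_c1dca2_ag.SEC.N4
import Pool.Agent.MP_c1dca2_ag.SEC.P1
import Pool.Agent.MP_c1dca2_ag.SEC.P2
import Pool.Agent.MP_c1dca2_ag.SEC.C1
import Pool.Agent.MP_c1dca2_ag.SEC.L2
import Pool.Agent.MP_c1dca2_ag.SEC.Z1

set_option autoImplicit false

open Polynomial

namespace SEC

/-! ## [SEC-F] assembly -/

/-- The conditions on the pair `p`, `q` for a given `c`. -/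
structure PairCond (k : Type) [Field k] [NumberField k] (c : k) (p q : ℕ) : Prop where
  hp : p.Prime
  hq : q.Prime
  hp8 : p % 8 = 1
  hq8 : q % 8 = 1
  hne : p ≠ q
  hpq : jacobiSym p q = 1
  h3 : ∀ t, ¬ IsSquare ((aa p q t : ℕ) : k)
  hmp : padicValRat p (Algebra.norm ℚ c) = 0
  hmq : padicValRat q (Algebra.norm ℚ c) = 0
  hl : ∃ l₀ : ℕ, l₀.Prime ∧ l₀ ≠ 2 ∧ Odd (padicValRat l₀ (Algebra.norm ℚ c)) ∧
    jacobiSym l₀ p = -1 ∧ jacobiSym l₀ q = -1 ∧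
    ∀ l : ℕ, l.Prime → l ≠ 2 → l ≠ l₀ → Odd (padicValRat l (Algebra.norm ℚ c)) →
      jacobiSym l q = 1

theorem output_false (k : Type) [Field k] [NumberField k] (c : k) (hc : c ≠ 0) (p q : ℕ)
    (h : PairCond k c p q) (D : Datum k) (hO : Output k c p q D) : False := by
  obtain ⟨hp, hq, hp8, hq8, hne, hpq, h3, hmp, hmq, l₀, hl₀, hl₀2, hodd, hl₀p, hl₀q, hl⟩ := h
  obtain ⟨d, hd0, ⟨t, ht0, ht⟩, hsol⟩ := hO
  have : Fact p.Prime := ⟨hp⟩
  have : Fact q.Prime := ⟨hq⟩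
  have hb : ∀ t : Fin 3, ¬ IsSquare (algebraMap ℚ k ((aa p q t : ℕ) : ℚ)) := by
    intro t
    rw [map_natCast]
    exact h3 t
  refine nt_main p q hp8 hq8 ?_ hne D.r D.cl (fun i => Algebra.norm ℚ (d i)) ?_
    (Algebra.norm ℚ c) (Algebra.norm ℚ t) ?_ ?_ ?_ ?_ hmp hmq l₀ hl₀ hl₀2 hodd ?_ ?_ ?_
  · rw [jacobiSym.legendreSym.to_jacobiSym]
    exact hpq
  · intro i
    exact Algebra.norm_ne_zero_iff.2 (hd0 i)
  · exact Algebra.norm_ne_zero_iff.2 hc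
  · exact Algebra.norm_ne_zero_iff.2 ht0
  · rw [← map_prod, ← map_mul, ht, map_pow]
  · intro i t' ht'
    have h1 := hsol i t' ht'
    have h2 := sol_norm k ((aa p q (D.cl i) : ℕ) : ℚ) ((aa p q t' : ℕ) : ℚ) (d i) (hb t')
      (by rw [map_natCast, map_natCast]; exact h1)
    exact h2
  · rw [jacobiSym.legendreSym.to_jacobiSym]
    exact hl₀p
  · rw [jacobiSym.legendreSym.to_jacobiSym]
    exact hl₀q
  · intro l hlp hl2 hll hlo
    rw [jacobiSym.legendreSym.to_jacobiSym]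
    exact hl l hlp hl2 hll hlo

theorem pair_good (k : Type) [Field k] [NumberField k] (c : k) (hc : c ≠ 0) (p q : ℕ)
    (h : PairCond k c p q) : PairGood k c p q := by
  have : Fact p.Prime := ⟨h.hp⟩
  have : Fact q.Prime := ⟨h.hq⟩
  have hpq : legendreSym q p = 1 := by
    rw [jacobiSym.legendreSym.to_jacobiSym]
    exact h.hpq
  refine ⟨?_, ?_, ?_⟩
  · intro D hD K _ _ x y hx hxy
    have h1 : IsEmpty (Sect k K) :=
      ⟨fun s => output_false k c hc p q h D (output_of_sect c hc p q h.h3 D hD x y hx hxy s)⟩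
    have h2 : IsEmpty (RatPlace k K) :=
      ⟨fun P => output_false k c hc p q h D (output_of_place c hc p q h.h3 D hD x y hx hxy P)⟩
    exact ⟨⟨fun P => h2.elim P, fun s => h1.elim s⟩, h1, h2⟩
  · intro D _ hR
    exact locally_soluble k c p q h.hp8 h.hq8 hpq D hR
  · intro g hg P hP
    exact dense k c hc p q h.h3 g hg P hP

/-- the odd primes with odd valuation -/
theorem exists_support (m : ℚ) : ∃ S : Finset ℕ,
    (∀ l, l ∈ S ↔ l.Prime ∧ l ≠ 2 ∧ Odd (padicValRat l m)) ∧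
      ∃ N : ℕ, ∀ l : ℕ, N < l → padicValRat l m = 0 := by
  by_cases hm : m = 0
  · subst hm
    refine ⟨∅, ?_, 0, ?_⟩
    · intro l
      simp
    · intro l _
      simp
  have hfin : ∀ l : ℕ, m.num.natAbs + m.den < l → padicValRat l m = 0 := by
    intro l hl
    have h1 : ¬ (l ∣ m.num.natAbs) := by
      intro h
      have h2 := Nat.le_of_dvd (Int.natAbs_pos.2 (Rat.num_ne_zero.2 hm)) h
      omega
    have h2 : ¬ (l ∣ m.den) := by
      intro h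
      have h3 := Nat.le_of_dvd m.den_pos h
      omega
    rw [padicValRat, padicValInt, padicValNat.eq_zero_of_not_dvd h1,
      padicValNat.eq_zero_of_not_dvd h2]
    simp
  classical
  refine ⟨(Finset.range (m.num.natAbs + m.den + 1)).filter
    (fun l => l.Prime ∧ l ≠ 2 ∧ Odd (padicValRat l m)), ?_, m.num.natAbs + m.den, hfin⟩
  intro l
  rw [Finset.mem_filter, Finset.mem_range]
  constructor
  · rintro ⟨_, h⟩
    exact h
  · rintro h
    refine ⟨?_, h⟩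
    by_contra hl
    have h2 := h.2.2
    rw [hfin l (by omega)] at h2
    simp at h2

theorem main (k : Type) [Field k] [NumberField k] :
    (∃ c : k, OddNorm k c) ∧ ∀ c : k, OddNorm k c →
      {p : ℕ | p.Prime ∧ {q : ℕ | q.Prime ∧ PairGood k c p q}.Infinite}.Infinite := by
  refine ⟨exists_oddNorm k, ?_⟩
  rintro c ⟨hc, l₀, hl₀, hl₀2, hodd⟩
  obtain ⟨S, hS, N₀, hN₀⟩ := exists_support (Algebra.norm ℚ c)
  have hl₀S : l₀ ∈ S := (hS l₀).2 ⟨hl₀, hl₀2, hodd⟩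
  obtain ⟨N₁, hN₁⟩ := (finite_sq k).bddAbove
  have hS' : ∀ l ∈ S, l.Prime ∧ l ≠ 2 := fun l hl => ⟨((hS l).1 hl).1, ((hS l).1 hl).2.1⟩
  apply Set.infinite_of_forall_exists_gt
  intro N
  obtain ⟨p, hNp, hp, hp8, hpS⟩ := exists_p S hS' (N + N₀ + N₁)
  refine ⟨p, ⟨hp, ?_⟩, by omega⟩
  have hvp : padicValRat p (Algebra.norm ℚ c) = 0 := hN₀ p (by omega)
  have hpS' : p ∉ S := by
    intro h
    have h2 := ((hS p).1 h).2.2
    rw [hvp] at h2
    simp at h2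
  obtain ⟨N₂, hN₂⟩ := (finite_sq_mul k p hp).bddAbove
  apply Set.infinite_of_forall_exists_gt
  intro N'
  obtain ⟨q, hNq, hq, hq8, hpq, hl₀q, hq1⟩ :=
    exists_q S hS' l₀ hl₀S p hp hp8 hpS' (N' + N₀ + N₁ + N₂ + p)
  refine ⟨q, ⟨hq, ?_⟩, by omega⟩
  apply pair_good k c hc
  refine ⟨hp, hq, hp8, hq8, by omega, hpq, ?_, hvp, hN₀ q (by omega),
    l₀, hl₀, hl₀2, hodd, hpS l₀ hl₀S, hl₀q, ?_⟩
  · intro t ht
    fin_cases t
    · have := hN₁ (show p ∈ {p : ℕ | p.Prime ∧ IsSquare ((p : ℕ) : k)} from ⟨hp, ht⟩)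
      omega
    · have := hN₁ (show q ∈ {p : ℕ | p.Prime ∧ IsSquare ((p : ℕ) : k)} from ⟨hq, ht⟩)
      omega
    · have := hN₂ (show q ∈ {q : ℕ | q.Prime ∧ IsSquare ((p * q : ℕ) : k)} from ⟨hq, ht⟩)
      omega
  · intro l hlp hl2 hll hlo
    exact hq1 l ((hS l).2 ⟨hlp, hl2, hlo⟩) hll

end SEC
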