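import Pool.Agent.MP_c1dca2_ag.SEC.S
import Pool.Agent.MP_c1dca2_ag.SEC.F

set_option autoImplicit false

open Polynomial

namespace SCJ

/-! ## The statement-level definitions are the same as the ones used in the proof -/

/-- the section in terms of the definitions used in the proof -/
noncomputable def Sect.toOld {k K : Type} [Field k] [Field K] [Algebra k K] (s : Sect k K) :
    SEC.Sect k K where
  toHom := s.toHom
  cont := s.cont
  split := fun τ a ha => s.split τ a ⟨(a : SEC.Om K), ha⟩ rfl

/-- the rational point in terms of the definitions used in the proof -/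
def RatPlace.toOld {k K : Type} [Field k] [Field K] [Algebra k K] (P : RatPlace k K) :
    SEC.RatPlace k K where
  A := P.A
  alg := P.alg
  ne_top := P.ne_top
  rat := P.rat

theorem main (k : Type) [Field k] [NumberField k] :
    (∃ c : k, SEC.OddNorm k c) ∧ ∀ c : k, SEC.OddNorm k c →
      {p : ℕ | p.Prime ∧ {q : ℕ | q.Prime ∧ PairGood k c p q}.Infinite}.Infinite := by
  obtain ⟨h1, h2⟩ := SEC.main k
  refine ⟨h1, fun c hc => (h2 c hc).mono ?_⟩
  rintro p ⟨hp, hq⟩
  refine ⟨hp, hq.mono ?_⟩
  rintro q ⟨hq, h⟩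
  refine ⟨hq, ?_, h.local_, h.dense⟩
  intro D hD K _ _ x y hx hxy
  rw [map_mul, aeval_C] at hxy
  obtain ⟨-, h3, h4⟩ := h.noSection D hD K x y hx hxy
  have h5 : IsEmpty (Sect k K) := ⟨fun s => h3.false s.toOld⟩
  have h6 : IsEmpty (RatPlace k K) := ⟨fun P => h4.false P.toOld⟩
  exact ⟨⟨fun P => h6.elim P, fun s => h5.elim s⟩, h5, h6⟩

end SCJ
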