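import Pool.Agent.MP_c1dca2_ag.SEC.D

/-!
# Grothendieck's section conjecture (MP_c1dca2_ag): definitions

`k` is a field (a number field in the application), `K` the function field of a smooth projective
geometrically connected curve `X` over `k`. The étale fundamental group of `X` is
`Gal(M / K)`, where `M ⊆ K^alg` is the maximal extension of `K` which is unramified at all places
of `K` that are trivial on `k`; its quotient `Gal(k^alg / k)` comes from `k^alg ⊆ M`.
-/

set_option autoImplicit false

open Polynomial

noncomputable section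

namespace SEC

section General

variable (k K : Type) [Field k] [Field K] [Algebra k K]

/-- The algebraic closure of the function field. -/
abbrev Om : Type := AlgebraicClosure K

/-- The algebraic closure of `k` in `K^alg`. -/
abbrev kb : IntermediateField k (Om K) := algebraicClosure k (Om K)

/-- The places of `K^alg` over `k`: nontrivial valuation rings containing `k`. -/
def IsPlace (B : ValuationSubring (Om K)) : Prop :=
  (∀ a : k, algebraMap k (Om K) a ∈ B) ∧ B ≠ ⊤

/-- `σ` is in the inertia group of `B`: it stabilises `B` and acts trivially on the residue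
field. -/
def IsInert (B : ValuationSubring (Om K)) (σ : Om K ≃ₐ[K] Om K) : Prop :=
  (∀ z, σ z ∈ B ↔ z ∈ B) ∧ ∀ z ∈ B, σ z - z ∈ B.nonunits

/-- The maximal unramified extension `M` of `K`: the fixed field of all inertia groups of places
of `K^alg` over `k`. -/
def Mnr : IntermediateField K (Om K) where
  carrier := {z | ∀ B, IsPlace k K B → ∀ σ, IsInert K B σ → σ z = z}
  mul_mem' := by
    intro a b ha hb B hB σ hσ
    rw [map_mul, ha B hB σ hσ, hb B hB σ hσ]
  add_mem' := by
    intro a b ha hb B hB σ hσ
    rw [map_add, ha B hB σ hσ, hb B hB σ hσ]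
  algebraMap_mem' := fun r _ _ σ _ => σ.commutes r
  inv_mem' := by
    intro a ha B hB σ hσ
    rw [map_inv₀, ha B hB σ hσ]

/-- The sections of `π₁(X) → Gal(k^alg / k)`: continuous homomorphisms
`s : Gal(k^alg / k) → Gal(M / K)` such that `s τ` restricts to `τ` on `k^alg ⊆ M`. -/
structure Sect where
  /-- the homomorphism -/
  toHom : (kb k K ≃ₐ[k] kb k K) →* (Mnr k K ≃ₐ[K] Mnr k K)
  cont : Continuous toHom
  split : ∀ (τ : kb k K ≃ₐ[k] kb k K) (a : kb k K) (ha : (a : Om K) ∈ Mnr k K),
    (toHom τ ⟨(a : Om K), ha⟩ : Om K) = (τ a : Om K)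

variable {k K} in
/-- Conjugation by `π₁` of the geometric curve, i.e. by `Gal(M / K k^alg)`. -/
def Sect.IsConj (s s' : Sect k K) : Prop :=
  ∃ γ : Mnr k K ≃ₐ[K] Mnr k K, (∀ z : Mnr k K, (z : Om K) ∈ kb k K → γ z = z) ∧
    ∀ τ, s'.toHom τ = γ * s.toHom τ * γ⁻¹

/-- The `k`-rational points of `X`: the places of `K` over `k` with residue field `k`. -/
structure RatPlace where
  /-- the valuation ring -/
  A : ValuationSubring K
  alg : ∀ a : k, algebraMap k K a ∈ A
  ne_top : A ≠ ⊤
  rat : ∀ z ∈ A, ∃ a : k, z - algebraMap k K a ∈ A.nonunits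

variable {k K} in
/-- The section `s` is (up to conjugation) the section of the rational point `P`: its image is
contained in the decomposition group of a place of `M` above `P`. -/
def Sect.ComesFrom (s : Sect k K) (P : RatPlace k K) : Prop :=
  ∃ B : ValuationSubring (Mnr k K), (∀ z : K, algebraMap K (Mnr k K) z ∈ B ↔ z ∈ P.A) ∧
    ∀ τ z, s.toHom τ z ∈ B ↔ z ∈ B

/-- The profinite Kummer map `X(k) → {sections} / conjugation` is well defined and bijective. -/
def SectionConjecture : Prop :=
  (∀ P : RatPlace k K, ∃ s : Sect k K, s.ComesFrom P ∧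
    ∀ s' : Sect k K, s'.ComesFrom P → s.IsConj s') ∧
  ∀ s : Sect k K, ∃! P : RatPlace k K, s.ComesFrom P

end General

open NumberField IsDedekindDomain

/-- The statement for a fixed pair of primes. -/
structure PairGood (k : Type) [Field k] [NumberField k] (c : k) (p q : ℕ) : Prop where
  /-- There is no section (and no rational point) for the curve `y² = c f(x)` and for every curve
  with a nonconstant map to it. -/
  noSection : ∀ D : Datum k, D.Good p q → ∀ (K : Type) [Field K] [Algebra k K] (x y : K),
    Transcendental k x → y ^ 2 = algebraMap k K c * aeval x (D.f p q) →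
    SectionConjecture k K ∧ IsEmpty (Sect k K) ∧ IsEmpty (RatPlace k K)
  /-- The curve has points in all completions of `k`. -/
  local_ : ∀ D : Datum k, D.Good p q → D.HasRoots p q → LocallySoluble k (C c * D.f p q)
  /-- For every genus `g ≥ 2` these curves (with points everywhere locally) are Zariski dense among
  the curves `y² = F(x)`, `deg F = 2 g + 2`. -/
  dense : ∀ g : ℕ, 2 ≤ g → ∀ P : MvPolynomial (Fin (2 * g + 3)) k, P ≠ 0 →
    ∃ D : Datum k, D.Good p q ∧ D.HasRoots p q ∧ (D.f p q).natDegree = 2 * g + 2 ∧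
      MvPolynomial.eval (fun j : Fin (2 * g + 3) => (C c * D.f p q).coeff j) P ≠ 0

/-- `X² - a Y² = d Z²` has a solution with `Z ≠ 0` in `k(√b)` (`b` not a square). -/
def SolOver (k : Type) [Field k] (b a d : k) : Prop :=
  ∃ X0 X1 Y0 Y1 z0 z1 : k, (z0 ≠ 0 ∨ z1 ≠ 0) ∧
    X0 ^ 2 + b * X1 ^ 2 - a * (Y0 ^ 2 + b * Y1 ^ 2) = d * (z0 ^ 2 + b * z1 ^ 2) ∧
    X0 * X1 - a * (Y0 * Y1) = d * (z0 * z1)

end SEC
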