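import Pool.Agent.MP_c1dca2_ag.SEC.D

/-!
# Grothendieck's section conjecture (MP_c1dca2_ag): statement-level definitions

`k` is a field (a number field in the application), `K` the function field of a smooth projective
geometrically connected curve `X` over `k`. The étale fundamental group of `X` is
`Gal(M / K)`, where `M ⊆ K^alg` is the maximal extension of `K` which is unramified at all places
of `K` that are trivial on `k`; its quotient `Gal(k^alg / k)` comes from `k^alg ⊆ M`.
-/

set_option autoImplicit false

open Polynomial

noncomputable section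

namespace SCJ

section General

variable (k K : Type) [Field k] [Field K] [Algebra k K]

/-- The algebraic closure of the function field. -/
def Om : Type := AlgebraicClosure K

instance omField : Field (Om K) := (inferInstance : Field (AlgebraicClosure K))

instance omAlg : Algebra K (Om K) := (inferInstance : Algebra K (AlgebraicClosure K))

instance omAlg' : Algebra k (Om K) := (inferInstance : Algebra k (AlgebraicClosure K))

/-- The algebraic closure of `k` in `K^alg`. -/
def kbar : IntermediateField k (Om K) := algebraicClosure k (Om K)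

/-- The algebraic closure `k^alg` of `k` (in `K^alg`) as a type. -/
def Kb : Type := kbar k K

instance kbField : Field (Kb k K) := (inferInstance : Field (kbar k K))

instance kbAlg : Algebra k (Kb k K) := (inferInstance : Algebra k (kbar k K))

/-- the inclusion `k^alg ⊆ K^alg` -/
def Kb.incl (a : Kb k K) : Om K := (show kbar k K from a : Om K)

/-- The absolute Galois group `Gal(k^alg / k)` (with the Krull topology). -/
def Gk : Type := Kb k K ≃ₐ[k] Kb k K

instance gkGroup : Group (Gk k K) := (inferInstance : Group (Kb k K ≃ₐ[k] Kb k K))

instance gkTop : TopologicalSpace (Gk k K) :=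
  (inferInstance : TopologicalSpace (Kb k K ≃ₐ[k] Kb k K))

/-- the action of `Gal(k^alg / k)` on `k^alg` -/
def Gk.act (τ : Gk k K) (a : Kb k K) : Kb k K := (show Kb k K ≃ₐ[k] Kb k K from τ) a

/-- The places of `K^alg` over `k`: nontrivial valuation rings containing `k`. -/
def IsPlace (B : ValuationSubring (Om K)) : Prop :=
  (∀ a : k, algebraMap k (Om K) a ∈ B) ∧ B ≠ ⊤

/-- `σ` is in the inertia group of `B`: it stabilises `B` and acts trivially on the residue
field. -/
def IsInert (B : ValuationSubring (Om K)) (σ : Om K ≃ₐ[K] Om K) : Prop :=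
  (∀ z, σ z ∈ B ↔ z ∈ B) ∧ ∀ z ∈ B, σ z - z ∈ B.nonunits

/-- The maximal unramified extension `M` of `K`: the fixed field of all inertia groups of places
of `K^alg` over `k`. -/
def Mnr : IntermediateField K (Om K) where
  carrier := {z | ∀ B, IsPlace k K B → ∀ σ, IsInert K B σ → σ z = z}
  mul_mem' := by
    intro a b ha hb B hB σ hσ
    rw [map_mul, ha B hB σ hσ, hb B hB σ hσ]
  add_mem' := by
    intro a b ha hb B hB σ hσ
    rw [map_add, ha B hB σ hσ, hb B hB σ hσ]
  algebraMap_mem' := fun r _ _ σ _ => σ.commutes r
  inv_mem' := by
    intro a ha B hB σ hσ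
    rw [map_inv₀, ha B hB σ hσ]

/-- The field `M` as a type. -/
def MM : Type := Mnr k K

instance mmField : Field (MM k K) := (inferInstance : Field (Mnr k K))

instance mmAlg : Algebra K (MM k K) := (inferInstance : Algebra K (Mnr k K))

/-- the inclusion `M ⊆ K^alg` -/
def MM.incl (z : MM k K) : Om K := (show Mnr k K from z : Om K)

/-- The fundamental group `π₁(X) = Gal(M / K)` (with the Krull topology). -/
def Pi1 : Type := MM k K ≃ₐ[K] MM k K

instance piGroup : Group (Pi1 k K) := (inferInstance : Group (MM k K ≃ₐ[K] MM k K))

instance piTop : TopologicalSpace (Pi1 k K) :=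
  (inferInstance : TopologicalSpace (MM k K ≃ₐ[K] MM k K))

/-- the action of `π₁(X)` on `M` -/
def Pi1.act (γ : Pi1 k K) (z : MM k K) : MM k K := (show MM k K ≃ₐ[K] MM k K from γ) z

/-- The sections of `π₁(X) → Gal(k^alg / k)`: continuous homomorphisms
`s : Gal(k^alg / k) → Gal(M / K)` such that `s τ` restricts to `τ` on `k^alg ⊆ M`. -/
structure Sect where
  /-- the homomorphism -/
  toHom : Gk k K →* Pi1 k K
  cont : Continuous toHom
  split : ∀ (τ : Gk k K) (a : Kb k K) (z : MM k K), z.incl = a.incl →
    ((toHom τ).act k K z).incl = (τ.act k K a).incl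

variable {k K} in
/-- Conjugation by `π₁` of the geometric curve, i.e. by `Gal(M / K k^alg)`. -/
def Sect.IsConj (s s' : Sect k K) : Prop :=
  ∃ γ : Pi1 k K, (∀ z : MM k K, z.incl ∈ kbar k K → γ.act k K z = z) ∧
    ∀ τ, s'.toHom τ = γ * s.toHom τ * γ⁻¹

/-- The `k`-rational points of `X`: the places of `K` over `k` with residue field `k`. -/
structure RatPlace where
  /-- the valuation ring -/
  A : ValuationSubring K
  alg : ∀ a : k, algebraMap k K a ∈ A
  ne_top : A ≠ ⊤
  rat : ∀ z ∈ A, ∃ a : k, z - algebraMap k K a ∈ A.nonunits

variable {k K} in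
/-- The section `s` is (up to conjugation) the section of the rational point `P`: its image is
contained in the decomposition group of a place of `M` above `P`. -/
def Sect.ComesFrom (s : Sect k K) (P : RatPlace k K) : Prop :=
  ∃ B : ValuationSubring (MM k K), (∀ z : K, algebraMap K (MM k K) z ∈ B ↔ z ∈ P.A) ∧
    ∀ τ z, (s.toHom τ).act k K z ∈ B ↔ z ∈ B

/-- The profinite Kummer map `X(k) → {sections} / conjugation` is well defined and bijective. -/
def SectionConjecture : Prop :=
  (∀ P : RatPlace k K, ∃ s : Sect k K, s.ComesFrom P ∧
    ∀ s' : Sect k K, s'.ComesFrom P → s.IsConj s') ∧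
  ∀ s : Sect k K, ∃! P : RatPlace k K, s.ComesFrom P

end General

/-- The section conjecture holds for every curve with a nonconstant map to `y² = F(x)`, and such a
curve has neither sections nor rational points. -/
def NoSection (k : Type) [Field k] (F : k[X]) : Prop :=
  ∀ (K : Type) [Field K] [Algebra k K] (x y : K), Transcendental k x → y ^ 2 = aeval x F →
    SectionConjecture k K ∧ IsEmpty (Sect k K) ∧ IsEmpty (RatPlace k K)

open SEC

/-- The curves `y² = c f(x)` for a pair of primes `p`, `q`: no sections, points in all completions,
Zariski density. -/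
structure PairGood (k : Type) [Field k] [NumberField k] (c : k) (p q : ℕ) : Prop where
  /-- There is no section for the curve `y² = c f(x)` and the curves over it. -/
  noSection : ∀ D : Datum k, D.Good p q → NoSection k (C c * D.f p q)
  /-- The curve has points in all completions of `k`. -/
  local_ : ∀ D : Datum k, D.Good p q → D.HasRoots p q → LocallySoluble k (C c * D.f p q)
  /-- For every genus `g ≥ 2` these curves (with points everywhere locally) are Zariski dense among
  the curves `y² = F(x)`, `deg F = 2 g + 2`. -/
  dense : ∀ g : ℕ, 2 ≤ g → ∀ P : MvPolynomial (Fin (2 * g + 3)) k, P ≠ 0 →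
    ∃ D : Datum k, D.Good p q ∧ D.HasRoots p q ∧ (D.f p q).natDegree = 2 * g + 2 ∧
      MvPolynomial.eval (fun j : Fin (2 * g + 3) => (C c * D.f p q).coeff j) P ≠ 0

end SCJ
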