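import Pool.Agent.MP_c1dca2_ag.SEC.Defs

set_option autoImplicit false

open Polynomial

namespace SEC

variable {k K : Type} [Field k] [Field K] [Algebra k K]

/-! ## [SEC-M1] places, inertia groups and square roots in `M` (file M1.lean) -/

/-- `B` is integrally closed and contains `k`. -/
theorem place_alg (B : ValuationSubring (Om K)) (hB : IsPlace k K B) (a : Om K)
    (ha : a ∈ kb k K) : a ∈ B := by
  have h1 : IsIntegral k a := (mem_algebraicClosure_iff').1 ha
  obtain ⟨P, hP, hPa⟩ := h1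
  -- lift `P` to `B`
  let φ : k →+* B := (algebraMap k (Om K)).codRestrict B.toSubring hB.1
  have h2 : IsIntegral B a := by
    refine ⟨P.map φ, hP.map φ, ?_⟩
    rw [eval₂_map]
    exact hPa
  obtain ⟨b, hb⟩ := IsIntegrallyClosed.isIntegral_iff.1 h2
  rw [← hb]
  exact b.2

/-- `a` and `a⁻¹` are in `B`. -/
theorem place_alg_val (B : ValuationSubring (Om K)) (hB : IsPlace k K B) (a : Om K)
    (ha : a ∈ kb k K) (h0 : a ≠ 0) : B.valuation a = 1 := by
  have h1 := (B.valuation_le_one_iff a).2 (place_alg B hB a ha)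
  have h2 := (B.valuation_le_one_iff a⁻¹).2 (place_alg B hB a⁻¹ ((kb k K).inv_mem ha))
  have h3 : B.valuation a * B.valuation a⁻¹ = 1 := by
    rw [← map_mul, mul_inv_cancel₀ h0, map_one]
  apply le_antisymm h1
  by_contra h
  push Not at h
  have h4 : B.valuation a * B.valuation a⁻¹ < 1 := mul_lt_one_of_lt_of_le h h2
  exact absurd h3 h4.ne

/-- `σ a - a` is in the maximal ideal and algebraic over `k`, hence `0` (`σ a` is algebraic
over `k` because `σ` is the identity on `k ⊆ K`). -/
theorem inert_alg (B : ValuationSubring (Om K)) (hB : IsPlace k K B) (σ : Om K ≃ₐ[K] Om K)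
    (hσ : IsInert K B σ) (a : Om K) (ha : a ∈ kb k K) : σ a = a := by
  have h1 : σ a ∈ kb k K := by
    have h := (mem_algebraicClosure_iff').1 ha
    exact (mem_algebraicClosure_iff').2 (h.map (σ.restrictScalars k))
  have h2 := hσ.2 a (place_alg B hB a ha)
  by_contra h
  have h3 : σ a - a ≠ 0 := sub_ne_zero.2 h
  have h4 := place_alg_val B hB (σ a - a) ((kb k K).sub_mem h1 ha) h3
  have h5 := (B.mem_nonunits_iff).1 h2
  exact absurd h4 h5.ne

theorem kb_le (a : Om K) (ha : a ∈ kb k K) : a ∈ Mnr k K :=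
  fun B hB σ hσ => inert_alg B hB σ hσ a ha

/-- Square roots: if `z² ∈ M` and at every place the value of `z` is the value of an element of
`M`, then `z ∈ M`. Proof: for `σ` in the inertia group of `B`, `σ z = ± z`; if `σ z = - z ≠ z`, take
`w ∈ M` with `|w| = |z| ≠ 0`; `u = z / w` is a unit of `B` and `σ u - u = - 2 u` is a unit
(`2 ∈ k`), a contradiction. -/
theorem sqrt_mem [CharZero k] (z : Om K) (hz : z ^ 2 ∈ Mnr k K)
    (h : ∀ B : ValuationSubring (Om K), IsPlace k K B →
      ∃ w ∈ Mnr k K, B.valuation z = B.valuation w) : z ∈ Mnr k K := by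
  intro B hB σ hσ
  by_cases hz0 : z = 0
  · rw [hz0, map_zero]
  have h1 : (σ z) ^ 2 = z ^ 2 := by
    rw [← map_pow]
    exact hz B hB σ hσ
  rcases sq_eq_sq_iff_eq_or_eq_neg.1 h1 with h2 | h2
  · exact h2
  exfalso
  obtain ⟨w, hw, hvw⟩ := h B hB
  have hvz : B.valuation z ≠ 0 := (Valuation.ne_zero_iff _).2 hz0
  have hw0 : w ≠ 0 := by
    intro h0
    rw [h0, map_zero] at hvw
    exact hvz hvw
  have hσw : σ w = w := hw B hB σ hσ
  have hvu : B.valuation (z / w) = 1 := by
    rw [map_div₀, hvw, div_self]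
    rwa [← hvw]
  have h3 : z / w ∈ B := (B.valuation_le_one_iff _).1 hvu.le
  have h4 := hσ.2 _ h3
  rw [map_div₀, h2, hσw, B.mem_nonunits_iff] at h4
  have h5 : -z / w - z / w = -(2 * (z / w)) := by ring
  rw [h5, Valuation.map_neg, map_mul, hvu, mul_one] at h4
  have h6 : (2 : Om K) ∈ kb k K := by
    have h := (kb k K).algebraMap_mem (2 : k)
    rwa [map_ofNat] at h
  have h7 : (2 : Om K) ≠ 0 := by
    have h : algebraMap k (Om K) 2 ≠ 0 := by
      rw [Ne, map_eq_zero]
      exact two_ne_zero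
    rwa [map_ofNat] at h
  exact absurd (place_alg_val B hB 2 h6 h7) h4.ne

end SEC
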