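import Pool.Agent.MP_c1dca2_ag.SEC.M1

set_option autoImplicit false

open Polynomial

namespace SEC

variable {k K : Type} [Field k] [Field K] [Algebra k K]

/-! ## [SEC-M4] Kummer theory for sections (file M4.lean; uses M1) -/

/-- `k^alg / k` is Galois -/
theorem m4_isGalois [CharZero k] : IsGalois k (kb k K) := by
  have : IsAlgClosure k (kb k K) := algebraicClosure.isAlgClosure k (Om K)
  infer_instance

/-- infinite Galois theory for `k^alg / k` -/
theorem mem_of_fixed [CharZero k] (E : IntermediateField k (kb k K)) (η : kb k K)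
    (h : ∀ σ ∈ E.fixingSubgroup, σ η = η) : η ∈ E := by
  have : IsGalois k (kb k K) := m4_isGalois
  have h1 : η ∈ IntermediateField.fixedField E.fixingSubgroup := by
    rw [IntermediateField.mem_fixedField_iff]
    exact h
  rwa [InfiniteGalois.fixedField_fixingSubgroup] at h1

/-- the subgroup of the elements of `Gal(k^alg / E)` which fix `z` through `s` -/
noncomputable def m4_stab (s : Sect k K) (E : IntermediateField k (kb k K)) (z : Mnr k K) :
    Subgroup (kb k K ≃ₐ[k] kb k K) :=
  E.fixingSubgroup ⊓ ((IntermediateField.adjoin K {z}).fixingSubgroup.comap s.toHom)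

theorem m4_mem_stab (s : Sect k K) (E : IntermediateField k (kb k K)) (z : Mnr k K)
    (σ : kb k K ≃ₐ[k] kb k K) :
    σ ∈ m4_stab s E z ↔ σ ∈ E.fixingSubgroup ∧ s.toHom σ z = z := by
  rw [m4_stab, Subgroup.mem_inf, Subgroup.mem_comap]
  refine and_congr_right fun _ => ?_
  rw [IntermediateField.mem_fixingSubgroup_iff]
  constructor
  · intro h
    exact h z (IntermediateField.mem_adjoin_simple_self K z)
  · intro h x hx
    have h1 : IntermediateField.adjoin K {z} ≤
        IntermediateField.fixedField (Subgroup.zpowers (s.toHom σ)) := by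
      rw [IntermediateField.adjoin_le_iff]
      rintro y hy
      rw [Set.mem_singleton_iff] at hy
      subst hy
      rw [SetLike.mem_coe, IntermediateField.mem_fixedField_iff]
      intro g hg
      have h2 : Subgroup.zpowers (s.toHom σ) ≤ MulAction.stabilizer _ y := by
        rw [Subgroup.zpowers_le]
        exact h
      exact h2 hg
    have h3 := h1 hx
    rw [IntermediateField.mem_fixedField_iff] at h3
    exact h3 _ (Subgroup.mem_zpowers _)

theorem m4_isClosed [CharZero k] (s : Sect k K) (E : IntermediateField k (kb k K))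
    (z : Mnr k K) : IsClosed (m4_stab s E z : Set (kb k K ≃ₐ[k] kb k K)) := by
  have : IsGalois k (kb k K) := m4_isGalois
  have hz : IsIntegral K z := (Algebra.IsAlgebraic.isAlgebraic (R := K) z).isIntegral
  have : FiniteDimensional K (IntermediateField.adjoin K {z}) :=
    IntermediateField.adjoin.finiteDimensional hz
  have h1 : IsClosed ((IntermediateField.adjoin K {z}).fixingSubgroup :
      Set (Mnr k K ≃ₐ[K] Mnr k K)) := IntermediateField.fixingSubgroup_isClosed _
  have h2 : IsClosed (E.fixingSubgroup : Set (kb k K ≃ₐ[k] kb k K)) :=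
    InfiniteGalois.fixingSubgroup_isClosed E
  exact h2.inter (h1.preimage s.cont)

/-- An element `z ∈ M` on which `s(Gal(k^alg / E))` acts by signs behaves as the square root of an
element of `E`. Sketch: `H₀ = {σ ∈ Gal(k^alg / E) | s σ z = z}` is closed (`s` is continuous) of
index at most `2`. If the index is `1` take `η = 1`. Otherwise let `σ₁ ∈ Gal(k^alg / E) \ H₀`; by
infinite Galois theory there is `t ∈ k^alg` fixed by `H₀` with `σ₁ t ≠ t`; put `η = t - σ₁ t`
(`σ₁² ∈ H₀`, `H₀` is normal in `Gal(k^alg / E)`). -/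
theorem kummer [CharZero k] (s : Sect k K) (E : IntermediateField k (kb k K)) (z : Mnr k K)
    (hz0 : z ≠ 0)
    (hz : ∀ σ ∈ E.fixingSubgroup, s.toHom σ z = z ∨ s.toHom σ z = -z) :
    ∃ η : kb k K, η ≠ 0 ∧ η ^ 2 ∈ E ∧ ∀ σ ∈ E.fixingSubgroup,
      (s.toHom σ z : Om K) * (η : Om K) = (z : Om K) * ((σ η : kb k K) : Om K) := by
  classical
  have : IsGalois k (kb k K) := m4_isGalois
  by_cases hall : ∀ σ ∈ E.fixingSubgroup, s.toHom σ z = z
  · refine ⟨1, one_ne_zero, ?_, ?_⟩
    · rw [one_pow]
      exact E.one_mem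
    · intro σ hσ
      rw [hall σ hσ, map_one]
  · push Not at hall
    obtain ⟨σ₁, hσ₁, hne⟩ := hall
    have hσ₁z : s.toHom σ₁ z = -z := (hz σ₁ hσ₁).resolve_left hne
    have hσ₁z' : s.toHom σ₁⁻¹ z = -z := by
      rw [map_inv]
      have h1 : (s.toHom σ₁)⁻¹ (s.toHom σ₁ z) = z := by
        rw [← AlgEquiv.mul_apply, inv_mul_cancel, AlgEquiv.one_apply]
      rw [hσ₁z, map_neg] at h1
      exact neg_eq_iff_eq_neg.1 h1
    let H₀ : ClosedSubgroup (kb k K ≃ₐ[k] kb k K) := ⟨m4_stab s E z, m4_isClosed s E z⟩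
    have hH₀ : ∀ σ, σ ∈ H₀.toSubgroup ↔ σ ∈ E.fixingSubgroup ∧ s.toHom σ z = z :=
      m4_mem_stab s E z
    have hnot : σ₁ ∉ (IntermediateField.fixedField H₀.toSubgroup).fixingSubgroup := by
      rw [InfiniteGalois.fixingSubgroup_fixedField]
      intro h
      exact hne ((hH₀ σ₁).1 h).2
    rw [IntermediateField.mem_fixingSubgroup_iff] at hnot
    push Not at hnot
    obtain ⟨t, ht, htne⟩ := hnot
    rw [IntermediateField.mem_fixedField_iff] at ht
    have hfix : ∀ σ ∈ E.fixingSubgroup, s.toHom σ z = z → σ (t - σ₁ t) = t - σ₁ t := by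
      intro σ hσ hσz
      have h1 : σ t = t := ht σ ((hH₀ σ).2 ⟨hσ, hσz⟩)
      have h2 : (σ₁⁻¹ * σ * σ₁) t = t := by
        apply ht
        rw [hH₀]
        refine ⟨mul_mem (mul_mem (inv_mem hσ₁) hσ) hσ₁, ?_⟩
        rw [map_mul, map_mul, AlgEquiv.mul_apply, AlgEquiv.mul_apply, hσ₁z, map_neg, hσz,
          map_neg, hσ₁z', neg_neg]
      have h3 : σ (σ₁ t) = σ₁ t := by
        have := congrArg σ₁ h2
        rw [← AlgEquiv.mul_apply, mul_assoc, mul_inv_cancel_left, AlgEquiv.mul_apply] at this
        exact this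
      rw [map_sub, h1, h3]
    have hneg : ∀ σ ∈ E.fixingSubgroup, s.toHom σ z = -z → σ (t - σ₁ t) = -(t - σ₁ t) := by
      intro σ hσ hσz
      have h1 : (σ₁⁻¹ * σ) t = t := by
        apply ht
        rw [hH₀]
        refine ⟨mul_mem (inv_mem hσ₁) hσ, ?_⟩
        rw [map_mul, AlgEquiv.mul_apply, hσz, map_neg, hσ₁z', neg_neg]
      have h2 : (σ * σ₁) t = t := by
        apply ht
        rw [hH₀]
        refine ⟨mul_mem hσ hσ₁, ?_⟩
        rw [map_mul, AlgEquiv.mul_apply, hσ₁z, map_neg, hσz, neg_neg]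
      have h3 : σ t = σ₁ t := by
        have := congrArg σ₁ h1
        rwa [← AlgEquiv.mul_apply, mul_inv_cancel_left] at this
      rw [AlgEquiv.mul_apply] at h2
      rw [map_sub, h2, h3]
      ring
    refine ⟨t - σ₁ t, sub_ne_zero.2 (Ne.symm htne), ?_, ?_⟩
    · apply mem_of_fixed
      intro σ hσ
      rw [map_pow]
      rcases hz σ hσ with h | h
      · rw [hfix σ hσ h]
      · rw [hneg σ hσ h, neg_sq]
    · intro σ hσ
      rcases hz σ hσ with h | h
      · rw [hfix σ hσ h, h]
      · rw [hneg σ hσ h, h]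
        push_cast
        ring

end SEC
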