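import Pool.Agent.MP_c1dca2_ag.SEC.M1

set_option autoImplicit false

open Polynomial

namespace SEC

variable {k K : Type} [Field k] [Field K] [Algebra k K]

/-! ## [SEC-M2] values of polynomials at places (file M2.lean; uses M1) -/

theorem m2_coeff (B : ValuationSubring (Om K)) (hB : IsPlace k K B) (a : kb k K) :
    B.valuation (algebraMap (kb k K) (Om K) a) ≤ 1 :=
  (B.valuation_le_one_iff _).2 (place_alg B hB _ a.2)

theorem m2_coeff_one (B : ValuationSubring (Om K)) (hB : IsPlace k K B) (a : kb k K)
    (ha : a ≠ 0) : B.valuation (algebraMap (kb k K) (Om K) a) = 1 :=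
  place_alg_val B hB _ a.2 (fun h => ha (Subtype.ext h))

theorem val_aeval_le (B : ValuationSubring (Om K)) (hB : IsPlace k K B) (x : Om K)
    (hx : B.valuation x ≤ 1) (P : (kb k K)[X]) : B.valuation (aeval x P) ≤ 1 := by
  rw [aeval_eq_sum_range]
  apply Valuation.map_sum_le
  intro i _
  rw [Algebra.smul_def, map_mul, map_pow]
  exact mul_le_one' (m2_coeff B hB _) (pow_le_one' hx i)

/-- The coefficients of `P` are `0` or units, so the leading term dominates. -/
theorem val_aeval_big (B : ValuationSubring (Om K)) (hB : IsPlace k K B) (x : Om K)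
    (hx : 1 < B.valuation x) (P : (kb k K)[X]) (hP : P ≠ 0) :
    B.valuation (aeval x P) = B.valuation x ^ P.natDegree := by
  rw [aeval_eq_sum_range, Finset.sum_range_succ]
  have hlead : B.valuation (P.coeff P.natDegree • x ^ P.natDegree) =
      B.valuation x ^ P.natDegree := by
    rw [Algebra.smul_def, map_mul, map_pow, m2_coeff_one B hB _ (by
      rw [coeff_natDegree]; exact leadingCoeff_ne_zero.2 hP), one_mul]
  have hpos : 0 < B.valuation x := zero_lt_one.trans hx
  have hrest : B.valuation (∑ i ∈ Finset.range P.natDegree, P.coeff i • x ^ i) <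
      B.valuation x ^ P.natDegree := by
    apply Valuation.map_sum_lt _ (pow_ne_zero _ hpos.ne')
    intro i hi
    rw [Algebra.smul_def, map_mul, map_pow]
    calc B.valuation (algebraMap (kb k K) (Om K) (P.coeff i)) * B.valuation x ^ i
        ≤ 1 * B.valuation x ^ i := mul_le_mul_left (m2_coeff B hB _) _
      _ = B.valuation x ^ i := one_mul _
      _ < B.valuation x ^ P.natDegree := pow_lt_pow_right₀ hx (Finset.mem_range.1 hi)
  rw [← hlead] at hrest ⊢
  exact Valuation.map_add_eq_of_lt_right _ hrest

/-- `U P + V Q = 1`. -/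
theorem val_cop (B : ValuationSubring (Om K)) (hB : IsPlace k K B) (x : Om K)
    (hx : B.valuation x ≤ 1) (P Q : (kb k K)[X]) (h : IsCoprime P Q)
    (hP : B.valuation (aeval x P) < 1) : B.valuation (aeval x Q) = 1 := by
  obtain ⟨U, V, hUV⟩ := h
  have h1 : aeval x U * aeval x P + aeval x V * aeval x Q = 1 := by
    rw [← map_mul, ← map_mul, ← map_add, hUV, map_one]
  apply le_antisymm (val_aeval_le B hB x hx Q)
  by_contra hQ
  push Not at hQ
  have h2 : B.valuation (aeval x U * aeval x P) < 1 := by
    rw [map_mul]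
    exact lt_of_le_of_lt (mul_le_of_le_one_left' (val_aeval_le B hB x hx U)) hP
  have h3 : B.valuation (aeval x V * aeval x Q) < 1 := by
    rw [map_mul]
    exact lt_of_le_of_lt (mul_le_of_le_one_left' (val_aeval_le B hB x hx V)) hQ
  have h4 := Valuation.map_add_lt B.valuation h2 h3
  rw [h1, map_one] at h4
  exact lt_irrefl _ h4

/-- `f = H G` with `H`, `G` coprime (`f` is separable); if `|x| ≤ 1` and `|H(x)| < 1` then
`|G(x)| = 1` and `|y|² = |c| |H(x)| |G(x)| = |H(x)|`. -/
theorem val_factor (B : ValuationSubring (Om K)) (hB : IsPlace k K B) (f : k[X])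
    (hf : f.Separable) (c : k) (hc : c ≠ 0) (x y : K)
    (hxy : y ^ 2 = algebraMap k K c * aeval x f) (H : (kb k K)[X])
    (hH : H ∣ f.map (algebraMap k (kb k K))) :
    (B.valuation (algebraMap K (Om K) x) ≤ 1 ∧
      (B.valuation (aeval (algebraMap K (Om K) x) H) = 1 ∨
        B.valuation (aeval (algebraMap K (Om K) x) H) =
          B.valuation (algebraMap K (Om K) y) ^ 2)) ∨
    (1 < B.valuation (algebraMap K (Om K) x) ∧
      B.valuation (aeval (algebraMap K (Om K) x) H) =
        B.valuation (algebraMap K (Om K) x) ^ H.natDegree) := by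
  obtain ⟨G, hG⟩ := hH
  have hsep : (H * G).Separable := by
    rw [← hG]
    exact hf.map
  have hf0 : f.map (algebraMap k (kb k K)) ≠ 0 := (hf.map).ne_zero
  have hH0 : H ≠ 0 := by
    rintro rfl
    rw [zero_mul] at hG
    exact hf0 hG
  rcases le_or_gt (B.valuation (algebraMap K (Om K) x)) 1 with hx | hx
  · left
    refine ⟨hx, ?_⟩
    rcases (val_aeval_le B hB _ hx H).lt_or_eq with h1 | h1
    · right
      have h2 := val_cop B hB _ hx H G hsep.isCoprime h1
      have h3 : (algebraMap K (Om K) y) ^ 2 = algebraMap k (Om K) c *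
          (aeval (algebraMap K (Om K) x) H * aeval (algebraMap K (Om K) x) G) := by
        rw [← map_pow, hxy, map_mul, ← IsScalarTower.algebraMap_apply, ← aeval_algebraMap_apply,
          ← map_mul, ← hG, aeval_map_algebraMap]
      have h4 : B.valuation (algebraMap k (Om K) c) = 1 := by
        have h := m2_coeff_one B hB (algebraMap k (kb k K) c) (by
          rw [Ne, map_eq_zero]; exact hc)
        rwa [← IsScalarTower.algebraMap_apply] at h
      rw [← map_pow, h3, map_mul, map_mul, h4, h2, one_mul, mul_one]
    · left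
      exact h1
  · right
    exact ⟨hx, val_aeval_big B hB _ hx H hH0⟩

end SEC
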