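import Pool.Agent.MP_c1dca2_ag.SEC.M4

set_option autoImplicit false

open Polynomial

namespace SEC

variable {k K : Type} [Field k] [Field K] [Algebra k K]

/-! ## [SEC-M5] the norm lemma (file M5.lean; uses M1, M4) -/

/-- the inclusion of `k^alg` in `M` -/
noncomputable def m5_iota : kb k K →+* Mnr k K where
  toFun a := ⟨(a : Om K), kb_le (a : Om K) a.2⟩
  map_one' := by ext; simp
  map_mul' x y := by ext; simp
  map_zero' := by ext; simp
  map_add' x y := by ext; simp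

theorem m5_iota_coe (a : kb k K) : ((m5_iota a : Mnr k K) : Om K) = (a : Om K) := rfl

theorem m5_split (s : Sect k K) (τ : kb k K ≃ₐ[k] kb k K) (a : kb k K) :
    s.toHom τ (m5_iota a) = m5_iota (τ a) := by
  apply Subtype.ext
  exact s.split τ a (kb_le (a : Om K) a.2)

theorem m5_mul (s : Sect k K) (σ τ : kb k K ≃ₐ[k] kb k K) (z : Mnr k K) :
    s.toHom (σ * τ) z = s.toHom σ (s.toHom τ z) := by
  rw [map_mul]; rfl

/-- Two elements `w, w'` exchanged by `Gal(k^alg / E)` according to the action on `α`. -/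
theorem m5_decomp [CharZero k] (E : IntermediateField k (kb k K))
    (α : kb k K) (a : k) (hα : α ^ 2 = algebraMap k (kb k K) a) (hα0 : α ≠ 0)
    (σ₀ : kb k K ≃ₐ[k] kb k K) (hσ₀ : σ₀ ∈ E.fixingSubgroup) (hσ₀α : σ₀ α = -α)
    (w : kb k K) (hw : ∀ σ ∈ E.fixingSubgroup, σ α = α → σ w = w) :
    ∃ X ∈ E, ∃ Y ∈ E, w = X + Y * α ∧ σ₀ w = X - Y * α := by
  have h2 : (2 : kb k K) ≠ 0 := by
    have : CharZero (kb k K) := charZero_of_injective_algebraMap (algebraMap k (kb k K)).injective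
    exact two_ne_zero
  have hpm : ∀ σ : kb k K ≃ₐ[k] kb k K, σ α = α ∨ σ α = -α := by
    intro σ
    have : (σ α) ^ 2 = α ^ 2 := by
      rw [← map_pow, hα, AlgEquiv.commutes]
    exact sq_eq_sq_iff_eq_or_eq_neg.1 this
  -- the action on `w`
  have h1 : ∀ σ ∈ E.fixingSubgroup, σ α = α → σ w = w ∧ σ (σ₀ w) = σ₀ w := by
    intro σ hσ hσα
    refine ⟨hw σ hσ hσα, ?_⟩
    have h3 : (σ₀⁻¹ * σ * σ₀) w = w := by
      apply hw _ (mul_mem (mul_mem (inv_mem hσ₀) hσ) hσ₀)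
      have h5 : σ₀⁻¹ (-α) = α := by
        rw [AlgEquiv.aut_inv, AlgEquiv.symm_apply_eq]; exact hσ₀α.symm
      rw [AlgEquiv.mul_apply, AlgEquiv.mul_apply, hσ₀α, map_neg, hσα, h5]
    rw [AlgEquiv.mul_apply, AlgEquiv.mul_apply, AlgEquiv.aut_inv, AlgEquiv.symm_apply_eq] at h3
    exact h3
  have h1' : ∀ σ ∈ E.fixingSubgroup, σ α = -α → σ w = σ₀ w ∧ σ (σ₀ w) = w := by
    intro σ hσ hσα
    constructor
    · have h3 : (σ₀⁻¹ * σ) w = w := by
        apply hw _ (mul_mem (inv_mem hσ₀) hσ)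
        have h5 : σ₀⁻¹ (-α) = α := by
          rw [AlgEquiv.aut_inv, AlgEquiv.symm_apply_eq]; exact hσ₀α.symm
        rw [AlgEquiv.mul_apply, hσα, h5]
      rw [AlgEquiv.mul_apply, AlgEquiv.aut_inv, AlgEquiv.symm_apply_eq] at h3
      exact h3
    · have h3 : (σ * σ₀) w = w := by
        apply hw _ (mul_mem hσ hσ₀)
        rw [AlgEquiv.mul_apply, hσ₀α, map_neg, hσα, neg_neg]
      rw [AlgEquiv.mul_apply] at h3
      exact h3
  refine ⟨(w + σ₀ w) / 2, ?_, (w - σ₀ w) / (2 * α), ?_, ?_, ?_⟩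
  · apply mem_of_fixed
    intro σ hσ
    rw [map_div₀, map_add, map_ofNat]
    rcases hpm σ with h | h
    · obtain ⟨h3, h4⟩ := h1 σ hσ h
      rw [h3, h4]
    · obtain ⟨h3, h4⟩ := h1' σ hσ h
      rw [h3, h4, add_comm]
  · apply mem_of_fixed
    intro σ hσ
    rw [map_div₀, map_sub, map_mul, map_ofNat]
    rcases hpm σ with h | h
    · obtain ⟨h3, h4⟩ := h1 σ hσ h
      rw [h3, h4, h]
    · obtain ⟨h3, h4⟩ := h1' σ hσ h
      rw [h3, h4, h, mul_neg, div_neg, ← neg_div, neg_sub]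
  · field_simp; ring
  · field_simp; ring

/-- Sketch. Apply `kummer` to `r` and the field `E' = E(α)` (`σ ∈ E'.fixingSubgroup` iff
`σ ∈ E.fixingSubgroup` and `σ α = α`): `η`, `η² = X + Y α` with `X, Y ∈ E`. Then `t = r / η ∈ M` is fixed by
`s(Gal(k^alg / E'))`, `T = t · s(σ₀) t` is fixed by `s(Gal(k^alg / E))` (normal subgroup of index `2`),
and with `N = η · σ₀ η` one has `T N = r · s(σ₀) r = u g`. For `σ ∈ Gal(k^alg / E)`:
`T · σ N · δ = s(σ)(u g) δ = u · σ δ · g = T N · σ δ`, so `z = N / δ` is fixed by `Gal(k^alg / E)`, `z ∈ E`, and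
`d z² = N² = η² σ₀(η²) = (X + Y α)(X - Y α) = X² - a Y²`. -/
theorem norm_lemma [CharZero k] (s : Sect k K) (E : IntermediateField k (kb k K))
    (α : kb k K) (a : k) (hα : α ^ 2 = algebraMap k (kb k K) a) (hα0 : α ≠ 0)
    (σ₀ : kb k K ≃ₐ[k] kb k K) (hσ₀ : σ₀ ∈ E.fixingSubgroup) (hσ₀α : σ₀ α = -α)
    (r u g : Mnr k K) (hr0 : r ≠ 0)
    (hr : ∀ σ ∈ E.fixingSubgroup, σ α = α → s.toHom σ r = r ∨ s.toHom σ r = -r)
    (δ : kb k K) (hδ0 : δ ≠ 0) (d : k) (hd : δ ^ 2 = algebraMap k (kb k K) d)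
    (hu : ∀ σ, (s.toHom σ u : Om K) * (δ : Om K) = (u : Om K) * ((σ δ : kb k K) : Om K))
    (hg : ∀ σ ∈ E.fixingSubgroup, s.toHom σ g = g)
    (hru : r * s.toHom σ₀ r = u * g) :
    ∃ X ∈ E, ∃ Y ∈ E, ∃ z ∈ E, z ≠ 0 ∧
      X ^ 2 - algebraMap k (kb k K) a * Y ^ 2 = algebraMap k (kb k K) d * z ^ 2 := by
  -- the field `E' = E(α)`
  set E' : IntermediateField k (kb k K) := E ⊔ IntermediateField.adjoin k {α} with hE'
  have hmem : ∀ σ : kb k K ≃ₐ[k] kb k K, σ ∈ E'.fixingSubgroup ↔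
      (σ ∈ E.fixingSubgroup ∧ σ α = α) := by
    intro σ
    rw [hE', IntermediateField.fixingSubgroup_sup, Subgroup.mem_inf]
    apply and_congr_right
    intro _
    rw [IntermediateField.mem_fixingSubgroup_iff]
    constructor
    · intro h
      exact h α (IntermediateField.mem_adjoin_simple_self k α)
    · intro h x hx
      induction hx using IntermediateField.adjoin_induction with
      | mem x hx =>
        rw [Set.mem_singleton_iff] at hx
        rw [hx]; exact h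
      | algebraMap x => exact σ.commutes x
      | add x y _ _ hx hy => rw [map_add, hx, hy]
      | inv x _ hx => rw [map_inv₀, hx]
      | mul x y _ _ hx hy => rw [map_mul, hx, hy]
  have hpm : ∀ σ : kb k K ≃ₐ[k] kb k K, σ α = α ∨ σ α = -α := by
    intro σ
    have : (σ α) ^ 2 = α ^ 2 := by
      rw [← map_pow, hα, AlgEquiv.commutes]
    exact sq_eq_sq_iff_eq_or_eq_neg.1 this
  obtain ⟨η, hη0, hηE, hη⟩ := kummer s E' r hr0 (by
    intro σ hσ
    rw [hmem] at hσ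
    exact hr σ hσ.1 hσ.2)
  have hη' : ∀ σ ∈ E'.fixingSubgroup, s.toHom σ r * m5_iota η = r * m5_iota (σ η) := by
    intro σ hσ
    apply Subtype.ext
    exact hη σ hσ
  have hu' : ∀ σ, s.toHom σ u * m5_iota δ = u * m5_iota (σ δ) := by
    intro σ
    apply Subtype.ext
    exact hu σ
  have hinj : ∀ x : kb k K, x ≠ 0 → (m5_iota x : Mnr k K) ≠ 0 := by
    intro x hx h
    exact hx ((map_eq_zero m5_iota).1 h)
  have hσ0 : ∀ (σ : kb k K ≃ₐ[k] kb k K) (x : kb k K), x ≠ 0 → σ x ≠ 0 := by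
    intro σ x hx h
    exact hx ((map_eq_zero σ).1 h)
  set t : Mnr k K := r / m5_iota η with ht
  have ht0 : t ≠ 0 := div_ne_zero hr0 (hinj η hη0)
  have htfix : ∀ σ ∈ E'.fixingSubgroup, s.toHom σ t = t := by
    intro σ hσ
    rw [ht, map_div₀, m5_split, div_eq_div_iff (hinj _ (hσ0 σ η hη0)) (hinj _ hη0), hη' σ hσ]
  set T : Mnr k K := t * s.toHom σ₀ t with hT
  have hT0 : T ≠ 0 := by
    apply mul_ne_zero ht0
    intro h
    exact ht0 ((map_eq_zero (s.toHom σ₀)).1 h)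
  have hinv : σ₀⁻¹ (-α) = α := by
    rw [AlgEquiv.aut_inv, AlgEquiv.symm_apply_eq]; exact hσ₀α.symm
  have hback : ∀ σ : kb k K ≃ₐ[k] kb k K, ∀ z : Mnr k K,
      s.toHom σ z = s.toHom σ₀ (s.toHom (σ₀⁻¹ * σ) z) := by
    intro σ z
    rw [← m5_mul, mul_inv_cancel_left]
  have hTfix : ∀ σ ∈ E.fixingSubgroup, s.toHom σ T = T := by
    intro σ hσ
    rw [hT, map_mul]
    rcases hpm σ with h | h
    · have h1 : s.toHom σ t = t := htfix σ ((hmem σ).2 ⟨hσ, h⟩)
      have h2 : s.toHom σ (s.toHom σ₀ t) = s.toHom σ₀ t := by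
        rw [hback σ, ← m5_mul s (σ₀⁻¹ * σ) σ₀]
        congr 1
        apply htfix
        rw [hmem]
        refine ⟨mul_mem (mul_mem (inv_mem hσ₀) hσ) hσ₀, ?_⟩
        rw [AlgEquiv.mul_apply, AlgEquiv.mul_apply, hσ₀α, map_neg, h, hinv]
      rw [h1, h2]
    · have h1 : s.toHom σ t = s.toHom σ₀ t := by
        rw [hback σ]
        congr 1
        apply htfix
        rw [hmem]
        refine ⟨mul_mem (inv_mem hσ₀) hσ, ?_⟩
        rw [AlgEquiv.mul_apply, h, hinv]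
      have h2 : s.toHom σ (s.toHom σ₀ t) = t := by
        rw [← m5_mul]
        apply htfix
        rw [hmem]
        refine ⟨mul_mem hσ hσ₀, ?_⟩
        rw [AlgEquiv.mul_apply, hσ₀α, map_neg, h, neg_neg]
      rw [h1, h2, mul_comm]
  set N : kb k K := η * σ₀ η with hN
  have hN0 : N ≠ 0 := mul_ne_zero hη0 (hσ0 σ₀ η hη0)
  have htη : t * m5_iota η = r := by
    rw [ht, div_mul_cancel₀ _ (hinj η hη0)]
  have hTN : T * m5_iota N = u * g := by
    rw [hT, hN, map_mul, ← m5_split s σ₀ η]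
    calc t * s.toHom σ₀ t * (m5_iota η * s.toHom σ₀ (m5_iota η))
        = (t * m5_iota η) * s.toHom σ₀ (t * m5_iota η) := by rw [map_mul]; ring
      _ = u * g := by rw [htη, hru]
  obtain ⟨X, hX, Y, hY, hw1, hw2⟩ := m5_decomp E α a hα hα0 σ₀ hσ₀ hσ₀α (η ^ 2) (by
    intro σ hσ hσα
    have h1 : σ ∈ E'.fixingSubgroup := (hmem σ).2 ⟨hσ, hσα⟩
    rw [IntermediateField.mem_fixingSubgroup_iff] at h1
    exact h1 _ hηE)
  refine ⟨X, hX, Y, hY, N / δ, ?_, div_ne_zero hN0 hδ0, ?_⟩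
  · apply mem_of_fixed
    intro σ hσ
    have h1 : s.toHom σ (T * m5_iota N) = s.toHom σ u * g := by
      rw [hTN, map_mul, hg σ hσ]
    rw [map_mul, hTfix σ hσ, m5_split] at h1
    have h2 : T * (m5_iota (σ N) * m5_iota δ) = T * (m5_iota N * m5_iota (σ δ)) := by
      calc T * (m5_iota (σ N) * m5_iota δ) = (T * m5_iota (σ N)) * m5_iota δ := by ring
        _ = (s.toHom σ u * m5_iota δ) * g := by rw [h1]; ring
        _ = (u * g) * m5_iota (σ δ) := by rw [hu' σ]; ring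
        _ = T * (m5_iota N * m5_iota (σ δ)) := by rw [← hTN]; ring
    have h3 := mul_left_cancel₀ hT0 h2
    rw [← map_mul, ← map_mul] at h3
    have h4 : σ N * δ = N * σ δ := m5_iota.injective h3
    rw [map_div₀, div_eq_div_iff (hσ0 σ δ hδ0) hδ0, h4]
  · have h1 : N ^ 2 = X ^ 2 - algebraMap k (kb k K) a * Y ^ 2 := by
      calc N ^ 2 = η ^ 2 * σ₀ (η ^ 2) := by rw [hN, map_pow]; ring
        _ = (X + Y * α) * (X - Y * α) := by rw [hw2, ← hw1]
        _ = X ^ 2 - α ^ 2 * Y ^ 2 := by ring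
        _ = _ := by rw [hα]
    rw [← h1, ← hd]
    field_simp

end SEC
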