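import Pool.Agent.MP_c1dca2_ag.SEC.M2

set_option autoImplicit false

open Polynomial

namespace SEC

variable {k K : Type} [Field k] [Field K] [Algebra k K]

/-! ## [SEC-M3] square roots of functions with even divisor (file M3.lean; uses M1, M2) -/

theorem aeval_ne_zero (x : K) (hx : Transcendental k x) (H : (kb k K)[X]) (hH : H ≠ 0) :
    aeval (algebraMap K (Om K) x) H ≠ 0 := by
  intro h0
  have h1 : IsAlgebraic (kb k K) (algebraMap K (Om K) x) := ⟨H, hH, h0⟩
  have : Algebra.IsAlgebraic k (kb k K) := inferInstance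
  have h2 : IsAlgebraic k (algebraMap K (Om K) x) := h1.restrictScalars k
  rw [isAlgebraic_algebraMap_iff (FaithfulSMul.algebraMap_injective K (Om K))] at h2
  exact hx h2

theorem m3_x_mem (x : K) : algebraMap K (Om K) x ∈ Mnr k K :=
  (Mnr k K).algebraMap_mem x

theorem aeval_mem_Mnr (x : K) (H : (kb k K)[X]) :
    aeval (algebraMap K (Om K) x) H ∈ Mnr k K := by
  rw [aeval_eq_sum_range]
  refine sum_mem fun i _ => ?_
  rw [Algebra.smul_def]
  exact mul_mem (kb_le _ (H.coeff i).2) (pow_mem (m3_x_mem x) i)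

theorem m3_pow {Γ : Type*} [CommGroupWithZero Γ] (v : Γ) (hv : v ≠ 0) (m₁ m₂ : ℕ) :
    v ^ (2 * m₁ + 1) = (v ^ m₁ * (v ^ m₂)⁻¹) ^ 2 * v ^ (2 * m₂ + 1) := by
  have h : v ^ (m₂ * 2) ≠ 0 := pow_ne_zero _ hv
  rw [mul_pow, inv_pow, ← pow_mul, ← pow_mul, pow_succ v (2 * m₂), mul_comm 2 m₂, mul_assoc,
    inv_mul_cancel_left₀ h, ← pow_succ, mul_comm 2 m₁]

theorem m3_sq_inj {Γ : Type*} [LinearOrderedCommGroupWithZero Γ] {a b : Γ} (h : a ^ 2 = b ^ 2) :
    a = b :=
  (pow_left_inj₀ zero_le zero_le two_ne_zero).1 h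

/-- `sqrt_mem` with `w = 1`, `y` or `x ^ (deg H / 2)` (`val_factor`). -/
theorem sqrt_even [CharZero k] (f : k[X]) (hf : f.Separable) (c : k) (hc : c ≠ 0) (x y : K)
    (hxy : y ^ 2 = algebraMap k K c * aeval x f) (H : (kb k K)[X])
    (hH : H ∣ f.map (algebraMap k (kb k K))) (hd : Even H.natDegree) (z : Om K)
    (hz : z ^ 2 = aeval (algebraMap K (Om K) x) H) : z ∈ Mnr k K := by
  apply sqrt_mem z
  · rw [hz]; exact aeval_mem_Mnr x H
  · intro B hB
    have hzv : B.valuation z ^ 2 = B.valuation (aeval (algebraMap K (Om K) x) H) := by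
      rw [← map_pow, hz]
    rcases val_factor B hB f hf c hc x y hxy H hH with ⟨_, h | h⟩ | ⟨_, h⟩
    · refine ⟨1, one_mem _, ?_⟩
      apply m3_sq_inj
      rw [hzv, h, map_one, one_pow]
    · refine ⟨algebraMap K (Om K) y, m3_x_mem y, ?_⟩
      apply m3_sq_inj
      rw [hzv, h]
    · obtain ⟨m, hm⟩ := hd
      refine ⟨algebraMap K (Om K) x ^ m, pow_mem (m3_x_mem x) m, ?_⟩
      apply m3_sq_inj
      rw [hzv, h, hm, map_pow, ← pow_mul, mul_two]

/-- `sqrt_mem` with `w = 1`, `y`, `y⁻¹` or `x ^ ((deg H₁ - 1) / 2) / x ^ ((deg H₂ - 1) / 2)`. -/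
theorem sqrt_quot [CharZero k] (f : k[X]) (hf : f.Separable) (c : k) (hc : c ≠ 0) (x y : K)
    (hx : Transcendental k x) (hxy : y ^ 2 = algebraMap k K c * aeval x f)
    (H₁ H₂ : (kb k K)[X]) (hH₁ : H₁ ∣ f.map (algebraMap k (kb k K)))
    (hH₂ : H₂ ∣ f.map (algebraMap k (kb k K))) (hd₁ : Odd H₁.natDegree)
    (hd₂ : Odd H₂.natDegree) (z : Om K)
    (hz : z ^ 2 * aeval (algebraMap K (Om K) x) H₂ = aeval (algebraMap K (Om K) x) H₁) :
    z ∈ Mnr k K := by
  have hf0 : f.map (algebraMap k (kb k K)) ≠ 0 := by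
    rw [Polynomial.map_ne_zero_iff (FaithfulSMul.algebraMap_injective k (kb k K))]
    exact hf.ne_zero
  have hH₂0 : H₂ ≠ 0 := ne_zero_of_dvd_ne_zero hf0 hH₂
  have hv2 : aeval (algebraMap K (Om K) x) H₂ ≠ 0 := aeval_ne_zero x hx H₂ hH₂0
  apply sqrt_mem z
  · have : z ^ 2 = aeval (algebraMap K (Om K) x) H₁ * (aeval (algebraMap K (Om K) x) H₂)⁻¹ := by
      rw [← hz]; field_simp
    rw [this]
    exact mul_mem (aeval_mem_Mnr x H₁) (inv_mem (aeval_mem_Mnr x H₂))
  · intro B hB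
    have hzv : B.valuation z ^ 2 * B.valuation (aeval (algebraMap K (Om K) x) H₂) =
        B.valuation (aeval (algebraMap K (Om K) x) H₁) := by
      rw [← map_pow, ← map_mul, hz]
    have hne : B.valuation (aeval (algebraMap K (Om K) x) H₂) ≠ 0 :=
      (Valuation.ne_zero_iff _).2 hv2
    rcases val_factor B hB f hf c hc x y hxy H₁ hH₁ with ⟨hx1, h1⟩ | ⟨hx1, h1⟩
    · rcases val_factor B hB f hf c hc x y hxy H₂ hH₂ with ⟨_, h2⟩ | ⟨hx2, _⟩
      · rcases h1 with h1 | h1 <;> rcases h2 with h2 | h2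
        · refine ⟨1, one_mem _, ?_⟩
          apply m3_sq_inj
          rw [h1, h2, mul_one] at hzv
          rw [hzv, map_one, one_pow]
        · refine ⟨(algebraMap K (Om K) y)⁻¹, inv_mem (m3_x_mem y), ?_⟩
          apply m3_sq_inj
          rw [h2] at hne
          rw [h1, h2] at hzv
          rw [map_inv₀, inv_pow]
          exact eq_inv_of_mul_eq_one_left hzv
        · refine ⟨algebraMap K (Om K) y, m3_x_mem y, ?_⟩
          apply m3_sq_inj
          rw [h1, h2, mul_one] at hzv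
          rw [hzv]
        · refine ⟨1, one_mem _, ?_⟩
          apply m3_sq_inj
          rw [h2] at hne
          rw [h1, h2] at hzv
          rw [map_one, one_pow]
          exact mul_right_cancel₀ hne (by rw [hzv, one_mul])
      · exact absurd hx1 (not_le.2 hx2)
    · rcases val_factor B hB f hf c hc x y hxy H₂ hH₂ with ⟨hx2, _⟩ | ⟨_, h2⟩
      · exact absurd hx2 (not_le.2 hx1)
      · obtain ⟨m₁, hm₁⟩ := hd₁
        obtain ⟨m₂, hm₂⟩ := hd₂
        have hx0 : B.valuation (algebraMap K (Om K) x) ≠ 0 := by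
          intro h0
          rw [h0] at hx1
          exact absurd hx1 (not_lt.2 zero_le)
        refine ⟨algebraMap K (Om K) x ^ m₁ * (algebraMap K (Om K) x ^ m₂)⁻¹,
          mul_mem (pow_mem (m3_x_mem x) m₁) (inv_mem (pow_mem (m3_x_mem x) m₂)), ?_⟩
        apply m3_sq_inj
        rw [h1, h2, hm₁, hm₂] at hzv
        rw [map_mul, map_inv₀, map_pow, map_pow]
        refine mul_right_cancel₀ (pow_ne_zero (2 * m₂ + 1) hx0) ?_
        rw [hzv]
        exact m3_pow _ hx0 m₁ m₂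

end SEC
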