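import Mathlib

/-!
# Grothendieck's section conjecture (MP_c1dca2_ag): the curves `y² = c f(x)`
-/

set_option autoImplicit false

open Polynomial

noncomputable section

namespace SEC

/-! ## The curves -/

/-- The three integers `p`, `q`, `p q`. -/
def aa (p q : ℕ) : Fin 3 → ℕ := ![p, q, p * q]

/-- The data of a polynomial `f = ∏ (A_i² - a_i B_i²)`, `a_i ∈ {p, q, p q}`. -/
structure Datum (k : Type) [Field k] where
  /-- the number of factors -/
  r : ℕ
  /-- the class of the `i`-th factor -/
  cl : Fin r → Fin 3
  /-- the polynomials `A_i` -/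
  A : Fin r → k[X]
  /-- the polynomials `B_i` -/
  B : Fin r → k[X]

namespace Datum

variable {k : Type} [Field k] (D : Datum k) (p q : ℕ)

/-- The factor `A_i² - a_i B_i²`. -/
def fac (i : Fin D.r) : k[X] :=
  D.A i ^ 2 - C ((aa p q (D.cl i) : ℕ) : k) * D.B i ^ 2

/-- The polynomial `f`. -/
def f : k[X] := ∏ i, D.fac p q i

/-- The degree of `h_i = A_i - √a_i B_i` (half of the degree of the factor). -/
def n (i : Fin D.r) : ℕ := max (D.A i).natDegree (D.B i).natDegree

/-- The conditions: `f` is separable of degree at least `6` (so that the genus is at least `2`),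
and either all `h_i` have even degree, or each of the classes `p`, `q`, `p q` contains an `h_i` of
odd degree. -/
structure Good : Prop where
  sep : (D.f p q).Separable
  deg : 6 ≤ (D.f p q).natDegree
  par : (∀ i, Even (D.n i)) ∨ ∀ t : Fin 3, ∃ i, D.cl i = t ∧ Odd (D.n i)

/-- For each of the three classes some `h_i` has a root in `k(√a_i)`:
`(x - u)² - a_i w²` divides the factor. -/
def HasRoots : Prop :=
  ∀ t : Fin 3, ∃ i, D.cl i = t ∧ ∃ u w : k,
    (X - C u) ^ 2 - C (((aa p q t : ℕ) : k) * w ^ 2) ∣ D.fac p q i

end Datum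

/-- The norm of `c` has odd valuation at some odd prime number. -/
def OddNorm (k : Type) [Field k] [NumberField k] (c : k) : Prop :=
  c ≠ 0 ∧ ∃ l : ℕ, l.Prime ∧ l ≠ 2 ∧ Odd (padicValRat l (Algebra.norm ℚ c))

open NumberField IsDedekindDomain

/-- `Y² = F(X)` has a solution in every completion of the number field `k`. -/
def LocallySoluble (k : Type) [Field k] [NumberField k] (F : k[X]) : Prop :=
  (∀ v : HeightOneSpectrum (𝓞 k), ∃ X Y : v.adicCompletion k,
    Y ^ 2 = eval X (F.map (algebraMap k (v.adicCompletion k)))) ∧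
  ∀ v : InfinitePlace k, ∃ X Y : v.Completion,
    Y ^ 2 = eval X (F.map (algebraMap k v.Completion))

end SEC
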