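import Pool.Agent.MP_c1dca2_ag.SEC.Defs

set_option autoImplicit false

open Polynomial NumberField IsDedekindDomain

namespace SEC

/-! ## [SEC-L1] one of `p`, `q`, `p q` is a square in every completion (file L1.lean) -/

section L1aux

variable (k : Type) [Field k] [NumberField k] (v : HeightOneSpectrum (𝓞 k))

/-- a rational prime in the ideal of `v`. -/
theorem l1_exists_prime : ∃ l : ℕ, l.Prime ∧ ((l : ℕ) : 𝓞 k) ∈ v.asIdeal := by
  have key : ∀ n : ℕ, n ≠ 0 → ((n : ℕ) : 𝓞 k) ∈ v.asIdeal →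
      ∃ l : ℕ, l.Prime ∧ ((l : ℕ) : 𝓞 k) ∈ v.asIdeal := by
    intro n
    induction n using Nat.strong_induction_on with
    | _ n ih =>
      intro hn hmem
      have hn1 : n ≠ 1 := by
        rintro rfl
        apply v.isPrime.ne_top
        rw [Ideal.eq_top_iff_one]
        simpa using hmem
      obtain ⟨l, hl, m, rfl⟩ := Nat.exists_prime_and_dvd hn1
      rw [Nat.cast_mul] at hmem
      rcases v.isPrime.mem_or_mem hmem with h | h
      · exact ⟨l, hl, h⟩
      · have hm : m ≠ 0 := by rintro rfl; simp at hn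
        refine ih m ?_ hm h
        have := hl.two_le
        nlinarith [Nat.pos_of_ne_zero hm]
  refine key (Ideal.absNorm v.asIdeal) ?_ (Ideal.absNorm_mem _)
  exact Ideal.absNorm_ne_zero_iff_mem_nonZeroDivisors.2
    (mem_nonZeroDivisors_of_ne_zero v.ne_bot)

theorem l1_norm_int_le (n : ℤ) : ‖(n : v.adicCompletion k)‖ ≤ 1 := by
  have h := FinitePlace.norm_le_one (K := k) v (n : 𝓞 k)
  simpa using h

theorem l1_norm_lt {l : ℕ} (hl : ((l : ℕ) : 𝓞 k) ∈ v.asIdeal) :
    ‖(l : v.adicCompletion k)‖ < 1 := by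
  have h := (FinitePlace.norm_lt_one_iff_mem (K := k) v (l : 𝓞 k)).2 hl
  simpa using h

theorem l1_norm_dvd {l : ℕ} {j : ℕ} {a : ℤ} (h : (l : ℤ) ^ j ∣ a) :
    ‖(a : v.adicCompletion k)‖ ≤ ‖(l : v.adicCompletion k)‖ ^ j := by
  obtain ⟨b, rfl⟩ := h
  push_cast
  rw [norm_mul, norm_pow]
  have := l1_norm_int_le k v b
  have h2 : 0 ≤ ‖(l : v.adicCompletion k)‖ ^ j := by positivity
  nlinarith

theorem l1_isSquare {l : ℕ} [Fact l.Prime] (hl : ((l : ℕ) : 𝓞 k) ∈ v.asIdeal) (a : ℕ)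
    (ha : IsSquare ((a : ℕ) : ℤ_[l])) : IsSquare ((a : ℕ) : v.adicCompletion k) := by
  obtain ⟨s, hs⟩ := ha
  set r := ‖(l : v.adicCompletion k)‖ with hr
  have hr1 : r < 1 := l1_norm_lt k v hl
  have hr0 : 0 ≤ r := norm_nonneg _
  let f : ℕ → v.adicCompletion k := fun j => ((s.appr j : ℕ) : v.adicCompletion k)
  have hstep : ∀ j, dist (f j) (f (j+1)) ≤ 1 * r ^ j := by
    intro j
    have h1 := PadicInt.dvd_appr_sub_appr s j (j+1) (Nat.le_succ j)
    have h2 : (l : ℤ) ^ j ∣ ((s.appr (j+1) : ℕ) : ℤ) - ((s.appr j : ℕ) : ℤ) := by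
      have h3 := PadicInt.appr_mono s (Nat.le_succ j)
      have h4 : (((s.appr (j+1) - s.appr j : ℕ)) : ℤ) =
          ((s.appr (j+1) : ℕ) : ℤ) - ((s.appr j : ℕ) : ℤ) := by
        push_cast [Nat.cast_sub h3]; rfl
      rw [← h4]
      exact_mod_cast h1
    rw [dist_comm, dist_eq_norm, one_mul]
    have := l1_norm_dvd k v h2
    simpa [f] using this
  have hC : CauchySeq f := cauchySeq_of_le_geometric r 1 hr1 hstep
  obtain ⟨x, hx⟩ := cauchySeq_tendsto_of_complete hC
  refine ⟨x, ?_⟩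
  have h1 : Filter.Tendsto (fun j => f j * f j) Filter.atTop (nhds (x * x)) := hx.mul hx
  have h2 : Filter.Tendsto (fun j => f j * f j) Filter.atTop (nhds ((a : ℕ) : v.adicCompletion k)) := by
    rw [tendsto_iff_norm_sub_tendsto_zero]
    refine squeeze_zero (fun j => norm_nonneg _) (fun j => ?_)
      (tendsto_pow_atTop_nhds_zero_of_lt_one hr0 hr1)
    have h3 := PadicInt.appr_spec j s
    rw [Ideal.mem_span_singleton] at h3
    obtain ⟨c, hc⟩ := h3
    have h4 : (((l : ℤ) ^ j : ℤ) : ℤ_[l]) ∣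
        ((((s.appr j : ℕ) : ℤ) * ((s.appr j : ℕ) : ℤ) - (a : ℤ) : ℤ) : ℤ_[l]) := by
      refine ⟨-(c * (s + (s.appr j : ℕ))), ?_⟩
      push_cast
      rw [hs]
      linear_combination (-(s + ((s.appr j : ℕ) : ℤ_[l]))) * hc
    have h5 : (l : ℤ) ^ j ∣ (((s.appr j : ℕ) : ℤ) * ((s.appr j : ℕ) : ℤ) - (a : ℤ)) := by
      rw [← PadicInt.norm_int_le_pow_iff_dvd]
      rw [PadicInt.norm_le_pow_iff_mem_span_pow, Ideal.mem_span_singleton]
      push_cast at h4 ⊢
      exact h4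
    have := l1_norm_dvd k v h5
    simpa [f] using this
  exact tendsto_nhds_unique h2 h1

end L1aux

/-- squares in `ℤ_l`, `l` odd. -/
theorem l1_padic_odd {l : ℕ} [Fact l.Prime] (hl : l ≠ 2) (a : ℕ) (h : legendreSym l a = 1) :
    IsSquare ((a : ℕ) : ℤ_[l]) := by
  have ha0 : ((a : ℤ) : ZMod l) ≠ 0 := by
    intro h0
    rw [(legendreSym.eq_zero_iff l (a : ℤ)).2 h0] at h
    exact zero_ne_one h
  have h1 := (legendreSym.eq_one_iff l ha0).1 h
  obtain ⟨r, hr⟩ := h1
  obtain ⟨s, hs⟩ : ∃ s : ℤ, (s : ZMod l) = r := ⟨r.val, by simp⟩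
  have hdiv : (l : ℤ) ∣ s * s - a := by
    rw [← ZMod.intCast_zmod_eq_zero_iff_dvd]
    push_cast
    rw [hs, ← hr]; simp
  have hs0 : ¬ (l : ℤ) ∣ 2 * s := by
    intro h2
    rcases (Nat.prime_iff_prime_int.1 (Fact.out : l.Prime)).dvd_or_dvd h2 with h3 | h3
    · have h4 : l ∣ 2 := by exact_mod_cast h3
      exact hl ((Nat.prime_dvd_prime_iff_eq Fact.out Nat.prime_two).1 h4)
    · apply ha0
      rw [hr, ← hs, (ZMod.intCast_zmod_eq_zero_iff_dvd s l).2 h3, mul_zero]
  have := hensels_lemma (p := l) (F := (X ^ 2 - C (a : ℤ_[l]) : ℤ_[l][X])) (a := (s : ℤ_[l])) (by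
    have e1 : ‖((2 * s : ℤ) : ℤ_[l])‖ = 1 := by
      rcases lt_or_eq_of_le (PadicInt.norm_le_one ((2 * s : ℤ) : ℤ_[l])) with h | h
      · exact absurd ((PadicInt.norm_int_lt_one_iff_dvd _).1 h) hs0
      · exact h
    have e2 : ‖((s * s - a : ℤ) : ℤ_[l])‖ < 1 := (PadicInt.norm_int_lt_one_iff_dvd _).2 hdiv
    push_cast at e1 e2
    simp only [map_sub, map_pow, aeval_X, aeval_C, derivative_X_pow,
      derivative_C, sub_zero, map_mul]
    simp only [Algebra.algebraMap_self, RingHom.id_apply, Nat.cast_ofNat]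
    norm_num
    rw [← norm_mul, e1, pow_two]
    simpa using e2)
  obtain ⟨z, hz, _⟩ := this
  refine ⟨z, ?_⟩
  simp only [map_sub, map_pow, aeval_X, aeval_C, Algebra.algebraMap_self, RingHom.id_apply] at hz
  linear_combination -hz

/-- squares in `ℤ_2`. -/
theorem l1_padic_two (a : ℕ) (h : a % 8 = 1) :
    IsSquare ((a : ℕ) : ℤ_[2]) := by
  have := hensels_lemma (p := 2) (F := (X ^ 2 - C (a : ℤ_[2]) : ℤ_[2][X])) (a := (1 : ℤ_[2])) (by
    have e1 : ‖((2 : ℤ) : ℤ_[2])‖ = 1 / 2 := by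
      have := PadicInt.norm_p (p := 2)
      push_cast at this ⊢
      rw [this]; norm_num
    have e2 : ‖((1 - a : ℤ) : ℤ_[2])‖ ≤ (2 : ℝ) ^ (-(3 : ℤ)) := by
      have h8 : ((2 : ℕ) ^ 3 : ℤ) ∣ (1 - a : ℤ) := by
        push_cast; omega
      have := (PadicInt.norm_int_le_pow_iff_dvd (p := 2) (k := 1 - a) (n := 3)).2 (by exact_mod_cast h8)
      exact_mod_cast this
    push_cast at e1 e2
    simp only [map_sub, map_pow, aeval_X, aeval_C, derivative_X_pow,
      derivative_C, sub_zero, map_mul]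
    simp only [Algebra.algebraMap_self, RingHom.id_apply, Nat.cast_ofNat]
    norm_num
    rw [e1]
    norm_num at e2
    norm_num
    linarith)
  obtain ⟨z, hz, _⟩ := this
  refine ⟨z, ?_⟩
  simp only [map_sub, map_pow, aeval_X, aeval_C, Algebra.algebraMap_self, RingHom.id_apply] at hz
  linear_combination -hz

/-- Let `l` be the residue characteristic of `v`. One of `p`, `q`, `p q` is a square in `ℤ_l`
(`l = 2`: `p ≡ 1 mod 8`; `l = p`: `q`; `l = q`: `p`; otherwise one of the three Legendre symbols is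
`1`). Then it is a square in `v.adicCompletion k`: Hensel's lemma there, or the limit of a Cauchy
sequence of integers `n_j` with `n_j² → a` `l`-adically. -/
theorem sq_finite (k : Type) [Field k] [NumberField k] (p q : ℕ) [Fact p.Prime] [Fact q.Prime]
    (hp : p % 8 = 1) (hq : q % 8 = 1) (hpq : legendreSym q p = 1)
    (v : HeightOneSpectrum (𝓞 k)) :
    ∃ t : Fin 3, IsSquare ((aa p q t : ℕ) : v.adicCompletion k) := by
  obtain ⟨l, hl, hlv⟩ := l1_exists_prime k v
  have : Fact l.Prime := ⟨hl⟩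
  have hq2 : q ≠ 2 := by omega
  have hp2 : p ≠ 2 := by omega
  have hne : p ≠ q := by
    rintro rfl
    have h0 : ((p : ℤ) : ZMod p) = 0 := by simp
    rw [(legendreSym.eq_zero_iff p (p : ℤ)).2 h0] at hpq
    exact zero_ne_one hpq
  by_cases hl2 : l = 2
  · subst hl2
    exact ⟨0, l1_isSquare k v hlv _ (l1_padic_two p hp)⟩
  by_cases hlp : l = p
  · subst hlp
    refine ⟨1, l1_isSquare k v hlv _ (l1_padic_odd hl2 q ?_)⟩
    rw [← legendreSym.quadratic_reciprocity_one_mod_four (p := l) (q := q) (by omega) hq2]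
    exact hpq
  by_cases hlq : l = q
  · subst hlq
    exact ⟨0, l1_isSquare k v hlv _ (l1_padic_odd hl2 p hpq)⟩
  have hp0 : ((p : ℤ) : ZMod l) ≠ 0 := by
    intro h0
    have h1 : l ∣ p := by
      have := (ZMod.natCast_eq_zero_iff p l).1 (by simpa using h0)
      exact this
    exact hlp ((Nat.prime_dvd_prime_iff_eq hl Fact.out).1 h1)
  have hq0 : ((q : ℤ) : ZMod l) ≠ 0 := by
    intro h0
    have h1 : l ∣ q := by
      have := (ZMod.natCast_eq_zero_iff q l).1 (by simpa using h0)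
      exact this
    exact hlq ((Nat.prime_dvd_prime_iff_eq hl Fact.out).1 h1)
  rcases legendreSym.eq_one_or_neg_one l hp0 with h1 | h1
  · exact ⟨0, l1_isSquare k v hlv _ (l1_padic_odd hl2 p h1)⟩
  rcases legendreSym.eq_one_or_neg_one l hq0 with h2 | h2
  · exact ⟨1, l1_isSquare k v hlv _ (l1_padic_odd hl2 q h2)⟩
  · refine ⟨2, l1_isSquare k v hlv _ (l1_padic_odd hl2 (p * q) ?_)⟩
    have : legendreSym l (((p * q : ℕ)) : ℤ) = legendreSym l p * legendreSym l q := by
      push_cast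
      exact legendreSym.mul l p q
    rw [this, h1, h2]; norm_num

end SEC
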