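import Pool.Agent.MP_c1dca2_ag.SEC.M3
import Pool.Agent.MP_c1dca2_ag.SEC.M5

set_option autoImplicit false

open Polynomial

namespace SEC

variable {k K : Type} [Field k] [Field K] [Algebra k K]

/-! ## [SEC-M6] evaluation of the factors at a section (file M6.lean; uses M1-M4) -/

theorem m6_aeval_map (x : K) (g : k[X]) :
    aeval (algebraMap K (Om K) x) (g.map (algebraMap k (kb k K))) =
      algebraMap K (Om K) (aeval x g) := by
  rw [aeval_map_algebraMap, aeval_algebraMap_apply]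

/-- A square root `u` of `g(x)` in `k(X)^alg` is in `M` (`sqrt_even`, the degree of `g` mapped to
`k^alg` is the same); `s σ u = ± u`; apply `kummer` with `E = ⊥`. -/
theorem exists_delta [CharZero k] (f : k[X]) (hf : f.Separable) (c : k) (hc : c ≠ 0)
    (x y : K) (hx : Transcendental k x) (hxy : y ^ 2 = algebraMap k K c * aeval x f)
    (s : Sect k K) (g : k[X]) (hg : g ∣ f) (hd : Even g.natDegree) :
    ∃ (u : Mnr k K) (δ : kb k K) (d : k), u ≠ 0 ∧ δ ≠ 0 ∧ d ≠ 0 ∧
      (u : Om K) ^ 2 = algebraMap K (Om K) (aeval x g) ∧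
      δ ^ 2 = algebraMap k (kb k K) d ∧
      ∀ σ, (s.toHom σ u : Om K) * (δ : Om K) = (u : Om K) * ((σ δ : kb k K) : Om K) := by
  obtain ⟨z, hz⟩ := IsAlgClosed.exists_pow_nat_eq (algebraMap K (Om K) (aeval x g))
    (n := 2) (by norm_num)
  have hg0 : g ≠ 0 := by
    rintro rfl
    exact hf.ne_zero (zero_dvd_iff.1 hg)
  have hgx : aeval x g ≠ 0 := fun h => hg0 ((transcendental_iff.1 hx) g h)
  have hzM : z ∈ Mnr k K := by
    refine sqrt_even f hf c hc x y hxy (g.map (algebraMap k (kb k K)))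
      (Polynomial.map_dvd _ hg) ?_ z ?_
    · rwa [natDegree_map]
    · rw [hz, m6_aeval_map]
  have hu0 : (⟨z, hzM⟩ : Mnr k K) ≠ 0 := by
    intro h
    have h1 : z = 0 := congrArg (fun w : Mnr k K => (w : Om K)) h
    rw [h1] at hz
    simp only [ne_eq, OfNat.ofNat_ne_zero, not_false_eq_true, zero_pow] at hz
    exact hgx ((map_eq_zero _).1 hz.symm)
  have husq : (⟨z, hzM⟩ : Mnr k K) ^ 2 = algebraMap K (Mnr k K) (aeval x g) := by
    apply Subtype.ext
    exact hz
  obtain ⟨η, hη0, hη2, hη⟩ := kummer s ⊥ ⟨z, hzM⟩ hu0 (by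
    intro σ _
    apply sq_eq_sq_iff_eq_or_eq_neg.1
    rw [← map_pow, husq, AlgEquiv.commutes])
  obtain ⟨d, hd⟩ := IntermediateField.mem_bot.1 hη2
  refine ⟨⟨z, hzM⟩, η, d, hu0, hη0, ?_, hz, hd.symm, ?_⟩
  · rintro rfl
    rw [map_zero] at hd
    exact hη0 (pow_eq_zero_iff (two_ne_zero)|>.1 hd.symm)
  · intro σ
    exact hη σ (by rw [IntermediateField.fixingSubgroup_bot]; trivial)

/-- Let `γ ∈ k^alg`, `γ² = c` and (after changing the sign) `y = γ ∏ u_i`. As `s σ y = y`, the element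
`γ ∏ δ_i` is fixed by all `σ` (use `Sect.split` for `γ`); it is in `k` and its square is `c ∏ d_i`. -/
theorem prod_delta [CharZero k] (m : ℕ) (g : Fin m → k[X]) (c : k) (hc : c ≠ 0) (x y : K)
    (hxy : y ^ 2 = algebraMap k K c * aeval x (∏ i, g i)) (s : Sect k K)
    (u : Fin m → Mnr k K) (δ : Fin m → kb k K) (d : Fin m → k) (hu0 : ∀ i, u i ≠ 0)
    (hδ0 : ∀ i, δ i ≠ 0)
    (hu : ∀ i, (u i : Om K) ^ 2 = algebraMap K (Om K) (aeval x (g i)))
    (hδ : ∀ i, δ i ^ 2 = algebraMap k (kb k K) (d i))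
    (h : ∀ i σ, (s.toHom σ (u i) : Om K) * (δ i : Om K) =
      (u i : Om K) * ((σ (δ i) : kb k K) : Om K)) :
    ∃ t : k, t ≠ 0 ∧ c * ∏ i, d i = t ^ 2 := by
  -- the square root of `c`
  obtain ⟨z, hz⟩ := IsAlgClosed.exists_pow_nat_eq (algebraMap k (Om K) c) (n := 2) (by norm_num)
  have hzk : z ∈ kb k K := by
    rw [mem_algebraicClosure_iff]
    refine IsAlgebraic.of_pow (n := 2) (by norm_num) ?_
    rw [hz]
    exact isAlgebraic_algebraMap c
  have hy2 : (algebraMap K (Om K) y) ^ 2 = (z * ∏ i, (u i : Om K)) ^ 2 := by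
    rw [← map_pow, hxy, map_mul, ← IsScalarTower.algebraMap_apply, mul_pow, hz,
      ← Finset.prod_pow, map_prod, map_prod]
    congr 1
    exact Finset.prod_congr rfl fun i _ => (hu i).symm
  obtain ⟨γ, hγ2, hγy⟩ : ∃ γ : kb k K, γ ^ 2 = algebraMap k (kb k K) c ∧
      algebraMap K (Om K) y = (γ : Om K) * ∏ i, (u i : Om K) := by
    rcases sq_eq_sq_iff_eq_or_eq_neg.1 hy2 with h1 | h1
    · exact ⟨⟨z, hzk⟩, Subtype.ext hz, h1⟩
    · refine ⟨-⟨z, hzk⟩, ?_, ?_⟩
      · rw [neg_sq]; exact Subtype.ext hz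
      · rw [h1]
        change _ = (-z) * _
        ring
  have hγ0 : γ ≠ 0 := by
    rintro rfl
    rw [zero_pow two_ne_zero] at hγ2
    exact hc ((map_eq_zero _).1 hγ2.symm)
  have hγM : (γ : Om K) ∈ Mnr k K := kb_le _ γ.2
  have hfix : ∀ σ : kb k K ≃ₐ[k] kb k K, σ (γ * ∏ i, δ i) = γ * ∏ i, δ i := by
    intro σ
    have h1 : (algebraMap K (Mnr k K) y) = ⟨(γ : Om K), hγM⟩ * ∏ i, u i := by
      apply Subtype.ext
      rw [MulMemClass.coe_mul]
      rw [SubmonoidClass.coe_finsetProd]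
      exact hγy
    have h2 := congrArg (s.toHom σ) h1
    rw [AlgEquiv.commutes, h1, map_mul, map_prod] at h2
    have h3 := congrArg (fun w : Mnr k K => (w : Om K)) h2
    simp only [MulMemClass.coe_mul, SubmonoidClass.coe_finsetProd] at h3
    rw [s.split σ γ hγM] at h3
    have hU : (∏ i, (u i : Om K)) ≠ 0 := by
      rw [Finset.prod_ne_zero_iff]
      intro i _ h0
      exact hu0 i (Subtype.ext h0)
    have h4 : ((γ : Om K) * ∏ i, (δ i : Om K)) * (∏ i, (u i : Om K)) =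
        (((σ γ : kb k K) : Om K) * ∏ i, ((σ (δ i) : kb k K) : Om K)) *
          (∏ i, (u i : Om K)) := by
      have e1 : (∏ i, (s.toHom σ (u i) : Om K)) * (∏ i, (δ i : Om K)) =
          (∏ i, (u i : Om K)) * ∏ i, ((σ (δ i) : kb k K) : Om K) := by
        rw [← Finset.prod_mul_distrib, ← Finset.prod_mul_distrib]
        exact Finset.prod_congr rfl fun i _ => h i σ
      calc ((γ : Om K) * ∏ i, (δ i : Om K)) * (∏ i, (u i : Om K))
          = ((γ : Om K) * ∏ i, (u i : Om K)) * ∏ i, (δ i : Om K) := by ring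
        _ = (((σ γ : kb k K) : Om K) * ∏ i, (s.toHom σ (u i) : Om K)) *
            ∏ i, (δ i : Om K) := by rw [h3]
        _ = ((σ γ : kb k K) : Om K) * ((∏ i, (s.toHom σ (u i) : Om K)) *
            ∏ i, (δ i : Om K)) := by ring
        _ = _ := by rw [e1]; ring
    have h5 := mul_right_cancel₀ hU h4
    rw [map_mul, map_prod]
    apply Subtype.ext
    simp only [MulMemClass.coe_mul, SubmonoidClass.coe_finsetProd]
    exact h5.symm
  have hbot := mem_of_fixed (K := K) (⊥ : IntermediateField k (kb k K)) (γ * ∏ i, δ i)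
    (fun σ _ => hfix σ)
  obtain ⟨t, ht⟩ := IntermediateField.mem_bot.1 hbot
  refine ⟨t, ?_, ?_⟩
  · rintro rfl
    rw [map_zero] at ht
    have : γ * ∏ i, δ i ≠ 0 :=
      mul_ne_zero hγ0 (Finset.prod_ne_zero_iff.2 fun i _ => hδ0 i)
    exact this ht.symm
  · apply (algebraMap k (kb k K)).injective
    rw [map_mul, map_prod, map_pow, ht, mul_pow, hγ2, ← Finset.prod_pow]
    congr 1
    exact Finset.prod_congr rfl fun i _ => (hδ i).symm

end SEC
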