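import Pool.Agent.MP_c1dca2_ag.SEC.M6

set_option autoImplicit false

open Polynomial

namespace SEC

variable {k K : Type} [Field k] [Field K] [Algebra k K]

/-! ## [SEC-M7] the norm conditions (file M7.lean; uses M1-M6) -/

theorem m7_aeval_map (x : K) (g : k[X]) :
    aeval (algebraMap K (Om K) x) (g.map (algebraMap k (kb k K))) =
      algebraMap K (Om K) (aeval x g) := by
  rw [aeval_map_algebraMap, aeval_algebraMap_apply]

/-- `A - α B` over `k^alg` -/
noncomputable def hpol (A B : k[X]) (α : kb k K) : (kb k K)[X] :=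
  A.map (algebraMap k (kb k K)) - C α * B.map (algebraMap k (kb k K))

theorem m7_coeff (A B : k[X]) (α : kb k K) (n : ℕ) :
    (hpol A B α).coeff n = algebraMap k (kb k K) (A.coeff n) -
      α * algebraMap k (kb k K) (B.coeff n) := by
  simp [hpol]

theorem m7_lin (α : kb k K) (a : k) (ha : ¬ IsSquare a)
    (hα : α ^ 2 = algebraMap k (kb k K) a) (u v : k)
    (h : algebraMap k (kb k K) u - α * algebraMap k (kb k K) v = 0) : u = 0 ∧ v = 0 := by
  have hv : v = 0 := by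
    by_contra hv
    apply ha
    refine ⟨u / v, ?_⟩
    apply (algebraMap k (kb k K)).injective
    have h1 : algebraMap k (kb k K) u = α * algebraMap k (kb k K) v := sub_eq_zero.1 h
    have hv' : algebraMap k (kb k K) v ≠ 0 := by
      rw [Ne, map_eq_zero]; exact hv
    rw [map_mul, map_div₀, h1, mul_div_assoc, div_self hv', mul_one, ← hα]
    ring
  subst hv
  rw [map_zero, mul_zero, sub_zero, map_eq_zero] at h
  exact ⟨h, rfl⟩

theorem hpol_natDegree (A B : k[X]) (α : kb k K) (a : k) (ha : ¬ IsSquare a)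
    (hα : α ^ 2 = algebraMap k (kb k K) a) :
    (hpol A B α).natDegree = max A.natDegree B.natDegree := by
  apply le_antisymm
  · rw [natDegree_le_iff_coeff_eq_zero]
    intro N hN
    rw [m7_coeff, coeff_eq_zero_of_natDegree_lt (lt_of_le_of_lt (le_max_left _ _) hN),
      coeff_eq_zero_of_natDegree_lt (lt_of_le_of_lt (le_max_right _ _) hN)]
    simp
  · rcases Nat.eq_zero_or_pos (max A.natDegree B.natDegree) with h0 | h0
    · omega
    · apply le_natDegree_of_ne_zero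
      rw [m7_coeff]
      intro h
      obtain ⟨h1, h2⟩ := m7_lin α a ha hα _ _ h
      rcases max_choice A.natDegree B.natDegree with h3 | h3
      · rw [h3] at h1 h0
        have : A.leadingCoeff = 0 := h1
        rw [leadingCoeff_eq_zero] at this
        rw [this] at h0
        simp at h0
      · rw [h3] at h2 h0
        have : B.leadingCoeff = 0 := h2
        rw [leadingCoeff_eq_zero] at this
        rw [this] at h0
        simp at h0

theorem hpol_mul (A B : k[X]) (α : kb k K) (a : k) (hα : α ^ 2 = algebraMap k (kb k K) a) :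
    hpol A B α * hpol A B (-α) = (A ^ 2 - C a * B ^ 2).map (algebraMap k (kb k K)) := by
  simp only [hpol, Polynomial.map_sub, Polynomial.map_mul, Polynomial.map_pow, map_C, ← hα,
    C_neg, C_pow]
  ring

/-- the value of `hpol` at `x`, as an element of `M` -/
theorem m7_val (A B : k[X]) (α : kb k K) (x : K) :
    aeval (algebraMap K (Om K) x) (hpol A B α) =
      algebraMap K (Om K) (aeval x A) - (α : Om K) * algebraMap K (Om K) (aeval x B) := by
  rw [hpol, map_sub, map_mul, aeval_C, m7_aeval_map, m7_aeval_map]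
  rfl

/-- the value of `hpol` at `x`, as an element of `M` -/
noncomputable def hval (A B : k[X]) (α : kb k K) (x : K) : Mnr k K :=
  algebraMap K (Mnr k K) (aeval x A) - ⟨(α : Om K), kb_le _ α.2⟩ *
    algebraMap K (Mnr k K) (aeval x B)

theorem hval_coe (A B : k[X]) (α : kb k K) (x : K) :
    (hval A B α x : Om K) = aeval (algebraMap K (Om K) x) (hpol A B α) := by
  rw [m7_val]
  rfl

theorem s_hval (s : Sect k K) (σ : kb k K ≃ₐ[k] kb k K) (A B : k[X]) (α : kb k K) (x : K) :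
    s.toHom σ (hval A B α x) = hval A B (σ α) x := by
  rw [hval, map_sub, map_mul, AlgEquiv.commutes, AlgEquiv.commutes, hval]
  congr 2
  apply Subtype.ext
  exact s.split σ α (kb_le _ α.2)

theorem hval_mul (A B : k[X]) (α : kb k K) (a : k) (hα : α ^ 2 = algebraMap k (kb k K) a)
    (x : K) : (hval A B α x : Om K) * (hval A B (-α) x : Om K) =
      algebraMap K (Om K) (aeval x (A ^ 2 - C a * B ^ 2)) := by
  rw [hval_coe, hval_coe, ← map_mul, hpol_mul A B α a hα, m7_aeval_map]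

theorem hval_ne_zero (A B : k[X]) (α : kb k K) (a : k) (hα : α ^ 2 = algebraMap k (kb k K) a)
    (x : K) (hx : Transcendental k x) (h0 : A ^ 2 - C a * B ^ 2 ≠ 0) : hval A B α x ≠ 0 := by
  intro h
  have h1 := hval_mul A B α a hα x
  rw [h, ZeroMemClass.coe_zero, zero_mul] at h1
  exact h0 ((transcendental_iff.1 hx) _ ((map_eq_zero _).1 h1.symm))

theorem hpol_dvd (f : k[X]) (A B : k[X]) (α : kb k K) (a : k)
    (hα : α ^ 2 = algebraMap k (kb k K) a) (hdvd : A ^ 2 - C a * B ^ 2 ∣ f) :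
    hpol A B α ∣ f.map (algebraMap k (kb k K)) := by
  refine dvd_trans ?_ (Polynomial.map_dvd _ hdvd)
  rw [← hpol_mul A B α a hα]
  exact Dvd.intro _ rfl

theorem exists_sqrt_kb (a : k) : ∃ α : kb k K, α ^ 2 = algebraMap k (kb k K) a := by
  obtain ⟨z, hz⟩ := IsAlgClosed.exists_pow_nat_eq (algebraMap k (Om K) a) (n := 2) (by norm_num)
  have hzk : z ∈ kb k K := by
    rw [mem_algebraicClosure_iff]
    refine IsAlgebraic.of_pow (n := 2) (by norm_num) ?_
    rw [hz]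
    exact isAlgebraic_algebraMap a
  exact ⟨⟨z, hzk⟩, Subtype.ext hz⟩

theorem exists_flip [CharZero k] (E : IntermediateField k (kb k K)) (α : kb k K) (a : k)
    (hα : α ^ 2 = algebraMap k (kb k K) a) (hE : α ∉ E) :
    ∃ σ₀ ∈ E.fixingSubgroup, σ₀ α = -α := by
  by_contra hcon
  push Not at hcon
  apply hE
  apply mem_of_fixed (K := K) E α
  intro σ hσ
  have h1 : (σ α) ^ 2 = α ^ 2 := by
    rw [← map_pow, hα, AlgEquiv.commutes]
  rcases sq_eq_sq_iff_eq_or_eq_neg.1 h1 with h2 | h2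
  · exact h2
  · exact absurd h2 (hcon σ hσ)

theorem ne_zero_of_not_sq {a : k} (ha : ¬ IsSquare a) {α : kb k K}
    (hα : α ^ 2 = algebraMap k (kb k K) a) : α ≠ 0 := by
  rintro rfl
  apply ha
  rw [zero_pow two_ne_zero] at hα
  rw [(map_eq_zero _).1 hα.symm]
  exact IsSquare.zero

/-- Let `r ∈ M`, `r² = h(x)`, `h = A - α B` (`sqrt_even`). Take `σ₀` with `σ₀ α = - α` (`a` is not a square
in `k`). `(r · s(σ₀) r)² = h(x) · h̄(x) = u²` (`s σ` acts on `h(x)` through `Sect.split` on the coefficients),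
so `r · s(σ₀) r = ± u`: `norm_lemma` with `E = ⊥`, `g = ± 1`. -/
theorem sol_even [CharZero k] (f : k[X]) (hf : f.Separable) (c : k) (hc : c ≠ 0)
    (x y : K) (hx : Transcendental k x) (hxy : y ^ 2 = algebraMap k K c * aeval x f)
    (s : Sect k K) (A B : k[X]) (a : k) (ha : ¬ IsSquare a) (hdvd : A ^ 2 - C a * B ^ 2 ∣ f)
    (hn : Even (max A.natDegree B.natDegree)) (u : Mnr k K) (δ : kb k K) (d : k) (hu0 : u ≠ 0)
    (hδ0 : δ ≠ 0) (hu : (u : Om K) ^ 2 = algebraMap K (Om K) (aeval x (A ^ 2 - C a * B ^ 2)))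
    (hδ : δ ^ 2 = algebraMap k (kb k K) d)
    (h : ∀ σ, (s.toHom σ u : Om K) * (δ : Om K) = (u : Om K) * ((σ δ : kb k K) : Om K))
    (b : k) : SolOver k b a d := by
  obtain ⟨α, hα⟩ := exists_sqrt_kb (K := K) a
  have hg0 : A ^ 2 - C a * B ^ 2 ≠ 0 := by
    intro h0
    rw [h0] at hdvd
    exact hf.ne_zero (zero_dvd_iff.1 hdvd)
  obtain ⟨z, hz⟩ := IsAlgClosed.exists_pow_nat_eq (hval A B α x : Om K) (n := 2) (by norm_num)
  have hzM : z ∈ Mnr k K := by
    refine sqrt_even f hf c hc x y hxy (hpol A B α) (hpol_dvd f A B α a hα hdvd) ?_ z ?_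
    · rwa [hpol_natDegree A B α a ha hα]
    · rw [hz, hval_coe]
  obtain ⟨r, hr⟩ : ∃ r : Mnr k K, r ^ 2 = hval A B α x := ⟨⟨z, hzM⟩, Subtype.ext hz⟩
  have hr0 : r ≠ 0 := by
    rintro rfl
    rw [zero_pow two_ne_zero] at hr
    exact hval_ne_zero A B α a hα x hx hg0 hr.symm
  have hαbot : α ∉ (⊥ : IntermediateField k (kb k K)) := by
    intro hmem
    obtain ⟨t, ht⟩ := IntermediateField.mem_bot.1 hmem
    apply ha
    refine ⟨t, (algebraMap k (kb k K)).injective ?_⟩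
    rw [map_mul, ht, ← hα]
    ring
  obtain ⟨σ₀, hσ₀, hσ₀α⟩ := exists_flip ⊥ α a hα hαbot
  have hσr : (s.toHom σ₀ r) ^ 2 = hval A B (-α) x := by
    rw [← map_pow, hr, s_hval, hσ₀α]
  have hprod : (r * s.toHom σ₀ r) ^ 2 = u ^ 2 := by
    rw [mul_pow, hr, hσr]
    apply Subtype.ext
    rw [MulMemClass.coe_mul, hval_mul A B α a hα x, ← hu]
    rfl
  obtain ⟨ε, hε, hru⟩ : ∃ ε : Mnr k K, (ε = 1 ∨ ε = -1) ∧ r * s.toHom σ₀ r = u * ε := by
    rcases sq_eq_sq_iff_eq_or_eq_neg.1 hprod with h1 | h1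
    · exact ⟨1, Or.inl rfl, by rw [h1, mul_one]⟩
    · exact ⟨-1, Or.inr rfl, by rw [h1]; ring⟩
  obtain ⟨X, hX, Y, hY, w, hw, hw0, hsol⟩ := norm_lemma s ⊥ α a hα
    (ne_zero_of_not_sq ha hα) σ₀ hσ₀ hσ₀α r u ε hr0 (by
      intro σ _ hσα
      apply sq_eq_sq_iff_eq_or_eq_neg.1
      rw [← map_pow, hr, s_hval, hσα]) δ hδ0 d hδ h (by
      intro σ _
      rcases hε with rfl | rfl
      · exact map_one _
      · rw [map_neg, map_one]) hru
  obtain ⟨X0, rfl⟩ := IntermediateField.mem_bot.1 hX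
  obtain ⟨Y0, rfl⟩ := IntermediateField.mem_bot.1 hY
  obtain ⟨w0, rfl⟩ := IntermediateField.mem_bot.1 hw
  refine ⟨X0, 0, Y0, 0, w0, 0, Or.inl ?_, ?_, by ring⟩
  · rintro rfl
    exact hw0 (map_zero _)
  · apply (algebraMap k (kb k K)).injective
    simp only [map_mul, map_sub, map_add, map_pow, map_zero]
    linear_combination hsol

theorem m7_repr (β : kb k K) (b : k) (hβ : β ^ 2 = algebraMap k (kb k K) b) (e : kb k K)
    (he : e ∈ IntermediateField.adjoin k {β}) :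
    ∃ u v : k, e = algebraMap k (kb k K) u + algebraMap k (kb k K) v * β := by
  have hint : IsIntegral k β := by
    refine IsIntegral.of_pow (n := 2) (by norm_num) ?_
    rw [hβ]
    exact isIntegral_algebraMap
  have he' : e ∈ (IntermediateField.adjoin k {β}).toSubalgebra := he
  clear he
  rw [IntermediateField.adjoin_simple_toSubalgebra_of_isAlgebraic hint.isAlgebraic] at he'
  induction he' using Algebra.adjoin_induction with
  | mem e' he'' =>
    rw [Set.mem_singleton_iff.1 he'']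
    exact ⟨0, 1, by simp⟩
  | algebraMap r => exact ⟨r, 0, by simp⟩
  | add e₁ e₂ _ _ h₁ h₂ =>
    obtain ⟨u₁, v₁, h₁⟩ := h₁
    obtain ⟨u₂, v₂, h₂⟩ := h₂
    refine ⟨u₁ + u₂, v₁ + v₂, ?_⟩
    rw [h₁, h₂, map_add, map_add]
    ring
  | mul e₁ e₂ _ _ h₁ h₂ =>
    obtain ⟨u₁, v₁, h₁⟩ := h₁
    obtain ⟨u₂, v₂, h₂⟩ := h₂
    refine ⟨u₁ * u₂ + b * (v₁ * v₂), u₁ * v₂ + v₁ * u₂, ?_⟩
    rw [h₁, h₂]
    simp only [map_add, map_mul]
    rw [← hβ]
    ring

theorem m7_indep (β : kb k K) (b : k) (hb : ¬ IsSquare b)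
    (hβ : β ^ 2 = algebraMap k (kb k K) b) (u v u' v' : k)
    (h : algebraMap k (kb k K) u + algebraMap k (kb k K) v * β =
      algebraMap k (kb k K) u' + algebraMap k (kb k K) v' * β) : u = u' ∧ v = v' := by
  have h1 : algebraMap k (kb k K) (u - u') - β * algebraMap k (kb k K) (v' - v) = 0 := by
    rw [map_sub, map_sub]
    linear_combination h
  obtain ⟨h2, h3⟩ := m7_lin β b hb hβ _ _ h1
  exact ⟨sub_eq_zero.1 h2, (sub_eq_zero.1 h3).symm⟩

/-- Let `β² = b`, `h = A - α B`, `h' = A' - β B'` (both of odd degree), `r ∈ M` with `r² h'(x) = h(x)`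
(`sqrt_quot`), `E = k(β)`. As `α ∉ E` there is `σ₀ ∈ Gal(k^alg / E)` with `σ₀ α = - α`;
`(r · s(σ₀) r)² h'(x)² = h(x) h̄(x) = u²`: `norm_lemma` with `g = ± 1 / h'(x)`; the elements of `E` are
`X₀ + X₁ β` with unique `X₀, X₁ ∈ k`. -/
theorem sol_odd [CharZero k] (f : k[X]) (hf : f.Separable) (c : k) (hc : c ≠ 0)
    (x y : K) (hx : Transcendental k x) (hxy : y ^ 2 = algebraMap k K c * aeval x f)
    (s : Sect k K) (A B A' B' : k[X]) (a b : k) (ha : ¬ IsSquare a) (hb : ¬ IsSquare b)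
    (hab : ¬ IsSquare (a * b)) (hdvd : A ^ 2 - C a * B ^ 2 ∣ f)
    (hdvd' : A' ^ 2 - C b * B' ^ 2 ∣ f)
    (hn : Odd (max A.natDegree B.natDegree)) (hn' : Odd (max A'.natDegree B'.natDegree))
    (u : Mnr k K) (δ : kb k K) (d : k) (hu0 : u ≠ 0)
    (hδ0 : δ ≠ 0) (hu : (u : Om K) ^ 2 = algebraMap K (Om K) (aeval x (A ^ 2 - C a * B ^ 2)))
    (hδ : δ ^ 2 = algebraMap k (kb k K) d)
    (h : ∀ σ, (s.toHom σ u : Om K) * (δ : Om K) = (u : Om K) * ((σ δ : kb k K) : Om K)) :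
    SolOver k b a d := by
  obtain ⟨α, hα⟩ := exists_sqrt_kb (K := K) a
  obtain ⟨β, hβ⟩ := exists_sqrt_kb (K := K) b
  have hg0 : A ^ 2 - C a * B ^ 2 ≠ 0 := by
    intro h0
    rw [h0] at hdvd
    exact hf.ne_zero (zero_dvd_iff.1 hdvd)
  have hg0' : A' ^ 2 - C b * B' ^ 2 ≠ 0 := by
    intro h0
    rw [h0] at hdvd'
    exact hf.ne_zero (zero_dvd_iff.1 hdvd')
  have hH0 : hval A B α x ≠ 0 := hval_ne_zero A B α a hα x hx hg0
  have hH0' : hval A' B' β x ≠ 0 := hval_ne_zero A' B' β b hβ x hx hg0'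
  have hcoe0 : (hval A' B' β x : Om K) ≠ 0 := fun h0 => hH0' (Subtype.ext h0)
  obtain ⟨z, hz⟩ := IsAlgClosed.exists_pow_nat_eq
    ((hval A B α x : Om K) / (hval A' B' β x : Om K)) (n := 2) (by norm_num)
  have hz' : z ^ 2 * (hval A' B' β x : Om K) = (hval A B α x : Om K) := by
    rw [hz, div_mul_cancel₀ _ hcoe0]
  have hzM : z ∈ Mnr k K := by
    refine sqrt_quot f hf c hc x y hx hxy (hpol A B α) (hpol A' B' β)
      (hpol_dvd f A B α a hα hdvd) (hpol_dvd f A' B' β b hβ hdvd') ?_ ?_ z ?_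
    · rwa [hpol_natDegree A B α a ha hα]
    · rwa [hpol_natDegree A' B' β b hb hβ]
    · rw [← hval_coe, ← hval_coe]
      exact hz'
  obtain ⟨r, hr⟩ : ∃ r : Mnr k K, r ^ 2 * hval A' B' β x = hval A B α x :=
    ⟨⟨z, hzM⟩, Subtype.ext hz'⟩
  have hr0 : r ≠ 0 := by
    rintro rfl
    rw [zero_pow two_ne_zero, zero_mul] at hr
    exact hH0 hr.symm
  have hαE : α ∉ IntermediateField.adjoin k {β} := by
    intro hmem
    obtain ⟨t₀, t₁, ht⟩ := m7_repr β b hβ α hmem
    have h1 : algebraMap k (kb k K) a + algebraMap k (kb k K) 0 * β =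
        algebraMap k (kb k K) (t₀ ^ 2 + b * t₁ ^ 2) +
          algebraMap k (kb k K) (2 * (t₀ * t₁)) * β := by
      rw [← hα, ht]
      simp only [map_add, map_mul, map_pow, map_zero, map_ofNat, ← hβ]
      ring
    obtain ⟨h2, h3⟩ := m7_indep β b hb hβ _ _ _ _ h1
    rcases mul_eq_zero.1 h3.symm with h4 | h4
    · exact two_ne_zero h4
    · rcases mul_eq_zero.1 h4 with h5 | h5
      · rw [h5] at h2
        apply hab
        exact ⟨b * t₁, by rw [h2]; ring⟩
      · rw [h5] at h2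
        apply ha
        exact ⟨t₀, by rw [h2]; ring⟩
  obtain ⟨σ₀, hσ₀, hσ₀α⟩ := exists_flip (IntermediateField.adjoin k {β}) α a hα hαE
  have hβfix : ∀ σ ∈ (IntermediateField.adjoin k {β}).fixingSubgroup, σ β = β := by
    intro σ hσ
    exact (IntermediateField.mem_fixingSubgroup_iff _ _).1 hσ β
      (IntermediateField.mem_adjoin_simple_self k β)
  have hσr : (s.toHom σ₀ r) ^ 2 * hval A' B' β x = hval A B (-α) x := by
    have h1 := congrArg (s.toHom σ₀) hr
    rw [map_mul, map_pow, s_hval, s_hval, hσ₀α, hβfix σ₀ hσ₀] at h1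
    exact h1
  have hprod : (r * s.toHom σ₀ r * hval A' B' β x) ^ 2 = u ^ 2 := by
    have h1 : (r * s.toHom σ₀ r * hval A' B' β x) ^ 2 =
        (r ^ 2 * hval A' B' β x) * ((s.toHom σ₀ r) ^ 2 * hval A' B' β x) := by ring
    rw [h1, hr, hσr]
    apply Subtype.ext
    rw [MulMemClass.coe_mul, hval_mul A B α a hα x, ← hu]
    rfl
  obtain ⟨ε, hε, hru⟩ : ∃ ε : Mnr k K, (ε = 1 ∨ ε = -1) ∧
      r * s.toHom σ₀ r = u * (ε * (hval A' B' β x)⁻¹) := by
    rcases sq_eq_sq_iff_eq_or_eq_neg.1 hprod with h1 | h1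
    · refine ⟨1, Or.inl rfl, ?_⟩
      rw [one_mul, ← h1, mul_assoc _ _ (hval A' B' β x)⁻¹, mul_inv_cancel₀ hH0', mul_one]
    · refine ⟨-1, Or.inr rfl, ?_⟩
      have h2 : u = -(r * s.toHom σ₀ r * hval A' B' β x) := by rw [h1, neg_neg]
      rw [h2]
      have h3 : -(r * s.toHom σ₀ r * hval A' B' β x) * (-1 * (hval A' B' β x)⁻¹) =
          r * s.toHom σ₀ r * (hval A' B' β x * (hval A' B' β x)⁻¹) := by ring
      rw [h3, mul_inv_cancel₀ hH0', mul_one]
  obtain ⟨X, hX, Y, hY, w, hw, hw0, hsol⟩ := norm_lemma s (IntermediateField.adjoin k {β})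
    α a hα (ne_zero_of_not_sq ha hα) σ₀ hσ₀ hσ₀α r u (ε * (hval A' B' β x)⁻¹) hr0 (by
      intro σ hσ hσα
      apply sq_eq_sq_iff_eq_or_eq_neg.1
      apply mul_right_cancel₀ hH0'
      have h1 := congrArg (s.toHom σ) hr
      rw [map_mul, map_pow, s_hval, s_hval, hσα, hβfix σ hσ] at h1
      rw [h1, hr]) δ hδ0 d hδ h (by
      intro σ hσ
      rw [map_mul, map_inv₀, s_hval, hβfix σ hσ]
      congr 1
      rcases hε with rfl | rfl
      · exact map_one _
      · rw [map_neg, map_one]) hru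
  obtain ⟨X0, X1, rfl⟩ := m7_repr β b hβ X hX
  obtain ⟨Y0, Y1, rfl⟩ := m7_repr β b hβ Y hY
  obtain ⟨w0, w1, rfl⟩ := m7_repr β b hβ w hw
  have h1 : algebraMap k (kb k K) (X0 ^ 2 + b * X1 ^ 2 - a * (Y0 ^ 2 + b * Y1 ^ 2)) +
      algebraMap k (kb k K) (2 * (X0 * X1 - a * (Y0 * Y1))) * β =
      algebraMap k (kb k K) (d * (w0 ^ 2 + b * w1 ^ 2)) +
        algebraMap k (kb k K) (2 * (d * (w0 * w1))) * β := by
    simp only [map_add, map_mul, map_pow, map_sub, map_ofNat, ← hβ]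
    linear_combination hsol
  obtain ⟨h2, h3⟩ := m7_indep β b hb hβ _ _ _ _ h1
  refine ⟨X0, X1, Y0, Y1, w0, w1, ?_, h2, mul_left_cancel₀ two_ne_zero h3⟩
  by_contra hcon
  push Not at hcon
  apply hw0
  rw [hcon.1, hcon.2, map_zero, zero_mul, add_zero]

end SEC
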