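import Pool.Agent.MP_c1dca2_ag.SEC.Defs

set_option autoImplicit false

open Polynomial

namespace SEC

/-! ## [SEC-N2] local consequences over `ℚ_l` (file N2.lean) -/

/-- Send `√b` to a square root of `b` in `ℚ_l`; `z0 + z1 √b ≠ 0` because `z0² - b z1² ≠ 0`. -/
theorem sol_local (l : ℕ) [Fact l.Prime] (a b D : ℚ) (hb : ¬ IsSquare b)
    (hbl : IsSquare (b : ℚ_[l])) (h : SolOver ℚ b a D) :
    ∃ X Y z : ℚ_[l], z ≠ 0 ∧ X ^ 2 - (a : ℚ_[l]) * Y ^ 2 = (D : ℚ_[l]) * z ^ 2 := by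
  obtain ⟨X0, X1, Y0, Y1, z0, z1, hz, h1, h2⟩ := h
  obtain ⟨β, hβ⟩ := hbl
  refine ⟨X0 + X1 * β, Y0 + Y1 * β, z0 + z1 * β, ?_, ?_⟩
  · intro h0
    have h3 : ((z0 ^ 2 : ℚ) : ℚ_[l]) = ((b * z1 ^ 2 : ℚ) : ℚ_[l]) := by
      push_cast
      rw [hβ]
      linear_combination ((z0 : ℚ_[l]) - z1 * β) * h0
    have h4 : z0 ^ 2 = b * z1 ^ 2 := by exact_mod_cast h3
    by_cases hz1 : z1 = 0
    · rw [hz1] at h4
      have h5 : z0 = 0 := by
        have : z0 ^ 2 = 0 := by rw [h4]; ring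
        exact pow_eq_zero_iff (two_ne_zero) |>.1 this
      rcases hz with hz | hz
      · exact hz h5
      · exact hz hz1
    · apply hb
      refine ⟨z0 / z1, ?_⟩
      field_simp
      linarith
  · have e1 : ((X0 ^ 2 + b * X1 ^ 2 - a * (Y0 ^ 2 + b * Y1 ^ 2) : ℚ) : ℚ_[l]) =
        ((D * (z0 ^ 2 + b * z1 ^ 2) : ℚ) : ℚ_[l]) := by rw [h1]
    have e2 : ((X0 * X1 - a * (Y0 * Y1) : ℚ) : ℚ_[l]) = ((D * (z0 * z1) : ℚ) : ℚ_[l]) := by
      rw [h2]
    push_cast at e1 e2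
    linear_combination e1 + 2 * β * e2 - ((X1 : ℚ_[l]) ^ 2 - a * Y1 ^ 2 - D * z1 ^ 2) * hβ

/-- Hensel's lemma for square roots -/
theorem n2_sqrt (l : ℕ) [Fact l.Prime] (hl : l ≠ 2) (c x : ℤ_[l]) (hx : ‖x‖ = 1)
    (hc : ‖x ^ 2 - c‖ < 1) : ∃ z : ℤ_[l], z ^ 2 = c := by
  have h2 : ‖(2 : ℤ_[l])‖ = 1 := by
    have h3 : ‖((2 : ℕ) : ℤ_[l])‖ = 1 := by
      rw [PadicInt.norm_natCast_eq_one_iff]
      exact (Nat.coprime_primes (Fact.out : l.Prime) Nat.prime_two).2 hl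
    simpa using h3
  have hnorm : ‖(X ^ 2 - C c : (ℤ_[l])[X]).aeval x‖ <
      ‖(X ^ 2 - C c : (ℤ_[l])[X]).derivative.aeval x‖ ^ 2 := by
    have e1 : (X ^ 2 - C c : (ℤ_[l])[X]).aeval x = x ^ 2 - c := by simp
    have e2 : (X ^ 2 - C c : (ℤ_[l])[X]).derivative.aeval x = 2 * x := by
      simp [one_add_one_eq_two]
    rw [e1, e2, norm_mul, h2, hx]
    simpa using hc
  obtain ⟨z, hz, -⟩ := hensels_lemma hnorm
  refine ⟨z, ?_⟩
  have e1 : (X ^ 2 - C c : (ℤ_[l])[X]).aeval z = z ^ 2 - c := by simp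
  rw [e1] at hz
  exact sub_eq_zero.1 hz

/-- reduction modulo `l` -/
theorem n2_toZMod (l : ℕ) [Fact l.Prime] (x : ℤ_[l]) : ‖x‖ < 1 ↔ PadicInt.toZMod x = 0 := by
  rw [← PadicInt.mem_nonunits, ← IsLocalRing.mem_maximalIdeal, ← PadicInt.ker_toZMod,
    RingHom.mem_ker]

/-- Hensel's lemma -/
theorem isSquare_padic (l : ℕ) [Fact l.Prime] (hl : l ≠ 2) (b : ℤ)
    (hb : legendreSym l b = 1) : IsSquare ((b : ℚ) : ℚ_[l]) := by
  have hb0 : (b : ZMod l) ≠ 0 := by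
    intro h
    rw [(legendreSym.eq_zero_iff l b).2 h] at hb
    norm_num at hb
  obtain ⟨t, ht⟩ := (legendreSym.eq_one_iff l hb0).1 hb
  obtain ⟨x, hx⟩ := ZMod.natCast_zmod_surjective t
  have hx1 : ‖(x : ℤ_[l])‖ = 1 := by
    rcases lt_or_eq_of_le (PadicInt.norm_le_one (x : ℤ_[l])) with h | h
    · exfalso
      rw [n2_toZMod, map_natCast, hx] at h
      rw [h, mul_zero] at ht
      exact hb0 ht
    · exact h
  have hc : ‖((x : ℤ_[l])) ^ 2 - (b : ℤ_[l])‖ < 1 := by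
    rw [n2_toZMod, map_sub, map_pow, map_natCast, map_intCast, hx, ht]
    ring
  obtain ⟨z, hz⟩ := n2_sqrt l hl _ _ hx1 hc
  refine ⟨z, ?_⟩
  have h1 := congrArg (fun y : ℤ_[l] => (y : ℚ_[l])) hz
  simp only [PadicInt.coe_pow, PadicInt.coe_intCast] at h1
  push_cast
  rw [← h1]
  ring

/-- squares have even valuation -/
theorem n2_even (l : ℕ) [Fact l.Prime] (D w : ℚ_[l]) (hD : D ≠ 0) (h : ‖D‖ = ‖w‖ ^ 2) :
    D.valuation = 2 * w.valuation := by
  have hw : w ≠ 0 := by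
    rintro rfl
    rw [norm_zero] at h
    exact hD (norm_eq_zero.1 (by rw [h]; norm_num))
  have hl1 : (1 : ℝ) < l := by exact_mod_cast (Fact.out : l.Prime).one_lt
  rw [Padic.norm_eq_zpow_neg_valuation hD, Padic.norm_eq_zpow_neg_valuation hw, ← zpow_natCast,
    ← zpow_mul] at h
  have h1 := zpow_right_injective₀ (by linarith) hl1.ne' h
  push_cast at h1
  linarith

/-- `a` is a non-residue modulo `l`: the norm form `X² - a Y²` has even valuation. -/
theorem even_val (l : ℕ) [Fact l.Prime] (hl : l ≠ 2) (a : ℤ) (ha : legendreSym l a = -1)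
    (D : ℚ) (hD : D ≠ 0)
    (h : ∃ X Y z : ℚ_[l], z ≠ 0 ∧ X ^ 2 - ((a : ℚ) : ℚ_[l]) * Y ^ 2 = (D : ℚ_[l]) * z ^ 2) :
    Even (padicValRat l D) := by
  obtain ⟨X, Y, z, hz, he⟩ := h
  have hD' : (D : ℚ_[l]) ≠ 0 := by exact_mod_cast hD
  have hns := (legendreSym.eq_neg_one_iff l).1 ha
  have ha0 : (a : ZMod l) ≠ 0 := by
    intro h
    rw [(legendreSym.eq_zero_iff l a).2 h] at ha
    norm_num at ha
  have hna : ‖((a : ℚ) : ℚ_[l])‖ = 1 := by
    have h1 : ‖(a : ℤ_[l])‖ = 1 := by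
      rcases lt_or_eq_of_le (PadicInt.norm_le_one (a : ℤ_[l])) with h | h
      · exfalso
        rw [n2_toZMod, map_intCast] at h
        exact ha0 h
      · exact h
    rw [PadicInt.norm_def, PadicInt.coe_intCast] at h1
    push_cast
    exact h1
  have hne : X ^ 2 - ((a : ℚ) : ℚ_[l]) * Y ^ 2 ≠ 0 := by
    rw [he]
    exact mul_ne_zero hD' (pow_ne_zero 2 hz)
  have key : ∃ M : ℚ_[l], ‖X ^ 2 - ((a : ℚ) : ℚ_[l]) * Y ^ 2‖ = ‖M‖ ^ 2 := by
    by_cases hXY : ‖X‖ = ‖Y‖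
    · refine ⟨Y, ?_⟩
      have hY : Y ≠ 0 := by
        rintro rfl
        rw [norm_zero, norm_eq_zero] at hXY
        apply hne
        rw [hXY]
        ring
      have hYn : ‖Y‖ ≠ 0 := norm_ne_zero_iff.2 hY
      have ht : ‖X / Y‖ = 1 := by rw [norm_div, hXY, div_self hYn]
      let t : ℤ_[l] := ⟨X / Y, ht.le⟩
      have h1 : ‖t ^ 2 - (a : ℤ_[l])‖ = 1 := by
        rcases lt_or_eq_of_le (PadicInt.norm_le_one (t ^ 2 - (a : ℤ_[l]))) with h | h
        · exfalso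
          rw [n2_toZMod, map_sub, map_pow, map_intCast, sub_eq_zero] at h
          exact hns ⟨PadicInt.toZMod t, by rw [← h, sq]⟩
        · exact h
      have h2 : ‖(X / Y) ^ 2 - ((a : ℚ) : ℚ_[l])‖ = 1 := by
        rw [PadicInt.norm_def] at h1
        push_cast at h1 ⊢
        exact h1
      have h3 : X ^ 2 - ((a : ℚ) : ℚ_[l]) * Y ^ 2 =
          ((X / Y) ^ 2 - ((a : ℚ) : ℚ_[l])) * Y ^ 2 := by
        field_simp
      rw [h3, norm_mul, h2, one_mul, norm_pow]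
    · have h1 : ‖X ^ 2‖ ≠ ‖-(((a : ℚ) : ℚ_[l]) * Y ^ 2)‖ := by
        rw [norm_neg, norm_mul, hna, one_mul, norm_pow, norm_pow]
        intro h
        exact hXY ((pow_left_inj₀ (norm_nonneg _) (norm_nonneg _) two_ne_zero).1 h)
      rw [sub_eq_add_neg, Padic.add_eq_max_of_ne h1, norm_neg, norm_mul, hna, one_mul]
      rcases le_total ‖X ^ 2‖ ‖Y ^ 2‖ with h | h
      · exact ⟨Y, by rw [max_eq_right h, norm_pow]⟩
      · exact ⟨X, by rw [max_eq_left h, norm_pow]⟩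
  obtain ⟨M, hM⟩ := key
  have hzn : ‖z‖ ≠ 0 := norm_ne_zero_iff.2 hz
  have h1 : ‖(D : ℚ_[l])‖ = ‖M / z‖ ^ 2 := by
    rw [he, norm_mul, norm_pow] at hM
    rw [norm_div, div_pow, ← hM]
    field_simp
  have h2 := n2_even l _ _ hD' h1
  rw [Padic.valuation_ratCast] at h2
  rw [h2]
  exact even_two_mul _

/-- `1 + m` is a square if `‖m‖ < 1`. -/
theorem n2_one_add (q : ℕ) [Fact q.Prime] (hq : q ≠ 2) (m : ℚ_[q]) (hm : ‖m‖ < 1) :
    ∃ s : ℚ_[q], s ^ 2 = 1 + m := by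
  let m' : ℤ_[q] := ⟨m, hm.le⟩
  obtain ⟨z, hz⟩ := n2_sqrt q hq (1 + m') 1 (by simp) (by
    have h1 : (1 : ℤ_[q]) ^ 2 - (1 + m') = -m' := by ring
    rw [h1, norm_neg, PadicInt.norm_def]
    exact hm)
  refine ⟨z, ?_⟩
  have h1 := congrArg (fun y : ℤ_[q] => (y : ℚ_[q])) hz
  simp only [PadicInt.coe_pow, PadicInt.coe_add, PadicInt.coe_one] at h1
  exact h1

theorem n2_unit_sq (q : ℕ) [Fact q.Prime] (D : ℚ) (hD : D ≠ 0) (r : ℚ_[q])
    (h : (D : ℚ_[q]) = r ^ 2) : IsSquare ((D : ℚ_[q]) * (q : ℚ_[q]) ^ (-padicValRat q D)) := by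
  have hD' : (D : ℚ_[q]) ≠ 0 := by exact_mod_cast hD
  have h1 := n2_even q _ r hD' (by rw [h, norm_pow])
  rw [Padic.valuation_ratCast] at h1
  have hq0 : (q : ℚ_[q]) ≠ 0 := by exact_mod_cast (Fact.out : q.Prime).ne_zero
  refine ⟨r * (q : ℚ_[q]) ^ (-r.valuation), ?_⟩
  rw [h1, h, show -(2 * r.valuation) = -r.valuation + -r.valuation by ring, zpow_add₀ hq0]
  ring

theorem n2_unit_sq' (q : ℕ) [Fact q.Prime] (D : ℚ) (hD : D ≠ 0) (r : ℚ_[q])
    (h : (D : ℚ_[q]) = q * r ^ 2) :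
    IsSquare ((D : ℚ_[q]) * (q : ℚ_[q]) ^ (-padicValRat q D)) := by
  have hD' : (D : ℚ_[q]) ≠ 0 := by exact_mod_cast hD
  have hq0 : (q : ℚ_[q]) ≠ 0 := by exact_mod_cast (Fact.out : q.Prime).ne_zero
  have hr0 : r ≠ 0 := by
    rintro rfl
    apply hD'
    rw [h]
    ring
  have h1 : (D : ℚ_[q]).valuation = 1 + 2 * r.valuation := by
    rw [h, Padic.valuation_mul hq0 (pow_ne_zero 2 hr0), Padic.valuation_p, Padic.valuation_pow]
    push_cast
    ring
  rw [Padic.valuation_ratCast] at h1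
  refine ⟨r * (q : ℚ_[q]) ^ (-r.valuation), ?_⟩
  rw [h1, h, show -(1 + 2 * r.valuation) = -1 + (-r.valuation + -r.valuation) by ring,
    zpow_add₀ hq0, zpow_add₀ hq0, zpow_neg_one]
  field_simp

/-- If `X² - q u Y² = D z²` then the unit part of `D` at `q` is a square in `ℚ_q` (`q ≡ 1 mod 4`, `u` a
quadratic residue): one of the terms `X²`, `q u Y²` dominates (their valuations have different
parity), and `- u` is a square in `ℚ_q`. -/
theorem sq_unit (q : ℕ) [Fact q.Prime] (hq : q % 4 = 1) (u : ℤ) (hu : legendreSym q u = 1)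
    (D : ℚ) (hD : D ≠ 0)
    (h : ∃ X Y z : ℚ_[q], z ≠ 0 ∧ X ^ 2 - (((q * u : ℤ) : ℚ) : ℚ_[q]) * Y ^ 2 =
      (D : ℚ_[q]) * z ^ 2) :
    IsSquare ((D : ℚ_[q]) * (q : ℚ_[q]) ^ (-padicValRat q D)) := by
  obtain ⟨X, Y, z, hz, he⟩ := h
  have hq2 : q ≠ 2 := by
    rintro rfl
    norm_num at hq
  have hD' : (D : ℚ_[q]) ≠ 0 := by exact_mod_cast hD
  have hq0 : (q : ℚ_[q]) ≠ 0 := by exact_mod_cast (Fact.out : q.Prime).ne_zero
  have hu0 : (u : ZMod q) ≠ 0 := by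
    intro h
    rw [(legendreSym.eq_zero_iff q u).2 h] at hu
    norm_num at hu
  -- `- u` is a square
  have hnu : legendreSym q (-u) = 1 := by
    have h1 : ((-u : ℤ) : ZMod q) ≠ 0 := by
      push_cast
      exact neg_ne_zero.2 hu0
    rw [legendreSym.eq_one_iff q h1]
    obtain ⟨t, ht⟩ := (legendreSym.eq_one_iff q hu0).1 hu
    obtain ⟨i, hi⟩ := (ZMod.exists_sq_eq_neg_one_iff (p := q)).2 (by omega)
    refine ⟨i * t, ?_⟩
    push_cast
    rw [ht]
    linear_combination (t * t) * hi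
  obtain ⟨v, hv⟩ := isSquare_padic q hq2 (-u) hnu
  push_cast at hv he
  have hnu1 : ‖(u : ℚ_[q])‖ = 1 := by
    have h1 : ‖(u : ℤ_[q])‖ = 1 := by
      rcases lt_or_eq_of_le (PadicInt.norm_le_one (u : ℤ_[q])) with h | h
      · exfalso
        rw [n2_toZMod, map_intCast] at h
        exact hu0 h
      · exact h
    rw [PadicInt.norm_def, PadicInt.coe_intCast] at h1
    exact h1
  have hu' : (u : ℚ_[q]) ≠ 0 := by
    intro h
    rw [h, norm_zero] at hnu1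
    norm_num at hnu1
  rcases lt_trichotomy ‖X ^ 2‖ ‖(q : ℚ_[q]) * u * Y ^ 2‖ with hlt | heq | hgt
  · -- the second term dominates
    have hY : Y ≠ 0 := by
      rintro rfl
      simp only [ne_eq, OfNat.ofNat_ne_zero, not_false_eq_true, zero_pow, mul_zero, norm_zero] at hlt
      exact absurd hlt (not_lt.2 (norm_nonneg _))
    have hB : (q : ℚ_[q]) * u * Y ^ 2 ≠ 0 := mul_ne_zero (mul_ne_zero hq0 hu') (pow_ne_zero 2 hY)
    obtain ⟨s, hs⟩ := n2_one_add q hq2 (-(X ^ 2 / ((q : ℚ_[q]) * u * Y ^ 2))) (by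
      rw [norm_neg, norm_div, div_lt_one (norm_pos_iff.2 hB)]
      exact hlt)
    apply n2_unit_sq' q D hD (v * Y * s / z)
    have h1 : (D : ℚ_[q]) * z ^ 2 = q * (v * v) * Y ^ 2 * s ^ 2 := by
      rw [← he, ← hv, hs]
      field_simp
      ring
    field_simp
    linear_combination h1
  · -- impossible: the valuations have different parity
    exfalso
    by_cases hX : X = 0
    · subst hX
      by_cases hY : Y = 0
      · subst hY
        apply mul_ne_zero hD' (pow_ne_zero 2 hz)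
        rw [← he]
        ring
      · have hB : (q : ℚ_[q]) * u * Y ^ 2 ≠ 0 :=
          mul_ne_zero (mul_ne_zero hq0 hu') (pow_ne_zero 2 hY)
        apply hB
        apply norm_eq_zero.1
        rw [← heq]
        simp
    · have hX2 : X ^ 2 ≠ 0 := pow_ne_zero 2 hX
      have hY : Y ≠ 0 := by
        rintro rfl
        apply hX2
        apply norm_eq_zero.1
        rw [heq]
        simp
      have hB : (q : ℚ_[q]) * u * Y ^ 2 ≠ 0 :=
        mul_ne_zero (mul_ne_zero hq0 hu') (pow_ne_zero 2 hY)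
      have hq1 : (1 : ℝ) < q := by exact_mod_cast (Fact.out : q.Prime).one_lt
      have hval : (X ^ 2).valuation = ((q : ℚ_[q]) * u * Y ^ 2).valuation := by
        rw [Padic.norm_eq_zpow_neg_valuation hX2, Padic.norm_eq_zpow_neg_valuation hB] at heq
        have := zpow_right_injective₀ (by linarith) hq1.ne' heq
        linarith
      have hvu : (u : ℚ_[q]).valuation = 0 := by
        rw [Padic.norm_eq_zpow_neg_valuation hu'] at hnu1
        have h2 : (q : ℝ) ^ (-(u : ℚ_[q]).valuation) = (q : ℝ) ^ (0 : ℤ) := by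
          rw [hnu1, zpow_zero]
        have := zpow_right_injective₀ (by linarith) hq1.ne' h2
        linarith
      rw [Padic.valuation_mul (mul_ne_zero hq0 hu') (pow_ne_zero 2 hY),
        Padic.valuation_mul hq0 hu', Padic.valuation_p, hvu, Padic.valuation_pow,
        Padic.valuation_pow] at hval
      push_cast at hval
      omega
  · -- the first term dominates
    have hX : X ≠ 0 := by
      rintro rfl
      simp only [ne_eq, OfNat.ofNat_ne_zero, not_false_eq_true, zero_pow, norm_zero] at hgt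
      exact absurd hgt (not_lt.2 (norm_nonneg _))
    have hX2 : X ^ 2 ≠ 0 := pow_ne_zero 2 hX
    obtain ⟨s, hs⟩ := n2_one_add q hq2 (-((q : ℚ_[q]) * u * Y ^ 2 / X ^ 2)) (by
      rw [norm_neg, norm_div, div_lt_one (norm_pos_iff.2 hX2)]
      exact hgt)
    apply n2_unit_sq q D hD (X * s / z)
    have h1 : (D : ℚ_[q]) * z ^ 2 = X ^ 2 * s ^ 2 := by
      rw [← he, hs]
      field_simp
      ring
    field_simp
    linear_combination h1

end SEC
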